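import Pool.Agent.P.MP_0e7365_lc.Decide

/-!
Approximations: a poset with two families of names for each class.
-/

namespace Pool.Agent.P.MP_0e7365_lc

open scoped symmDiff
open Classical

variable {K Λ St : Type}

/-- `r` forces that the intersection of the `s`-translates of the members of `t` lies in `X`. -/
def SubA (P : Set (Cond K Λ St)) (r : Cond K Λ St) (t : Finset (Nm K Λ St)) (s : Finset K)
    (X : Nm K Λ St) : Prop :=
  ∀ q ∈ P, r ⊆ q → ∀ m, (∀ E ∈ t, frc P (actN s E m) q) → frc P (X m) q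

/-- `p` forces that `X` is in the filter generated by the `s`-translate of `U`. -/
def In (P : Set (Cond K Λ St)) (U : Set (Nm K Λ St)) (p : Cond K Λ St) (X : Nm K Λ St)
    (s : Finset K) : Prop :=
  ∀ q ∈ P, p ⊆ q → ∃ r ∈ P, q ⊆ r ∧ ∃ t : Finset (Nm K Λ St), (t : Set (Nm K Λ St)) ⊆ U ∧
    SubA P r t s X

section
variable {P : Set (Cond K Λ St)} {U : Set (Nm K Λ St)}

theorem SubA.mono {r r' : Cond K Λ St} {t t' : Finset (Nm K Λ St)} {s : Finset K} {X : Nm K Λ St}
    (H : SubA P r t s X) (h : r ⊆ r') (h' : t ⊆ t') : SubA P r' t' s X :=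
  fun q hq hrq m hm => H q hq (h.trans hrq) m (fun E hE => hm E (h' hE))

theorem In.mono {p q : Cond K Λ St} {X : Nm K Λ St} {s : Finset K} (H : In P U p X s)
    (h : p ⊆ q) : In P U q X s := fun r hr hqr => H r hr (h.trans hqr)

theorem In.of_dense {p : Cond K Λ St} {X : Nm K Λ St} {s : Finset K}
    (H : ∀ q ∈ P, p ⊆ q → ∃ r ∈ P, q ⊆ r ∧ In P U r X s) : In P U p X s := by
  intro q hq hpq
  obtain ⟨r, hr, hqr, h⟩ := H q hq hpq
  obtain ⟨r', hr', hrr, h'⟩ := h r hr subset_rfl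
  exact ⟨r', hr', hqr.trans hrr, h'⟩

theorem In.of_subA {p : Cond K Λ St} {X : Nm K Λ St} {s : Finset K} {t : Finset (Nm K Λ St)}
    (ht : (t : Set (Nm K Λ St)) ⊆ U) (H : SubA P p t s X) : In P U p X s :=
  fun q hq hpq => ⟨q, hq, subset_rfl, t, ht, H.mono hpq subset_rfl⟩

theorem In.repl {p : Cond K Λ St} {X Y : Nm K Λ St} {s : Finset K} (H : In P U p X s)
    (h : Sub1 P p X Y) : In P U p Y s := by
  intro q hq hpq
  obtain ⟨r, hr, hqr, t, ht, h'⟩ := H q hq hpq
  exact ⟨r, hr, hqr, t, ht, fun r' hr' hrr m hm =>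
    h r' hr' (hpq.trans (hqr.trans hrr)) m (h' r' hr' hrr m hm)⟩

theorem In.act (hP : Inv P) (h : Finset K) {p : Cond K Λ St} {X : Nm K Λ St} {s : Finset K}
    (H : In P U p X s) : In P U (actC h p) (actN h X) (h ∆ s) := by
  intro q hq hpq
  obtain ⟨r, hr, hqr, t, ht, h'⟩ := H _ (hP h q hq) (actC_subset_iff.1 hpq)
  refine ⟨actC h r, hP h r hr, actC_subset_iff.1 hqr, t, ht, fun r' hr' hrr m hm => ?_⟩
  apply (frc_act' hP h).2
  apply h' _ (hP h r' hr') (actC_subset_iff.1 hrr) m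
  intro E hE
  have := hm E hE
  rw [← actN_actN] at this
  exact (frc_act' hP h).1 this

theorem In.act_iff (hP : Inv P) (h : Finset K) {p : Cond K Λ St} {X : Nm K Λ St} {s : Finset K} :
    In P U p (actN h X) s ↔ In P U (actC h p) X (h ∆ s) := by
  constructor
  · intro H
    have := H.act hP h
    rwa [actN_self] at this
  · intro H
    have := H.act hP h
    rwa [actC_self, symmDiff_symmDiff_cancel_left] at this

theorem In.shift {Kk : Set K} (hU : InvF Kk U) {h : Finset K} (hh : ∀ x ∈ h, x ∉ Kk)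
    {p : Cond K Λ St} {X : Nm K Λ St} {s : Finset K} (H : In P U p X (h ∆ s)) : In P U p X s := by
  intro q hq hpq
  obtain ⟨r, hr, hqr, t, ht, h'⟩ := H q hq hpq
  refine ⟨r, hr, hqr, t.image (actN h), ?_, fun r' hr' hrr m hm => h' r' hr' hrr m ?_⟩
  · intro E hE
    obtain ⟨E', hE', rfl⟩ := Finset.mem_image.1 hE
    exact hU h hh E' (ht hE')
  · intro E hE
    have := hm _ (Finset.mem_image_of_mem _ hE)
    rwa [actN_actN, symmDiff_comm] at this

theorem In.shift_iff {Kk : Set K} (hU : InvF Kk U) {h : Finset K} (hh : ∀ x ∈ h, x ∉ Kk)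
    {p : Cond K Λ St} {X : Nm K Λ St} {s : Finset K} : In P U p X (h ∆ s) ↔ In P U p X s :=
  ⟨fun H => H.shift hU hh, fun H => In.shift hU hh (by rwa [symmDiff_symmDiff_cancel_left])⟩

/-- Finitely many memberships can be witnessed at once. -/
theorem In.finite {ι : Type} (F : Finset ι) (X : ι → Nm K Λ St) (s : ι → Finset K)
    {p : Cond K Λ St} (hp : p ∈ P) (H : ∀ i ∈ F, In P U p (X i) (s i)) :
    ∃ r ∈ P, p ⊆ r ∧ ∃ t : Finset (Nm K Λ St), (t : Set (Nm K Λ St)) ⊆ U ∧
      ∀ i ∈ F, SubA P r t (s i) (X i) := by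
  induction F using Finset.induction_on with
  | empty => exact ⟨p, hp, subset_rfl, ∅, by simp, by simp⟩
  | insert a F _ ih =>
    obtain ⟨r, hr, hpr, t, ht, h⟩ := ih (fun i hi => H i (Finset.mem_insert_of_mem hi))
    obtain ⟨r', hr', hrr, t', ht', h'⟩ := H a (Finset.mem_insert_self _ _) r hr hpr
    refine ⟨r', hr', hpr.trans hrr, t ∪ t', by
      rw [Finset.coe_union]; exact Set.union_subset ht ht', fun i hi => ?_⟩
    rcases Finset.mem_insert.1 hi with rfl | hi
    · exact h'.mono subset_rfl Finset.subset_union_right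
    · exact (h i hi).mono hrr Finset.subset_union_left

theorem SubA.res {A : Lab K Λ St → Prop} (hA : ∀ h l, A (Lab.act h l) ↔ A l) (hR : Reg P A)
    {r : Cond K Λ St} (hr : r ∈ P) {t : Finset (Nm K Λ St)} (ht : ∀ E ∈ t, OverN A E)
    {s : Finset K} {X : Nm K Λ St} (hX : OverN A X) :
    SubA P r t s X ↔ SubA (part P A) (res A r) t s X := by
  have ht' : ∀ E ∈ t, OverN A (actN s E) := fun E hE => (ht E hE).act (fun l hl => (hA s l).2 hl)
  constructor
  · intro H q hq hrq m hm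
    have h1 := hR.union_mem hr hq hrq
    have h2 := H _ h1 Finset.subset_union_right m (fun E hE => by
      rw [frc_part hR (ht' E hE m) h1, res_union_of hq.2 hrq]
      exact hm E hE)
    rwa [frc_part hR (hX m) h1, res_union_of hq.2 hrq] at h2
  · intro H q hq hrq m hm
    rw [frc_part hR (hX m) hq]
    exact H _ (hR.res_mem hq) (res_mono hrq) m (fun E hE =>
      (frc_part hR (ht' E hE m) hq).1 (hm E hE))

theorem In.part {A : Lab K Λ St → Prop} (hA : ∀ h l, A (Lab.act h l) ↔ A l) (hR : Reg P A)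
    (hU : ∀ E ∈ U, OverN A E) {p : Cond K Λ St} (hp : p ∈ P) {s : Finset K} {X : Nm K Λ St}
    (hX : OverN A X) : In P U p X s ↔ In (part P A) U (res A p) X s := by
  constructor
  · intro H q hq hpq
    obtain ⟨r, hr, hqr, t, ht, h⟩ := H _ (hR.union_mem hp hq hpq) Finset.subset_union_right
    refine ⟨res A r, hR.res_mem hr, fun a ha => ?_, t, ht,
      (SubA.res hA hR hr (fun E hE => hU E (ht hE)) hX).1 h⟩
    exact mem_res.2 ⟨hqr (Finset.mem_union_left _ ha), hq.2 a ha⟩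
  · intro H q hq hpq
    obtain ⟨r, hr, hqr, t, ht, h⟩ := H _ (hR.res_mem hq) (res_mono hpq)
    have h1 := hR.union_mem hq hr hqr
    refine ⟨r ∪ q, h1, Finset.subset_union_right, t, ht, ?_⟩
    rw [SubA.res hA hR h1 (fun E hE => hU E (ht hE)) hX, res_union_of hr.2 hqr]
    exact h

theorem In.mono_fam {U' : Set (Nm K Λ St)} (h : U ⊆ U') {p : Cond K Λ St} {s : Finset K}
    {X : Nm K Λ St} (H : In P U p X s) : In P U' p X s := by
  intro q hq hpq
  obtain ⟨r, hr, hqr, t, ht, h'⟩ := H q hq hpq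
  exact ⟨r, hr, hqr, t, ht.trans h, h'⟩

/-- `T` is a locality support of `X`. -/
def Elig (P : Set (Cond K Λ St)) (U : Set (Nm K Λ St)) (Kk : Set K) (T : Set K)
    (X : Nm K Λ St) : Prop :=
  (∀ h : Finset K, (∀ x ∈ h, x ∈ Kk ∧ x ∉ T) → actN h X = X) ∧
    ∀ p ∈ P, ∀ s : Finset K, In P U p X s ↔ In P U p X (cut s T)

theorem Elig.act (hP : Inv P) {Kk T : Set K} {X : Nm K Λ St} (H : Elig P U Kk T X)
    (h : Finset K) : Elig P U Kk T (actN h X) := by
  refine ⟨fun h' hh' => ?_, fun p hp s => ?_⟩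
  · rw [actN_actN, symmDiff_comm, ← actN_actN, H.1 h' hh']
  · rw [In.act_iff hP, In.act_iff hP, H.2 _ (hP h p hp), H.2 _ (hP h p hp) (h ∆ cut s T)]
    congr! 1
    ext x
    simp only [Finset.mem_symmDiff, mem_cut]
    tauto

theorem exists_supp_cond (p : Cond K Λ St) :
    ∃ S : Set K, S.Countable ∧ ∀ h : Finset K, (∀ x ∈ h, x ∉ S) → actC h p = p := by
  have h1 : ∀ a : Atom K Λ St, ∃ S : Set K, S.Countable ∧
      ∀ h : Finset K, (∀ x ∈ h, x ∉ S) → actA h a = a := by
    intro a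
    obtain ⟨S, hS, H⟩ := (Tm.atom a.1 a.2).exists_supp
    refine ⟨S, hS, fun h hh => ?_⟩
    have := H h hh
    simp only [Tm.act, Tm.atom.injEq] at this
    exact Prod.ext this.1 this.2
  choose S hS hS' using h1
  refine ⟨⋃ a ∈ p, S a, p.countable_toSet.biUnion (fun a _ => hS a), fun h hh => ?_⟩
  have h2 : ∀ a ∈ p, actA h a = a := fun a ha =>
    hS' a h (fun x hx hx' => hh x hx (Set.mem_iUnion₂.2 ⟨a, ha, hx'⟩))
  ext a
  rw [mem_actC]
  constructor
  · intro ha
    have := h2 _ ha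
    rw [actA_self] at this
    rwa [this]
  · intro ha
    rwa [h2 a ha]

theorem exists_elig (hP : Inv P) (hccc : CCC P) {Kk : Set K} (hU : InvF Kk U) (X : Nm K Λ St) :
    ∃ T0 : Set K, T0.Countable ∧ T0 ⊆ Kk ∧ ∀ T, T0 ⊆ T → T ⊆ Kk → Elig P U Kk T X := by
  obtain ⟨S1, hS1, hS1'⟩ := exists_suppN X
  have h1 : ∀ Y : Nm K Λ St, ∃ S : Set K, S.Countable ∧ ∀ h : Finset K, (∀ x ∈ h, x ∉ S) →
      ∀ p ∈ P, In P U p Y ∅ → In P U (actC h p) Y ∅ := by
    intro Y
    obtain ⟨B, hB, hBc, hpre⟩ := hccc.exists_predense {p ∈ P | In P U p Y ∅} (fun p hp => hp.1)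
    choose sp hsp hsp' using fun p : Cond K Λ St => exists_supp_cond p
    refine ⟨⋃ p ∈ B, sp p, hBc.biUnion (fun p _ => hsp p), fun h hh p hp H => ?_⟩
    apply In.of_dense
    intro q hq hpq
    obtain ⟨b, hb, r, hr, hqr, hbr⟩ := hpre (actC h q) ⟨hP h q hq, H.mono (actC_subset_iff.1 hpq)⟩
    refine ⟨actC h r, hP h r hr, actC_subset_iff.1 hqr, (hB hb).2.mono ?_⟩
    rw [← hsp' b h (fun x hx hx' => hh x hx (Set.mem_iUnion₂.2 ⟨b, hb, hx'⟩))]
    exact actC_mono hbr
  choose sp hsp hsp' using h1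
  refine ⟨(S1 ∪ ⋃ g ∈ {g : Finset K | (g : Set K) ⊆ S1}, sp (actN g X)) ∩ Kk,
    (hS1.union ((countable_finsets hS1).biUnion (fun g _ => hsp _))).mono Set.inter_subset_left,
    Set.inter_subset_right, fun T hT hTK => ⟨fun h hh => hS1' h (fun x hx hx' => ?_), ?_⟩⟩
  · exact (hh x hx).2 (hT ⟨Or.inl hx', (hh x hx).1⟩)
  · have key : ∀ h : Finset K, (∀ x ∈ h, x ∈ Kk ∧ x ∉ T) → ∀ p ∈ P, ∀ s : Finset K,
        In P U p X s → In P U p X (h ∆ s) := by
      intro h hh p hp s H
      have hX : actN s X = actN (cut s S1) X := by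
        have e : s = cut s S1 ∆ (s ∆ cut s S1) := by
          ext x
          simp only [Finset.mem_symmDiff, mem_cut]
          tauto
        conv_lhs => rw [e, ← actN_actN]
        rw [hS1']
        intro x hx
        simp only [Finset.mem_symmDiff, mem_cut] at hx
        tauto
      have H1 := H.act hP s
      rw [symmDiff_self] at H1
      have H2 := hsp' (actN s X) h (by
        intro x hx hx'
        apply (hh x hx).2
        apply hT
        rw [hX] at hx'
        exact ⟨Or.inr (Set.mem_iUnion₂.2 ⟨cut s S1, fun y hy => (mem_cut.1 hy).2, hx'⟩),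
          (hh x hx).1⟩) _ (hP s p hp) H1
      have H3 := H2.act hP (h ∆ s)
      have e1 : actC (h ∆ s) (actC h (actC s p)) = p := by
        rw [actC_actC h s, actC_self]
      have e2 : actN (h ∆ s) (actN s X) = X := by
        rw [actN_actN, symmDiff_symmDiff_cancel_right]
        exact hS1' h (fun x hx hx' => (hh x hx).2 (hT ⟨Or.inl hx', (hh x hx).1⟩))
      rw [e1, e2] at H3
      have e3 : (h ∆ s) ∆ ∅ = h ∆ s := symmDiff_bot _
      rwa [e3] at H3
    intro p hp s
    let h1 := s.filter (fun x => x ∉ Kk)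
    let h2 := s.filter (fun x => x ∈ Kk ∧ x ∉ T)
    have hh1 : ∀ x ∈ h1, x ∉ Kk := fun x hx => (Finset.mem_filter.1 hx).2
    have hh2 : ∀ x ∈ h2, x ∈ Kk ∧ x ∉ T := fun x hx => (Finset.mem_filter.1 hx).2
    have e : s = h1 ∆ (h2 ∆ cut s T) := by
      ext x
      have := @hTK x
      simp only [Finset.mem_symmDiff, mem_cut, h1, h2, Finset.mem_filter]
      tauto
    constructor
    · intro H
      rw [e, In.shift_iff hU hh1] at H
      have := key h2 hh2 p hp _ H
      rwa [symmDiff_symmDiff_cancel_left] at this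
    · intro H
      have := key h2 hh2 p hp _ H
      rw [← In.shift_iff hU hh1, ← e] at this
      exact this

end

/-! ### The basic names -/

def topN : Nm K Λ St := fun _ => .top

/-- The Cohen real `A β` (for `i = true`) and its complement (for `i = false`). -/
noncomputable def An (b : St) (e : ℕ → Λ) (β : K) (i : Bool) : Nm K Λ St := fun m =>
  .atom ⟨b, ⟨{β}, Set.countable_singleton β⟩, if i then {β} else ∅, .lot (e m)⟩ topN

theorem actN_An (h : Finset K) (b : St) (e : ℕ → Λ) (β : K) (i : Bool) :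
    actN h (An b e β i) = An b e β (xor i (decide (β ∈ h))) := by
  funext m
  simp only [actN, An, Tm.act, Lab.act]
  congr 2
  ext x
  by_cases hx : x = β
  · subst hx
    cases i <;> by_cases hb : x ∈ h <;> simp [Finset.mem_symmDiff, hb]
  · cases i <;> by_cases hb : β ∈ h <;> simp [Finset.mem_symmDiff, hb, hx]

def cof (m0 : ℕ) : Nm K Λ St := fun m => if m0 ≤ m then .top else .neg .top

theorem actN_cof (h : Finset K) (m0 : ℕ) : actN h (cof m0 : Nm K Λ St) = cof m0 := by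
  funext m
  simp only [actN, cof]
  split_ifs <;> rfl

theorem overN_cof (A : Lab K Λ St → Prop) (m0 : ℕ) : OverN A (cof m0) := by
  intro m
  simp only [cof]
  split_ifs <;> trivial

theorem frc_cof {P : Set (Cond K Λ St)} {p : Cond K Λ St} (hp : p ∈ P) {m0 m : ℕ} :
    frc P (cof m0 m) p ↔ m0 ≤ m := by
  simp only [cof]
  split_ifs with h
  · simp [frc, h]
  · simp only [h, iff_false]
    exact fun H => H p hp subset_rfl trivial

structure Approx (K Λ St J : Type) where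
  P : Set (Cond K Λ St)
  U : J → Set (Nm K Λ St)
  W : J → Set (Nm K Λ St)

variable {J : Type}

structure Good (cl : K → J) (b : St) (e : ℕ → Λ) (A : Lab K Λ St → Prop)
    (a : Approx K Λ St J) : Prop where
  overP : ∀ p ∈ a.P, ∀ x ∈ p, A x.1
  empty : ∅ ∈ a.P
  inv : Inv a.P
  ccc : CCC a.P
  compl : ∀ p ∈ a.P, ∀ β m, frc a.P (An b e β true m) p → frc a.P (An b e β false m) p → False
  overU : ∀ k, ∀ E ∈ a.U k, OverN A E
  overW : ∀ k, ∀ E ∈ a.W k, OverN A E
  invU : ∀ k, InvF {x | cl x = k} (a.U k)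
  invW : ∀ k, InvF {x | cl x = k} (a.W k)
  properU : ∀ k, Proper a.P (fun p E m => frc a.P (E m) p) (a.U k)
  link : ∀ k, Proper a.P (In a.P (a.U k)) (a.W k)
  memU : ∀ β, An b e β false ∈ a.U (cl β)
  memW : ∀ β, An b e β true ∈ a.W (cl β)
  cofU : ∀ k m, cof m ∈ a.U k
  cofW : ∀ k m, cof m ∈ a.W k

structure Ext (A : Lab K Λ St → Prop) (a a' : Approx K Λ St J) : Prop where
  reg : Reg a'.P A
  part_eq : part a'.P A = a.P
  U : ∀ k, a.U k ⊆ a'.U k
  W : ∀ k, a.W k ⊆ a'.W k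

theorem Ext.subset {A : Lab K Λ St → Prop} {a a' : Approx K Λ St J} (H : Ext A a a') :
    a.P ⊆ a'.P := by
  rw [← H.part_eq]
  exact fun p hp => hp.1

theorem Ext.res_mem {A : Lab K Λ St → Prop} {a a' : Approx K Λ St J} (H : Ext A a a')
    {p : Cond K Λ St} (hp : p ∈ a'.P) : res A p ∈ a.P := by
  rw [← H.part_eq]
  exact H.reg.res_mem hp

theorem Ext.union_mem {A : Lab K Λ St → Prop} {a a' : Approx K Λ St J} (H : Ext A a a')
    {p q : Cond K Λ St} (hp : p ∈ a'.P) (hq : q ∈ a.P) (hpq : res A p ⊆ q) : q ∪ p ∈ a'.P := by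
  rw [← H.part_eq] at hq
  exact H.reg.union_mem hp hq hpq

theorem Ext.frc_iff {A : Lab K Λ St → Prop} {a a' : Approx K Λ St J} (H : Ext A a a')
    {t : Tm K Λ St} (ht : Over A t) {p : Cond K Λ St} (hp : p ∈ a'.P) :
    frc a'.P t p ↔ frc a.P t (res A p) := by
  rw [frc_part H.reg ht hp, H.part_eq]

theorem Ext.trans {A B : Lab K Λ St → Prop} (hAB : ∀ l, A l → B l) {a a' a'' : Approx K Λ St J}
    (H : Ext A a a') (H' : Ext B a' a'') : Ext A a a'' := by
  have hres : ∀ p : Cond K Λ St, res A (res B p) = res A p := by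
    intro p
    ext x
    simp only [mem_res]
    have := hAB x.1
    tauto
  refine ⟨fun p hp => ⟨?_, fun q hq hpq => ?_⟩, ?_, fun k => (H.U k).trans (H'.U k),
    fun k => (H.W k).trans (H'.W k)⟩
  · rw [← hres]
    exact H'.subset (H.subset (H.res_mem (H'.res_mem hp)))
  · have h1 : res A q ∈ a.P := by
      rw [← hres]
      exact H.res_mem (H'.res_mem hq)
    have h2 := H.union_mem (H'.res_mem hp) h1 (by rw [hres]; exact subset_res hpq)
    have h3 := H'.union_mem hp h2 Finset.subset_union_right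
    have e : res A q ∪ res B p ∪ p = res A q ∪ p := by
      rw [Finset.union_assoc, Finset.union_eq_right.2 res_subset]
    rwa [e] at h3
  · rw [← H.part_eq, ← H'.part_eq]
    ext p
    constructor
    · rintro ⟨h1, h2⟩
      exact ⟨⟨h1, fun x hx => hAB _ (h2 x hx)⟩, h2⟩
    · rintro ⟨⟨h1, _⟩, h2⟩
      exact ⟨h1, h2⟩

theorem Ext.in_up {A : Lab K Λ St → Prop} (hA : ∀ h l, A (Lab.act h l) ↔ A l)
    {a a' : Approx K Λ St J} (H : Ext A a a') {k : J} (hU : ∀ E ∈ a.U k, OverN A E)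
    {p : Cond K Λ St} (hp : p ∈ a'.P) {s : Finset K} {X : Nm K Λ St} (hX : OverN A X)
    (h : In a.P (a.U k) (res A p) X s) : In a'.P (a'.U k) p X s := by
  apply In.mono_fam (H.U k)
  rw [In.part hA H.reg hU hp hX, H.part_eq]
  exact h

theorem Ext.sub1_up {A : Lab K Λ St → Prop} {a a' : Approx K Λ St J} (H : Ext A a a')
    {p : Cond K Λ St} {X Y : Nm K Λ St} (hX : OverN A X) (hY : OverN A Y)
    (h : Sub1 a.P (res A p) X Y) : Sub1 a'.P p X Y := by
  intro q hq hpq m hm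
  rw [H.frc_iff (hY m) hq]
  exact h _ (H.res_mem hq) (res_mono hpq) m ((H.frc_iff (hX m) hq).1 hm)

theorem Ext.dec_up {A : Lab K Λ St → Prop} {a a' : Approx K Λ St J} (H : Ext A a a')
    (hP : ∀ p ∈ a.P, ∀ x ∈ p, A x.1)
    {X Y : Nm K Λ St} (hX : OverN A X) (hY : OverN A Y) (h : Dec a.P Y X) : Dec a'.P Y X := by
  intro p hp
  obtain ⟨q, hq, hpq, h'⟩ := h _ (H.res_mem hp)
  refine ⟨q ∪ p, H.union_mem hp hq hpq, Finset.subset_union_right, ?_⟩
  have e := res_union_of (hP q hq) hpq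
  rcases h' with h' | h'
  · exact Or.inl (H.sub1_up hY hX (by rw [e]; exact h'))
  · exact Or.inr (H.sub1_up hY hX (by rw [e]; exact h'))

theorem Ext.properU_up {A : Lab K Λ St → Prop} {a a' : Approx K Λ St J} (H : Ext A a a')
    (hP : ∀ p ∈ a.P, ∀ x ∈ p, A x.1) {F : Set (Nm K Λ St)} (hF : ∀ E ∈ F, OverN A E)
    (h : Proper a.P (fun p E m => frc a.P (E m) p) F) :
    Proper a'.P (fun p E m => frc a'.P (E m) p) F := by
  intro p hp s hs
  obtain ⟨q, hq, hpq, m, hm⟩ := h _ (H.res_mem hp) s hs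
  have h1 := H.union_mem hp hq hpq
  refine ⟨q ∪ p, h1, Finset.subset_union_right, m, fun E hE => ?_⟩
  show frc a'.P (E m) (q ∪ p)
  rw [H.frc_iff (hF E (hs hE) m) h1, res_union_of (hP q hq) hpq]
  exact hm E hE

theorem Ext.link_up {A : Lab K Λ St → Prop} (hA : ∀ h l, A (Lab.act h l) ↔ A l)
    {a a' : Approx K Λ St J} (H : Ext A a a') {k : J} (hU : ∀ E ∈ a.U k, OverN A E)
    (hP : ∀ p ∈ a.P, ∀ x ∈ p, A x.1) {F : Set (Nm K Λ St)} (hF : ∀ E ∈ F, OverN A E)
    (h : Proper a.P (In a.P (a.U k)) F) : Proper a'.P (In a'.P (a'.U k)) F := by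
  intro p hp s hs
  obtain ⟨q, hq, hpq, m, hm⟩ := h _ (H.res_mem hp) s hs
  have h1 := H.union_mem hp hq hpq
  refine ⟨q ∪ p, h1, Finset.subset_union_right, m, fun E hE => ?_⟩
  apply H.in_up hA hU h1 (hF E (hs hE))
  rw [res_union_of (hP q hq) hpq]
  exact hm E hE

end Pool.Agent.P.MP_0e7365_lc
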