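import Pool.Agent.P.MP_0e7365_lc.GStep

/-!
Cardinal arithmetic.
-/

namespace Pool.Agent.P.MP_0e7365_lc

open Classical Cardinal

theorem mk_Iio_typein (ν : Cardinal.{0}) (a : ν.ord.ToType) :
    #(Set.Iio a) = (Ordinal.typein (α := ν.ord.ToType) (· < ·) a).card :=
  (Ordinal.card_typein (r := fun x y : ν.ord.ToType => x < y) a).symm

theorem mk_Iio_lt (ν : Cardinal.{0}) (a : ν.ord.ToType) : #(Set.Iio a) < ν := by
  rw [mk_Iio_typein]
  exact Cardinal.card_typein_toType_lt ν a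

theorem exists_init {ν μ : Cardinal.{0}} (h : μ < ν) :
    ∃ a : ν.ord.ToType, #(Set.Iio a) = μ ∧ ∀ b, b < a ↔ #(Set.Iio b) < μ := by
  have h1 : μ.ord < Ordinal.type (α := ν.ord.ToType) (· < ·) := by
    rw [Ordinal.type_toType]
    exact Cardinal.ord_lt_ord.2 h
  refine ⟨Ordinal.enum (α := ν.ord.ToType) (· < ·) ⟨μ.ord, h1⟩, ?_, fun b => ?_⟩
  · rw [mk_Iio_typein, Ordinal.typein_enum, Cardinal.card_ord]
  · rw [mk_Iio_typein, ← Cardinal.lt_ord,
      ← Ordinal.typein_lt_typein (α := ν.ord.ToType) (· < ·), Ordinal.typein_enum]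

theorem exists_gt {O : Type} [LinearOrder O] {μ : Cardinal.{0}} (hμ : ℵ₀ ≤ μ)
    (h1 : ∀ a : O, #(Set.Iio a) ≤ μ) (h2 : μ < #O) (S : Set O) (hS : S.Countable) :
    ∃ γ, ∀ β ∈ S, β < γ := by
  have h5 : #(⋃ β : S, Set.Iic β.1) < #O := by
    refine lt_of_le_of_lt ((mk_iUnion_le _).trans ?_) h2
    have : ⨆ β : S, #(Set.Iic β.1) ≤ μ := by
      refine ciSup_le' (fun r => ?_)
      rw [← Set.Iio_insert]
      refine mk_insert_le.trans ?_
      exact (add_le_add (h1 _) (one_le_aleph0.trans hμ)).trans (add_eq_self hμ).le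
    exact (mul_le_mul' ((le_aleph0_iff_set_countable.2 hS).trans hμ) this).trans
      (mul_eq_self hμ).le
  by_contra hc
  push Not at hc
  have : (⋃ β : S, Set.Iic β.1) = Set.univ := Set.eq_univ_of_forall fun γ => by
    obtain ⟨β, h, h'⟩ := hc γ
    exact Set.mem_iUnion.2 ⟨⟨β, h⟩, h'⟩
  rw [this, mk_univ] at h5
  exact lt_irrefl _ h5

theorem succ_pow {μ : Cardinal.{0}} (hμ : ℵ₀ ≤ μ) (h : μ ^ ℵ₀ = μ) :
    (Order.succ μ) ^ ℵ₀ = Order.succ μ := by
  refine le_antisymm ?_ (self_le_power _ one_le_aleph0)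
  let O := (Order.succ μ).ord.ToType
  have h1 : ∀ a : O, #(Set.Iio a) ≤ μ := fun a => Order.lt_succ_iff.1 (mk_Iio_lt _ a)
  have h2 : #O = Order.succ μ := mk_ord_toType _
  have h3 : (⋃ γ : O, {f : ℕ → O | ∀ n, f n < γ}) = Set.univ := Set.eq_univ_of_forall fun f => by
    obtain ⟨γ, hγ⟩ := exists_gt hμ h1 (h2 ▸ Order.lt_succ μ) _ (Set.countable_range f)
    exact Set.mem_iUnion.2 ⟨γ, fun n => hγ _ ⟨n, rfl⟩⟩
  have h4 : ⨆ γ : O, #{f : ℕ → O | ∀ n, f n < γ} ≤ Order.succ μ := by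
    refine ciSup_le' (fun γ => ?_)
    refine (mk_le_of_injective (f := fun (f : {f : ℕ → O | ∀ n, f n < γ}) (n : ℕ) =>
      (⟨f.1 n, f.2 n⟩ : Set.Iio γ)) (fun f g hfg => Subtype.ext (funext fun n =>
        congrArg Subtype.val (congrFun hfg n)))).trans ?_
    rw [← power_def, mk_nat]
    exact ((power_le_power_right (h1 γ)).trans h.le).trans (Order.le_succ μ)
  have h5 := mk_iUnion_le (fun γ : O => {f : ℕ → O | ∀ n, f n < γ})
  rw [h3, mk_univ, ← power_def, mk_nat, h2] at h5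
  exact h5.trans ((mul_le_mul' le_rfl h4).trans (mul_eq_self (hμ.trans (Order.le_succ μ))).le)

/-- The finite successors of the continuum. -/
noncomputable def lam : ℕ → Cardinal.{0}
  | 0 => 𝔠
  | k + 1 => Order.succ (lam k)

theorem lam_strictMono : StrictMono lam := strictMono_nat_of_lt_succ fun _ => Order.lt_succ _

theorem continuum_le_lam (k : ℕ) : 𝔠 ≤ lam k := lam_strictMono.monotone (Nat.zero_le k)

theorem aleph0_le_lam (k : ℕ) : ℵ₀ ≤ lam k := aleph0_le_continuum.trans (continuum_le_lam k)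

theorem lam_pow (k : ℕ) : lam k ^ ℵ₀ = lam k := by
  induction k with
  | zero => exact continuum_power_aleph0
  | succ k ih => exact succ_pow (aleph0_le_lam k) ih

theorem exists_lam {m : Cardinal.{0}} (h : 𝔠 < m) (N : ℕ) (hN : m ≤ lam N) :
    ∃ k ≤ N, k ≠ 0 ∧ m = lam k := by
  induction N with
  | zero => exact absurd hN (not_le.2 h)
  | succ N ih =>
    rcases hN.eq_or_lt with h1 | h1
    · exact ⟨N + 1, le_rfl, by omega, h1⟩
    · obtain ⟨k, h2, h3⟩ := ih (Order.lt_succ_iff.1 h1)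
      exact ⟨k, by omega, h3⟩

section
variable {μ : Cardinal.{0}}

theorem mk_countable_subsets (hμ : ℵ₀ ≤ μ) (h : μ ^ ℵ₀ = μ) {α : Type} {s : Set α} (hs : #s ≤ μ) :
    #{t : Set α // t ⊆ s ∧ t.Countable} ≤ μ := by
  have := mk_bounded_subset_le s ℵ₀
  simp only [le_aleph0_iff_set_countable] at this
  exact this.trans ((power_le_power_right (max_le hs hμ)).trans h.le)

theorem mk_finite_subsets (hμ : ℵ₀ ≤ μ) (h : μ ^ ℵ₀ = μ) {α : Type} {s : Set α} (hs : #s ≤ μ) :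
    #{t : Finset α // (t : Set α) ⊆ s} ≤ μ :=
  (mk_le_of_injective (f := fun t : {t : Finset α // (t : Set α) ⊆ s} =>
    (⟨t.1, t.2, t.1.countable_toSet⟩ : {t : Set α // t ⊆ s ∧ t.Countable}))
    (fun _ _ h => Subtype.ext (Finset.coe_injective (congrArg Subtype.val h)))).trans
    (mk_countable_subsets hμ h hs)

theorem mk_prod_le (hμ : ℵ₀ ≤ μ) {α β : Type} (h1 : #α ≤ μ) (h2 : #β ≤ μ) : #(α × β) ≤ μ := by
  rw [mk_prod, lift_id, lift_id]
  exact (mul_le_mul' h1 h2).trans (mul_eq_self hμ).le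

theorem mk_sum_le (hμ : ℵ₀ ≤ μ) {α β : Type} (h1 : #α ≤ μ) (h2 : #β ≤ μ) : #(α ⊕ β) ≤ μ := by
  rw [mk_sum, lift_id, lift_id]
  exact (add_le_add h1 h2).trans (add_eq_self hμ).le

theorem mk_fun_le (h : μ ^ ℵ₀ = μ) {α β : Type} [Countable α] (h2 : #β ≤ μ) (hμ : ℵ₀ ≤ μ) :
    #(α → β) ≤ μ := by
  rw [← power_def]
  refine (power_le_power_right h2).trans (le_trans ?_ h.le)
  exact power_le_power_left (ne_of_gt (aleph0_pos.trans_le hμ)) mk_le_aleph0

variable {K Λ St : Type}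

/-- The code of a term as a labelled tree. -/
def Tm.code : Tm K Λ St → List ℕ → Lab K Λ St ⊕ ℕ
  | .top, _ => .inr 0
  | .atom l _, [] => .inl l
  | .atom _ sub, n :: p => Tm.code (sub n) p
  | .neg _, [] => .inr 1
  | .neg t, _ :: p => Tm.code t p
  | .conj _, [] => .inr 2
  | .conj f, n :: p => Tm.code (f n) p

theorem Tm.code_inj : Function.Injective (Tm.code : Tm K Λ St → _) := by
  intro t
  induction t with
  | top =>
    intro t' h
    have := congrFun h []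
    cases t' <;> simp [Tm.code] at this ⊢
  | atom l sub ih =>
    intro t' h
    have := congrFun h []
    cases t' <;> simp [Tm.code] at this ⊢
    exact ⟨this, funext fun n => ih n (funext fun p => congrFun h (n :: p))⟩
  | neg t ih =>
    intro t' h
    have := congrFun h []
    cases t' <;> simp [Tm.code] at this ⊢
    exact ih (funext fun p => congrFun h (0 :: p))
  | conj f ih =>
    intro t' h
    have := congrFun h []
    cases t' <;> simp [Tm.code] at this ⊢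
    exact funext fun n => ih n (funext fun p => congrFun h (n :: p))

theorem mk_Nm_le (hμ : ℵ₀ ≤ μ) (h : μ ^ ℵ₀ = μ) (h1 : #K ≤ μ) (h2 : #Λ ≤ μ) (h3 : #St ≤ μ) :
    #(Nm K Λ St) ≤ μ := by
  have hN : #ℕ ≤ μ := mk_nat ▸ hμ
  have hF : #(Finset K) ≤ μ :=
    (mk_le_of_injective (f := fun t : Finset K =>
      (⟨t, Set.subset_univ _⟩ : {t : Finset K // (t : Set K) ⊆ Set.univ}))
      (fun _ _ h => congrArg Subtype.val h)).trans (mk_finite_subsets hμ h (mk_univ.trans_le h1))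
  have hT : #{T : Set K // T.Countable} ≤ μ :=
    (mk_le_of_injective (f := fun t : {T : Set K // T.Countable} =>
      (⟨t.1, Set.subset_univ _, t.2⟩ : {t : Set K // t ⊆ Set.univ ∧ t.Countable}))
      (fun _ _ h => Subtype.ext (Subtype.mk.inj h))).trans
      (mk_countable_subsets hμ h (mk_univ.trans_le h1))
  have hK : #(Kind K Λ) ≤ μ := by
    refine (mk_le_of_surjective (f := fun x : Λ ⊕ ℕ ⊕ Finset K ⊕ K × ℕ => match x with
      | .inl η => (Kind.lot η : Kind K Λ)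
      | .inr (.inl m) => .bit m
      | .inr (.inr (.inl r)) => .com r
      | .inr (.inr (.inr x)) => .prom x.1 x.2) (fun x => ?_)).trans
      (mk_sum_le hμ h2 (mk_sum_le hμ hN (mk_sum_le hμ hF (mk_prod_le hμ h1 hN))))
    cases x with
    | lot η => exact ⟨.inl η, rfl⟩
    | bit m => exact ⟨.inr (.inl m), rfl⟩
    | com r => exact ⟨.inr (.inr (.inl r)), rfl⟩
    | prom β m => exact ⟨.inr (.inr (.inr (β, m))), rfl⟩
  have hL : #(Lab K Λ St) ≤ μ :=
    (mk_le_of_surjective (f := fun x : St × {T : Set K // T.Countable} × Finset K × Kind K Λ =>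
      (⟨x.1, x.2.1, x.2.2.1, x.2.2.2⟩ : Lab K Λ St)) (fun l => ⟨(l.st, l.T, l.g, l.kind), rfl⟩)).trans
      (mk_prod_le hμ h3 (mk_prod_le hμ hT (mk_prod_le hμ hF hK)))
  exact mk_fun_le h ((mk_le_of_injective Tm.code_inj).trans
    (mk_fun_le h (mk_sum_le hμ hL hN) hμ)) hμ

theorem mk_gen_le (hμ : ℵ₀ ≤ μ) (h : μ ^ ℵ₀ = μ) {Kk : Set K} (h1 : #Kk ≤ μ) (h3 : #St ≤ μ)
    {A : K → Nm K Λ St} {G : Set (Nm K Λ St)} (hG : ∀ E ∈ G,
      (∃ α T, T.1 ⊆ Kk ∧ E = Gn α T ∅) ∨ (∃ β ∈ Kk, E = A β) ∨ ∃ m, E = cof m) : #G ≤ μ := by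
  have : G ⊆ Set.range (fun x : (St × {t : Set K // t ⊆ Kk ∧ t.Countable}) ⊕ Kk ⊕ ℕ =>
      match x with
      | .inl x => (Gn x.1 ⟨x.2.1, x.2.2.2⟩ ∅ : Nm K Λ St)
      | .inr (.inl β) => A β.1
      | .inr (.inr m) => cof m) := by
    intro E hE
    rcases hG E hE with ⟨α, T, h, rfl⟩ | ⟨β, h, rfl⟩ | ⟨m, rfl⟩
    · exact ⟨.inl (α, ⟨T.1, h, T.2⟩), rfl⟩
    · exact ⟨.inr (.inl ⟨β, h⟩), rfl⟩
    · exact ⟨.inr (.inr m), rfl⟩
  exact (mk_le_mk_of_subset this).trans (mk_range_le.trans (mk_sum_le hμ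
    (mk_prod_le hμ h3 (mk_countable_subsets hμ h h1)) (mk_sum_le hμ h1 (mk_nat ▸ hμ))))

end

end Pool.Agent.P.MP_0e7365_lc
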