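import Pool.Agent.P.MP_0e7365_lc.Terms

/-!
The countable chain condition, a Delta-system type lemma, terms for open sets, and a general
one-step extension of a poset of conditions.
-/

namespace Pool.Agent.P.MP_0e7365_lc

open scoped symmDiff
open Classical

variable {K Λ St : Type} {P : Set (Cond K Λ St)}

def Compat (P : Set (Cond K Λ St)) (p q : Cond K Λ St) : Prop := ∃ r ∈ P, p ⊆ r ∧ q ⊆ r

theorem Compat.symm {p q : Cond K Λ St} (H : Compat P p q) : Compat P q p :=
  let ⟨r, hr, h1, h2⟩ := H; ⟨r, hr, h2, h1⟩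

def CCC (P : Set (Cond K Λ St)) : Prop :=
  ∀ A ⊆ P, (∀ p ∈ A, ∀ q ∈ A, p ≠ q → ¬ Compat P p q) → A.Countable

theorem CCC.family (H : CCC P) {ι : Type} {B : Set ι} (hB : ¬ B.Countable)
    (f : ι → Cond K Λ St) (hf : ∀ i ∈ B, f i ∈ P) :
    ∃ i ∈ B, ∃ j ∈ B, i ≠ j ∧ Compat P (f i) (f j) := by
  by_contra hc
  push Not at hc
  apply hB
  have hinj : Set.InjOn f B := by
    intro i hi j hj hij
    by_contra hne
    exact hc i hi j hj hne ⟨f i, hf i hi, subset_rfl, by rw [hij]⟩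
  apply (Set.countable_of_injective_of_countable_image hinj)
  apply H
  · rintro _ ⟨i, hi, rfl⟩
    exact hf i hi
  · rintro _ ⟨i, hi, rfl⟩ _ ⟨j, hj, rfl⟩ hne
    exact hc i hi j hj (fun h => hne (by rw [h]))

theorem CCC.exists_predense (H : CCC P) (D : Set (Cond K Λ St)) (hD : D ⊆ P) :
    ∃ A ⊆ D, A.Countable ∧ ∀ d ∈ D, ∃ a ∈ A, Compat P d a := by
  have := zorn_subset {A : Set (Cond K Λ St) | A ⊆ D ∧ ∀ p ∈ A, ∀ q ∈ A, p ≠ q → ¬ Compat P p q}
    (by
      intro c hc hch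
      refine ⟨⋃₀ c, ⟨?_, ?_⟩, fun s hs => Set.subset_sUnion_of_mem hs⟩
      · exact Set.sUnion_subset (fun s hs => (hc hs).1)
      · rintro p ⟨s, hs, hp⟩ q ⟨t, ht, hq⟩ hne
        rcases hch.total hs ht with h | h
        · exact (hc ht).2 p (h hp) q hq hne
        · exact (hc hs).2 p hp q (h hq) hne)
  obtain ⟨A, hA⟩ := this
  refine ⟨A, hA.prop.1, H A (hA.prop.1.trans hD) hA.prop.2, fun d hd => ?_⟩
  by_contra hc
  push Not at hc
  have hmem : d ∈ A := by
    have : insert d A ⊆ A := by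
      apply hA.le_of_ge (y := insert d A) _ (Set.subset_insert _ _)
      refine ⟨Set.insert_subset hd hA.prop.1, ?_⟩
      rintro p (rfl | hp) q (rfl | hq) hne
      · exact absurd rfl hne
      · exact hc q hq
      · exact fun h => hc p hp h.symm
      · exact hA.prop.2 p hp q hq hne
    exact this (Set.mem_insert _ _)
  exact hc d hmem ⟨d, hD hd, subset_rfl, subset_rfl⟩

theorem exists_uncountable_fiber {ι C : Type} {B : Set ι} (hB : ¬ B.Countable) (c : ι → C)
    (hc : (c '' B).Countable) : ∃ v, ¬ {i ∈ B | c i = v}.Countable := by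
  by_contra h
  push Not at h
  apply hB
  have : B ⊆ ⋃ v ∈ c '' B, {i ∈ B | c i = v} := by
    intro i hi
    simp only [Set.mem_iUnion]
    exact ⟨c i, ⟨i, hi, rfl⟩, hi, rfl⟩
  exact (hc.biUnion (fun v _ => h v)).mono this

theorem delta_aux {ι X C : Type} (c : ι → X → C) (N : ℕ) :
    ∀ (d : ι → Finset X) (B : Set ι), ¬ B.Countable → (∀ i ∈ B, (d i).card ≤ N) →
      (∀ x, ((fun i => c i x) '' {i ∈ B | x ∈ d i}).Countable) →
      ∃ B' ⊆ B, ¬ B'.Countable ∧ ∀ i ∈ B', ∀ j ∈ B', ∀ x ∈ d i, x ∈ d j → c i x = c j x := by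
  induction N with
  | zero =>
    intro d B hB hN _
    refine ⟨B, subset_rfl, hB, fun i hi j _ x hx _ => ?_⟩
    have : d i = ∅ := Finset.card_eq_zero.1 (Nat.le_zero.1 (hN i hi))
    rw [this] at hx
    exact absurd hx (Finset.notMem_empty x)
  | succ N ih =>
    intro d B hB hN hc
    by_cases hx : ∃ x, ¬ {i ∈ B | x ∈ d i}.Countable
    · obtain ⟨x, hx⟩ := hx
      obtain ⟨v, hv⟩ := exists_uncountable_fiber hx (fun i => c i x) (hc x)
      obtain ⟨B', hB', hu, H⟩ := ih (fun i => (d i).erase x) _ hv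
        (by
          rintro i ⟨⟨hi, hxi⟩, _⟩
          have := Finset.card_erase_of_mem hxi
          have := hN i hi
          omega)
        (by
          intro y
          apply (hc y).mono
          apply Set.image_mono
          rintro i ⟨⟨⟨hi, _⟩, _⟩, hy⟩
          exact ⟨hi, Finset.mem_of_mem_erase hy⟩)
      refine ⟨B', fun i hi => (hB' hi).1.1, hu, fun i hi j hj y hyi hyj => ?_⟩
      by_cases hy : y = x
      · subst hy
        exact (hB' hi).2.trans (hB' hj).2.symm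
      · exact H i hi j hj y (Finset.mem_erase.2 ⟨hy, hyi⟩) (Finset.mem_erase.2 ⟨hy, hyj⟩)
    · push Not at hx
      have := zorn_subset {A : Set ι | A ⊆ B ∧ ∀ i ∈ A, ∀ j ∈ A, i ≠ j → ∀ x ∈ d i, x ∉ d j}
        (by
          intro c hc hch
          refine ⟨⋃₀ c, ⟨?_, ?_⟩, fun s hs => Set.subset_sUnion_of_mem hs⟩
          · exact Set.sUnion_subset (fun s hs => (hc hs).1)
          · rintro p ⟨s, hs, hp⟩ q ⟨t, ht, hq⟩ hne
            rcases hch.total hs ht with h | h
            · exact (hc ht).2 p (h hp) q hq hne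
            · exact (hc hs).2 p hp q (h hq) hne)
      obtain ⟨A, hA⟩ := this
      refine ⟨A, hA.prop.1, fun hcount => hB ?_, fun i hi j hj x hxi hxj => ?_⟩
      · have : B ⊆ A ∪ ⋃ a ∈ A, ⋃ x ∈ d a, {i ∈ B | x ∈ d i} := by
          intro i hi
          by_contra hne
          simp only [Set.mem_union, Set.mem_iUnion, not_or, not_exists] at hne
          apply hne.1
          have : insert i A ⊆ A := by
            apply hA.le_of_ge (y := insert i A) _ (Set.subset_insert _ _)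
            refine ⟨Set.insert_subset hi hA.prop.1, ?_⟩
            rintro p (rfl | hp) q (rfl | hq) hpq
            · exact absurd rfl hpq
            · exact fun x hx hx' => hne.2 q hq x hx' ⟨hi, hx⟩
            · exact fun x hx hx' => hne.2 p hp x hx ⟨hi, hx'⟩
            · exact hA.prop.2 p hp q hq hpq
          exact this (Set.mem_insert _ _)
        exact (hcount.union (hcount.biUnion (fun a _ =>
          (d a).countable_toSet.biUnion (fun x _ => hx x)))).mono this
      · by_contra hne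
        exact hA.prop.2 i hi j hj (fun h => hne (by rw [h])) x hxi hxj

theorem delta {ι X C : Type} (c : ι → X → C) (d : ι → Finset X) (B : Set ι) (hB : ¬ B.Countable)
    (hc : ∀ x, ((fun i => c i x) '' {i ∈ B | x ∈ d i}).Countable) :
    ∃ B' ⊆ B, ¬ B'.Countable ∧ ∀ i ∈ B', ∀ j ∈ B', ∀ x ∈ d i, x ∈ d j → c i x = c j x := by
  obtain ⟨N, hN⟩ := exists_uncountable_fiber hB (fun i => (d i).card) (Set.to_countable _)
  obtain ⟨B', hB', hu, H⟩ := delta_aux c N d _ hN (fun i hi => hi.2.le) (by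
    intro x
    apply (hc x).mono
    apply Set.image_mono
    rintro i ⟨⟨hi, _⟩, hx⟩
    exact ⟨hi, hx⟩)
  exact ⟨B', fun i hi => (hB' hi).1, hu, H⟩

/-! ### Terms for conditions and for open sets -/

noncomputable def condTm (p : Cond K Λ St) : Tm K Λ St :=
  cconj (fun a : {a // a ∈ p} => .atom a.1.1 a.1.2)

theorem frc_condTm_of_subset {a p : Cond K Λ St} (H : a ⊆ p) : frc P (condTm a) p :=
  frc_cconj.2 (fun x => frc_atom_of_mem (H x.2))

theorem compat_of_frc_condTm {a p : Cond K Λ St} (hp : p ∈ P) (H : frc P (condTm a) p) :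
    ∃ r ∈ P, p ⊆ r ∧ a ⊆ r := by
  have H' := frc_cconj.1 H
  have key : ∀ s : Cond K Λ St, s ⊆ a → ∃ r ∈ P, p ⊆ r ∧ s ⊆ r := by
    intro s
    induction s using Finset.induction_on with
    | empty => exact fun _ => ⟨p, hp, subset_rfl, Finset.empty_subset _⟩
    | insert x s _ ih =>
      intro hs
      obtain ⟨r, hr, hpr, hsr⟩ := ih ((Finset.subset_insert _ _).trans hs)
      obtain ⟨r', hr', hrr, hx⟩ := H' ⟨x, hs (Finset.mem_insert_self _ _)⟩ r hr hpr
      exact ⟨r', hr', hpr.trans hrr, Finset.insert_subset hx (hsr.trans hrr)⟩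
  exact key a subset_rfl

/-- The disjunction of countably many conditions. -/
noncomputable def orTm (A : Set (Cond K Λ St)) (hA : A.Countable) : Tm K Λ St :=
  haveI := hA.to_subtype
  .neg (cconj (fun a : A => .neg (condTm a.1)))

theorem frc_orTm_of_mem {A : Set (Cond K Λ St)} (hA : A.Countable) {a p : Cond K Λ St}
    (ha : a ∈ A) (H : a ⊆ p) : frc P (orTm A hA) p := by
  haveI := hA.to_subtype
  intro q hq hpq hc
  exact frc_cconj.1 hc ⟨a, ha⟩ q hq subset_rfl (frc_condTm_of_subset (H.trans hpq))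

theorem compat_of_frc_orTm {A : Set (Cond K Λ St)} (hA : A.Countable) {p : Cond K Λ St}
    (hp : p ∈ P) (H : frc P (orTm A hA) p) : ∃ a ∈ A, Compat P p a := by
  haveI := hA.to_subtype
  by_contra hc
  apply H p hp subset_rfl
  rw [frc_cconj]
  rintro ⟨a, ha⟩ q hq hpq hq'
  obtain ⟨r, hr, hqr, har⟩ := compat_of_frc_condTm hq hq'
  exact hc ⟨a, ha, r, hr, hpq.trans hqr, har⟩

theorem frc_neg_orTm {A : Set (Cond K Λ St)} (hA : A.Countable) {p : Cond K Λ St}
    (H : ∀ a ∈ A, ¬ Compat P p a) : frc P (.neg (orTm A hA)) p := by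
  intro q hq hpq hq'
  obtain ⟨a, ha, r, hr, hqr, har⟩ := compat_of_frc_orTm hA hq hq'
  exact H a ha ⟨r, hr, hpq.trans hqr, har⟩

theorem over_orTm {L : Lab K Λ St → Prop} {A : Set (Cond K Λ St)} (hA : A.Countable)
    (H : ∀ p ∈ A, ∀ a ∈ p, L a.1) : Over L (orTm A hA) := by
  haveI := hA.to_subtype
  apply over_cconj (f := fun a : A => Tm.neg (condTm a.1))
  rintro ⟨p, hp⟩
  apply over_cconj (f := fun a : {a // a ∈ p} => Tm.atom a.1.1 a.1.2)
  rintro ⟨a, ha⟩
  exact H p hp a ha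

/-- In a ccc poset, every open set is densely described by a term. -/
theorem CCC.exists_term (H : CCC P) (O : Set (Cond K Λ St)) (hO : O ⊆ P)
    (hup : ∀ p ∈ O, ∀ q ∈ P, p ⊆ q → q ∈ O) {L : Lab K Λ St → Prop}
    (hL : ∀ p ∈ O, ∀ a ∈ p, L a.1) :
    ∃ t : Tm K Λ St, Over L t ∧
      ∀ p ∈ P, (frc P t p ↔ ∀ q ∈ P, p ⊆ q → ∃ r ∈ O, q ⊆ r) := by
  obtain ⟨A, hA, hc, hpre⟩ := H.exists_predense O hO
  refine ⟨orTm A hc, over_orTm hc (fun p hp => hL p (hA hp)), fun p _ => ⟨?_, ?_⟩⟩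
  · intro h q hq hpq
    obtain ⟨a, ha, r, hr, hqr, har⟩ := compat_of_frc_orTm hc hq (frc_mono h hpq)
    exact ⟨r, hup a (hA ha) r hr har, hqr⟩
  · intro h
    apply frc_of_dense
    intro q hq hpq
    obtain ⟨r, hr, hqr⟩ := h q hq hpq
    obtain ⟨a, ha, s, hs, hrs, has⟩ := hpre r hr
    exact ⟨s, hs, hqr.trans hrs, frc_orTm_of_mem hc ha has⟩

/-! ### One-step extensions -/

/-- Extension of `P` (whose atoms have labels in `A`) by new atoms satisfying `N`, subject to
pairwise constraints `C` that are imposed on the old part of the condition. -/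
def ext (P : Set (Cond K Λ St)) (A : Lab K Λ St → Prop) (N : Atom K Λ St → Prop)
    (C : Cond K Λ St → Atom K Λ St → Atom K Λ St → Prop) : Set (Cond K Λ St) :=
  {p | res A p ∈ P ∧ (∀ a ∈ p, ¬ A a.1 → N a) ∧
    ∀ a ∈ p, ∀ b ∈ p, ¬ A a.1 → ¬ A b.1 → C (res A p) a b}

section
variable {A : Lab K Λ St → Prop} {N : Atom K Λ St → Prop}
  {C : Cond K Λ St → Atom K Λ St → Atom K Λ St → Prop}

theorem part_ext (hP : ∀ p ∈ P, ∀ a ∈ p, A a.1) : part (ext P A N C) A = P := by
  ext p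
  constructor
  · rintro ⟨h1, h2⟩
    have := h1.1
    rwa [res_eq_self h2] at this
  · intro hp
    refine ⟨⟨?_, fun a ha hn => absurd (hP p hp a ha) hn,
      fun a ha _ _ hn => absurd (hP p hp a ha) hn⟩, hP p hp⟩
    rwa [res_eq_self (hP p hp)]

theorem subset_ext (hP : ∀ p ∈ P, ∀ a ∈ p, A a.1) : P ⊆ ext P A N C := by
  intro p hp
  rw [← part_ext (N := N) (C := C) hP] at hp
  exact hp.1

theorem union_mem_ext (hP : ∀ p ∈ P, ∀ a ∈ p, A a.1)
    (hC : ∀ p q a b, p ⊆ q → C p a b → C q a b) {p q : Cond K Λ St} (hp : p ∈ ext P A N C)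
    (hq : q ∈ P) (hpq : res A p ⊆ q) : q ∪ p ∈ ext P A N C := by
  have h1 : res A (q ∪ p) = q := res_union_of (hP q hq) hpq
  refine ⟨by rw [h1]; exact hq, fun a ha hn => ?_, fun a ha b hb hna hnb => ?_⟩
  · rcases Finset.mem_union.1 ha with h | h
    · exact absurd (hP q hq a h) hn
    · exact hp.2.1 a h hn
  · rcases Finset.mem_union.1 ha with h | h
    · exact absurd (hP q hq a h) hna
    rcases Finset.mem_union.1 hb with h' | h'
    · exact absurd (hP q hq b h') hnb
    rw [h1]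
    exact hC _ _ _ _ hpq (hp.2.2 a h b h' hna hnb)

theorem reg_ext (hP : ∀ p ∈ P, ∀ a ∈ p, A a.1) (hC : ∀ p q a b, p ⊆ q → C p a b → C q a b) :
    Reg (ext P A N C) A := by
  intro p hp
  exact ⟨subset_ext hP hp.1, fun q hq hpq => union_mem_ext hP hC hp hq.1 (subset_res hpq)⟩

theorem inv_ext (hP : Inv P) (hA : ∀ h l, A (Lab.act h l) ↔ A l)
    (hN : ∀ h a, N a → N (actA h a))
    (hC : ∀ h p a b, p ∈ P → N a → N b → C p a b → C (actC h p) (actA h a) (actA h b)) :
    Inv (ext P A N C) := by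
  intro h p hp
  have h1 : res A (actC h p) = actC h (res A p) := res_actC (hA h) p
  refine ⟨by rw [h1]; exact hP h _ hp.1, fun a ha hn => ?_, fun a ha b hb hna hnb => ?_⟩
  · have := hN h _ (hp.2.1 _ (mem_actC.1 ha) (fun hc => hn ((hA h _).1 hc)))
    rwa [actA_self] at this
  · have ha' := mem_actC.1 ha
    have hb' := mem_actC.1 hb
    have hna' : ¬ A (actA h a).1 := fun hc => hna ((hA h _).1 hc)
    have hnb' : ¬ A (actA h b).1 := fun hc => hnb ((hA h _).1 hc)
    have := hC h _ _ _ hp.1 (hp.2.1 _ ha' hna') (hp.2.1 _ hb' hnb') (hp.2.2 _ ha' _ hb' hna' hnb')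
    rwa [actA_self, actA_self, ← h1] at this

theorem ccc_ext (hP : ∀ p ∈ P, ∀ a ∈ p, A a.1) (hC : ∀ p q a b, p ⊆ q → C p a b → C q a b)
    (hccc : CCC P) {X : Type} (idx : Atom K Λ St → X) (Free : Atom K Λ St → Prop)
    (h1 : ∀ p a b, idx a ≠ idx b → C p a b) (h2 : ∀ p a b, Free a → Free b → C p a b)
    (h3 : ∀ x, {a | N a ∧ idx a = x ∧ ¬ Free a}.Countable) : CCC (ext P A N C) := by
  intro B hB hanti
  by_contra hu
  let d : Cond K Λ St → Finset X := fun p => (p.filter (fun a => ¬ A a.1)).image idx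
  let c : Cond K Λ St → X → Cond K Λ St :=
    fun p x => p.filter (fun a => ¬ A a.1 ∧ idx a = x ∧ ¬ Free a)
  obtain ⟨B', hB', hu', H⟩ := delta c d B hu (by
    intro x
    have := (Set.countable_setOf_finite_subset (h3 x))
    have h4 : ((fun s : Cond K Λ St => (s : Set (Atom K Λ St))) ⁻¹'
        {t | t.Finite ∧ t ⊆ {a | N a ∧ idx a = x ∧ ¬ Free a}}).Countable :=
      this.preimage Finset.coe_injective
    apply h4.mono
    rintro _ ⟨p, ⟨hp, _⟩, rfl⟩
    refine ⟨Finset.finite_toSet _, fun a ha => ?_⟩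
    simp only [c, Finset.coe_filter, Set.mem_ofPred_eq] at ha
    exact ⟨(hB hp).2.1 a ha.1 ha.2.1, ha.2.2⟩)
  obtain ⟨p, hp, q, hq, hne, r, hr, hpr, hqr⟩ :=
    hccc.family hu' (res A) (fun p hp => (hB (hB' hp)).1)
  have hp' := hB (hB' hp)
  have hq' := hB (hB' hq)
  apply hanti p (hB' hp) q (hB' hq) hne
  have hres : res A (r ∪ (p ∪ q)) = r := by
    apply res_union_of (hP r hr)
    intro a ha
    rw [mem_res, Finset.mem_union] at ha
    rcases ha.1 with h | h
    · exact hpr (mem_res.2 ⟨h, ha.2⟩)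
    · exact hqr (mem_res.2 ⟨h, ha.2⟩)
  have cross : ∀ p ∈ B', ∀ q ∈ B', ∀ a ∈ p, ∀ b ∈ q, ¬ A a.1 → ¬ A b.1 → idx a = idx b →
      ¬ Free a → a ∈ q := by
    intro p hp q hq a ha b hb hna hnb hab hf
    have e := H p hp q hq (idx a) (Finset.mem_image.2 ⟨a, Finset.mem_filter.2 ⟨ha, hna⟩, rfl⟩)
      (Finset.mem_image.2 ⟨b, Finset.mem_filter.2 ⟨hb, hnb⟩, hab.symm⟩)
    have : a ∈ c p (idx a) := Finset.mem_filter.2 ⟨ha, hna, rfl, hf⟩
    rw [e] at this
    exact (Finset.mem_filter.1 this).1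
  have cross' : ∀ p ∈ B', ∀ q ∈ B', res A p ⊆ r → res A q ⊆ r →
      ∀ a ∈ p, ∀ b ∈ q, ¬ A a.1 → ¬ A b.1 → C r a b := by
    intro p hp q hq hpr hqr a ha b hb hna hnb
    by_cases hab : idx a = idx b
    swap
    · exact h1 _ _ _ hab
    by_cases hfa : Free a
    · by_cases hfb : Free b
      · exact h2 _ _ _ hfa hfb
      · exact hC _ _ _ _ hpr ((hB (hB' hp)).2.2 a ha b
          (cross q hq p hp b hb a ha hnb hna hab.symm hfb) hna hnb)
    · exact hC _ _ _ _ hqr ((hB (hB' hq)).2.2 a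
        (cross p hp q hq a ha b hb hna hnb hab hfa) b hb hna hnb)
  refine ⟨r ∪ (p ∪ q), ⟨by rw [hres]; exact hr, fun a ha hn => ?_, fun a ha b hb hna hnb => ?_⟩,
    fun a ha => by simp [ha], fun a ha => by simp [ha]⟩
  · simp only [Finset.mem_union] at ha
    rcases ha with h | h | h
    · exact absurd (hP r hr a h) hn
    · exact hp'.2.1 a h hn
    · exact hq'.2.1 a h hn
  · rw [hres]
    simp only [Finset.mem_union] at ha hb
    rcases ha with h | h | h
    · exact absurd (hP r hr a h) hna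
    all_goals
      rcases hb with h' | h' | h'
      · exact absurd (hP r hr b h') hnb
    · exact cross' p hp p hp hpr hpr a h b h' hna hnb
    · exact cross' p hp q hq hpr hqr a h b h' hna hnb
    · exact cross' q hq p hp hqr hpr a h b h' hna hnb
    · exact cross' q hq q hq hqr hqr a h b h' hna hnb

end

end Pool.Agent.P.MP_0e7365_lc
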