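import Pool.Agent.P.MP_0e7365_lc.Approx

/-!
The lottery extension, the base approximation and the deciding step.
-/

namespace Pool.Agent.P.MP_0e7365_lc

open scoped symmDiff
open Classical

variable {K Λ St J : Type}

def Nlot (α : St) (a : Atom K Λ St) : Prop :=
  ∃ η T g, (∀ x ∈ g, x ∈ T.1) ∧ a = lotA α η T g

def Clot (_ : Cond K Λ St) (a b : Atom K Λ St) : Prop :=
  a.1.kind = b.1.kind → a.1.T = b.1.T → a.1.g = b.1.g

/-- The extension by all lotteries of stage `α`. -/
def lotExt (P : Set (Cond K Λ St)) (A : Lab K Λ St → Prop) (α : St) : Set (Cond K Λ St) :=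
  ext P A (Nlot α) Clot

section
variable {P : Set (Cond K Λ St)} {A : Lab K Λ St → Prop} {α : St}

theorem res_res_of {A B : Lab K Λ St → Prop} (hAB : ∀ l, A l → B l) (p : Cond K Λ St) :
    res A (res B p) = res A p := by
  ext x
  simp only [mem_res]
  have := hAB x.1
  tauto

theorem lotExt_over {p : Cond K Λ St}
    (hp : p ∈ lotExt P A α) : ∀ a ∈ p, AS A α Set.univ a.1 := by
  intro a ha
  by_cases h : A a.1
  · exact Or.inl h
  · obtain ⟨η, T, g, _, rfl⟩ := hp.2.1 a ha h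
    exact Or.inr ⟨rfl, η, trivial, rfl⟩

theorem lotExt_reg (S : Set Λ) : Reg (lotExt P A α) (AS A α S) := by
  have hAB : ∀ l, A l → AS A α S l := fun l h => Or.inl h
  intro p hp
  refine ⟨⟨by rw [res_res_of hAB]; exact hp.1, fun a ha => hp.2.1 a (res_subset ha),
    fun a ha b hb h1 h2 => hp.2.2 a (res_subset ha) b (res_subset hb) h1 h2⟩, fun q hq hpq => ?_⟩
  have e : res A (res (AS A α S) q ∪ p) = res A q := by
    ext x
    simp only [mem_res, Finset.mem_union]
    constructor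
    · rintro ⟨h | h, h'⟩
      · exact ⟨h.1, h'⟩
      · exact ⟨hpq (mem_res.2 ⟨h, hAB _ h'⟩), h'⟩
    · rintro ⟨h, h'⟩
      exact ⟨Or.inl ⟨h, hAB _ h'⟩, h'⟩
  have key : ∀ a ∈ res (AS A α S) q, ∀ b ∈ p, ¬ A a.1 → ¬ A b.1 → a.1.kind = b.1.kind → b ∈ q := by
    intro a ha b hb h1 h2 hk
    apply hpq
    refine mem_res.2 ⟨hb, Or.inr ?_⟩
    obtain ⟨η, T, g, _, rfl⟩ := hp.2.1 b hb h2
    obtain ⟨_, η', hη', h⟩ := (mem_res.1 ha).2.resolve_left h1
    exact ⟨rfl, η', hη', hk ▸ h⟩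
  refine ⟨by rw [e]; exact hq.1, fun a ha h => ?_, fun a ha b hb h1 h2 => ?_⟩
  · rcases Finset.mem_union.1 ha with ha | ha
    · exact hq.2.1 a (res_subset ha) h
    · exact hp.2.1 a ha h
  · intro hk
    rcases Finset.mem_union.1 ha with ha | ha <;> rcases Finset.mem_union.1 hb with hb | hb
    · exact hq.2.2 a (res_subset ha) b (res_subset hb) h1 h2 hk
    · exact hq.2.2 a (res_subset ha) b (key a ha b hb h1 h2 hk) h1 h2 hk
    · exact hq.2.2 a (key b hb a ha h2 h1 hk.symm) b (res_subset hb) h1 h2 hk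
    · exact hp.2.2 a ha b hb h1 h2 hk

theorem lotExt_lot2 (hα : ∀ l, A l → l.st ≠ α) {p : Cond K Λ St} (hp : p ∈ lotExt P A α)
    {η : Λ} {T : {T : Set K // T.Countable}} {g g' : Finset K} (h1 : lotA α η T g ∈ p)
    (h2 : lotA α η T g' ∈ p) : g = g' :=
  hp.2.2 _ h1 _ h2 (fun h => hα _ h rfl) (fun h => hα _ h rfl) rfl rfl

theorem lotExt_union (hα : ∀ l, A l → l.st ≠ α) {p n : Cond K Λ St} (hp : p ∈ lotExt P A α)
    (hn : ∀ a ∈ n, Nlot α a) (hc : ∀ a ∈ n, ∀ b ∈ n, Clot ∅ a b)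
    (hc' : ∀ a ∈ n, ∀ b ∈ p, ¬ A b.1 → Clot ∅ a b) : n ∪ p ∈ lotExt P A α := by
  have e : res A (n ∪ p) = res A p := by
    ext x
    simp only [mem_res, Finset.mem_union]
    constructor
    · rintro ⟨h | h, h'⟩
      · obtain ⟨η, T, g, _, rfl⟩ := hn x h
        exact absurd rfl (hα _ h')
      · exact ⟨h, h'⟩
    · rintro ⟨h, h'⟩
      exact ⟨Or.inr h, h'⟩
  refine ⟨by rw [e]; exact hp.1, fun a ha h => ?_, fun a ha b hb h1 h2 => ?_⟩
  · rcases Finset.mem_union.1 ha with ha | ha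
    · exact hn a ha
    · exact hp.2.1 a ha h
  · rcases Finset.mem_union.1 ha with ha | ha <;> rcases Finset.mem_union.1 hb with hb | hb
    · exact hc a ha b hb
    · exact hc' a ha b hb h2
    · exact fun h3 h4 => (hc' b hb a ha h1 h3.symm h4.symm).symm
    · exact hp.2.2 a ha b hb h1 h2

theorem lotExt_lot1 (hα : ∀ l, A l → l.st ≠ α) {p : Cond K Λ St} (hp : p ∈ lotExt P A α)
    (η : Λ) (T : {T : Set K // T.Countable}) :
    ∃ q ∈ lotExt P A α, p ⊆ q ∧ ∃ g : Finset K, (∀ x ∈ g, x ∈ T.1) ∧ lotA α η T g ∈ q := by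
  by_cases h : ∃ b ∈ p, ¬ A b.1 ∧ b.1.kind = .lot η ∧ b.1.T = T
  · obtain ⟨b, hb, h1, h2, h3⟩ := h
    obtain ⟨η', T', g, hg, rfl⟩ := hp.2.1 b hb h1
    cases h2
    cases h3
    exact ⟨p, hp, subset_rfl, g, hg, hb⟩
  · refine ⟨{lotA α η T ∅} ∪ p, lotExt_union hα hp ?_ ?_ ?_, Finset.subset_union_right, ∅,
      by simp, by simp⟩
    · intro a ha
      rw [Finset.mem_singleton.1 ha]
      exact ⟨η, T, ∅, by simp, rfl⟩
    · intro a ha b hb
      rw [Finset.mem_singleton.1 ha, Finset.mem_singleton.1 hb]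
      exact fun _ _ => rfl
    · intro a ha b hb h1 h2 h3
      rw [Finset.mem_singleton.1 ha] at h2 h3
      exact absurd ⟨b, hb, h1, h2.symm, h3.symm⟩ h

theorem lotExt_inv (hP : Inv P) (hA : ∀ h l, A (Lab.act h l) ↔ A l) : Inv (lotExt P A α) := by
  apply inv_ext hP hA
  · rintro h a ⟨η, T, g, hg, rfl⟩
    refine ⟨η, T, _, fun x hx => ?_, actA_lotA h α η T g⟩
    rcases Finset.mem_symmDiff.1 hx with h1 | h1
    · exact hg x h1.1
    · exact (mem_cut.1 h1.1).2
  · intro h p a b _ _ _ H h1 h2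
    have h3 := H h1 h2
    change a.1.g ∆ cut h a.1.T.1 = b.1.g ∆ cut h b.1.T.1
    change a.1.T = b.1.T at h2
    rw [h3, h2]

theorem lotExt_ccc (hP : ∀ p ∈ P, ∀ a ∈ p, A a.1) (hccc : CCC P) : CCC (lotExt P A α) := by
  apply ccc_ext hP (fun _ _ _ _ _ h => h) hccc (fun a => (a.1.T, a.1.kind)) (fun _ => False)
  · intro p a b h h1 h2
    exact absurd (Prod.ext h2 h1) h
  · exact fun _ _ _ h => h.elim
  · rintro ⟨T, k⟩
    have := (countable_finsets T.2).image (fun g => ((⟨α, T, g, k⟩, fun _ => .top) : Atom K Λ St))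
    apply this.mono
    rintro a ⟨⟨η, T', g, hg, rfl⟩, h, _⟩
    simp only [lotA, Prod.mk.injEq] at h
    obtain ⟨rfl, rfl⟩ := h
    exact ⟨g, fun x hx => hg x hx, rfl⟩

end

theorem Good.mono {cl : K → J} {b : St} {e : ℕ → Λ} {A B : Lab K Λ St → Prop}
    (hAB : ∀ l, A l → B l) {a : Approx K Λ St J} (H : Good cl b e A a) : Good cl b e B a :=
  { H with
    overP := fun p hp x hx => hAB _ (H.overP p hp x hx)
    overU := fun k E hE => (H.overU k E hE).mono hAB
    overW := fun k E hE => (H.overW k E hE).mono hAB }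

theorem Ext.compl_up {cl : K → J} {b : St} {e : ℕ → Λ} {A : Lab K Λ St → Prop}
    {a a' : Approx K Λ St J} (hG : Good cl b e A a) (H : Ext A a a') :
    ∀ p ∈ a'.P, ∀ β m, frc a'.P (An b e β true m) p → frc a'.P (An b e β false m) p → False := by
  intro p hp β m h1 h2
  rw [H.frc_iff (hG.overW _ _ (hG.memW β) m) hp] at h1
  rw [H.frc_iff (hG.overU _ _ (hG.memU β) m) hp] at h2
  exact hG.compl _ (H.res_mem hp) β m h1 h2

/-! ### The base -/

theorem An_eq (b : St) (e : ℕ → Λ) (β : K) (i : Bool) (m : ℕ) :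
    An b e β i m = .atom (lotA b (e m) ⟨{β}, Set.countable_singleton β⟩
      (if i then {β} else ∅)).1 (lotA b (e m) ⟨{β}, Set.countable_singleton β⟩
      (if i then {β} else ∅)).2 := rfl

theorem exists_base (cl : K → J) (b : St) (e : ℕ → Λ) (he : Function.Injective e) :
    ∃ a : Approx K Λ St J, Good cl b e (fun l => l.st = b) a := by
  let P : Set (Cond K Λ St) := lotExt {∅} (fun _ => False) b
  have hα : ∀ l : Lab K Λ St, False → l.st ≠ b := fun _ h => h.elim
  have h0 : ∀ p ∈ ({∅} : Set (Cond K Λ St)), ∀ a ∈ p, (fun _ : Lab K Λ St => False) a.1 := by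
    rintro p rfl a ha
    exact absurd ha (Finset.notMem_empty a)
  let F : Bool → J → Set (Nm K Λ St) := fun i k =>
    {E | ∃ β, cl β = k ∧ E = An b e β i} ∪ Set.range cof
  have hover : ∀ i k, ∀ E ∈ F i k, OverN (fun l => l.st = b) E := by
    rintro i k E (⟨β, _, rfl⟩ | ⟨m, rfl⟩)
    · exact fun m => rfl
    · exact overN_cof _ _
  have hinv : ∀ i k, InvF {x | cl x = k} (F i k) := by
    rintro i k h hh E (⟨β, hβ, rfl⟩ | ⟨m, rfl⟩)
    · refine Or.inl ⟨β, hβ, ?_⟩
      have : β ∉ h := fun hc => hh β hc hβ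
      rw [actN_An]
      simp [this]
    · exact Or.inr ⟨m, (actN_cof _ _).symm⟩
  have hfin : ∀ i k (t : Finset (Nm K Λ St)), (t : Set (Nm K Λ St)) ⊆ F i k →
      ∃ s : Finset K, ∃ m0 : ℕ, ∀ E ∈ t,
        (∃ β ∈ s, cl β = k ∧ E = An b e β i) ∨ ∃ m ≤ m0, E = cof m := by
    intro i k t
    induction t using Finset.induction_on with
    | empty => exact fun _ => ⟨∅, 0, by simp⟩
    | insert E t _ ih =>
      intro ht
      rw [Finset.coe_insert, Set.insert_subset_iff] at ht
      obtain ⟨s, m0, H⟩ := ih ht.2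
      rcases ht.1 with ⟨β, hβ, rfl⟩ | ⟨m, rfl⟩
      · refine ⟨insert β s, m0, fun E hE => ?_⟩
        rcases Finset.mem_insert.1 hE with rfl | hE
        · exact Or.inl ⟨β, Finset.mem_insert_self _ _, hβ, rfl⟩
        · exact (H E hE).imp (fun ⟨γ, h1, h2⟩ => ⟨γ, Finset.mem_insert_of_mem h1, h2⟩) id
      · refine ⟨s, max m m0, fun E hE => ?_⟩
        rcases Finset.mem_insert.1 hE with rfl | hE
        · exact Or.inr ⟨m, le_max_left _ _, rfl⟩
        · exact (H E hE).imp id (fun ⟨γ, h1, h2⟩ => ⟨γ, h1.trans (le_max_right _ _), h2⟩)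
  refine ⟨⟨P, F false, F true⟩, ?_, subset_ext h0 rfl, ?_, ?_, ?_, hover false, hover true,
    hinv false, hinv true, ?_, ?_, fun β => Or.inl ⟨β, rfl, rfl⟩, fun β => Or.inl ⟨β, rfl, rfl⟩,
    fun k m => Or.inr ⟨m, rfl⟩, fun k m => Or.inr ⟨m, rfl⟩⟩
  · intro p hp x hx
    exact ((lotExt_over hp x hx).resolve_left id).1
  · apply lotExt_inv _ (fun _ _ => Iff.rfl)
    rintro h p rfl
    rfl
  · apply lotExt_ccc h0
    intro B hB _
    exact (Set.countable_singleton _).mono hB
  · intro p hp β m h1 h2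
    rw [An_eq] at h1 h2
    obtain ⟨q, hq, hpq, h3⟩ := h1 p hp subset_rfl
    obtain ⟨r, hr, hqr, h4⟩ := h2 q hq hpq
    have := lotExt_lot2 hα hr (hqr h3) h4
    simp at this
  · intro k p hp t ht
    obtain ⟨s, m0, H⟩ := hfin false k t ht
    have hm : ∃ m, m0 ≤ m ∧ ∀ x ∈ p, x.1.kind ≠ .lot (e m) := by
      have h1 : {m | ∃ x ∈ p, x.1.kind = .lot (e m)}.Finite := by
        have : {m | ∃ x ∈ p, x.1.kind = .lot (e m)} ⊆
            (fun m => (Kind.lot (e m) : Kind K Λ)) ⁻¹' (p.image (fun x => x.1.kind)) := by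
          rintro m ⟨x, hx, h⟩
          exact Finset.mem_coe.2 (Finset.mem_image.2 ⟨x, hx, h⟩)
        refine Set.Finite.subset (Set.Finite.preimage ?_ (Finset.finite_toSet _)) this
        intro m _ m' _ h
        exact he (Kind.lot.inj h)
      obtain ⟨m, hm1, hm2⟩ := ((Set.Ici_infinite m0).diff h1).nonempty
      exact ⟨m, hm1, fun x hx h => hm2 ⟨x, hx, h⟩⟩
    obtain ⟨m, hm1, hm2⟩ := hm
    let n : Cond K Λ St := s.image (fun β => lotA b (e m) ⟨{β}, Set.countable_singleton β⟩ ∅)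
    have hq : n ∪ p ∈ P := by
      apply lotExt_union hα hp
      · intro a ha
        obtain ⟨β, _, rfl⟩ := Finset.mem_image.1 ha
        exact ⟨_, _, ∅, by simp, rfl⟩
      · intro a ha a' ha' _ _
        obtain ⟨β, _, rfl⟩ := Finset.mem_image.1 ha
        obtain ⟨β', _, rfl⟩ := Finset.mem_image.1 ha'
        rfl
      · intro a ha a' ha' _ h
        obtain ⟨β, _, rfl⟩ := Finset.mem_image.1 ha
        exact absurd h.symm (hm2 a' ha')
    refine ⟨n ∪ p, hq, Finset.subset_union_right, m, fun E hE => ?_⟩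
    rcases H E hE with ⟨β, hβ, _, rfl⟩ | ⟨m', h, rfl⟩
    · show frc P (An b e β false m) (n ∪ p)
      rw [An_eq]
      apply frc_atom_of_mem
      exact Finset.mem_union_left _ (Finset.mem_image.2 ⟨β, hβ, rfl⟩)
    · exact (frc_cof hq).2 (h.trans hm1)
  · intro k p hp t ht
    obtain ⟨s, m0, H⟩ := hfin true k t ht
    refine ⟨p, hp, subset_rfl, s, fun E hE => ?_⟩
    rcases H E hE with ⟨β, hβ, hk, rfl⟩ | ⟨m', h, rfl⟩
    · apply In.of_subA (t := {An b e β false})
      · rw [Finset.coe_singleton, Set.singleton_subset_iff]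
        exact Or.inl ⟨β, hk, rfl⟩
      · intro q _ _ m hm
        have := hm _ (Finset.mem_singleton_self _)
        rw [actN_An] at this
        simpa [hβ] using this
    · apply In.of_subA (t := {cof m'})
      · rw [Finset.coe_singleton, Set.singleton_subset_iff]
        exact Or.inr ⟨m', rfl⟩
      · intro q _ _ m hm
        have := hm _ (Finset.mem_singleton_self _)
        rwa [actN_cof] at this

/-! ### The deciding step -/

theorem exists_dstep {cl : K → J} {b : St} {e : ℕ → Λ} {A : Lab K Λ St → Prop}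
    {a : Approx K Λ St J} (hG : Good cl b e A a) (hA : ∀ h l, A (Lab.act h l) ↔ A l) {α : St}
    (hα : ∀ l, A l → l.st ≠ α) (η0 η1 : Nm K Λ St → Λ) (h0 : Function.Injective η0)
    (h1 : Function.Injective η1) (h01 : ∀ X Y, η1 X ≠ η0 Y) :
    ∃ a' : Approx K Λ St J, Good cl b e (AS A α Set.univ) a' ∧ Ext A a a' ∧
      ∀ k X, OverN A X → ∃ Y ∈ a'.W k, Dec a'.P Y X := by
  let P := lotExt a.P A α
  have hinv : Inv P := lotExt_inv hG.inv hA
  have hccc : CCC P := lotExt_ccc hG.overP hG.ccc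
  have hAS : ∀ (S : Set Λ) h l, AS A α S (Lab.act h l) ↔ AS A α S l := AS_act hA α
  have hE : ∀ U W : J → Set (Nm K Λ St), (∀ k, a.U k ⊆ U k) → (∀ k, a.W k ⊆ W k) →
      Ext A a ⟨P, U, W⟩ := fun U W hU hW =>
    ⟨reg_ext hG.overP (fun _ _ _ _ _ h => h), part_ext hG.overP, hU, hW⟩
  have hE0 := hE a.U a.W (fun _ => subset_rfl) (fun _ => subset_rfl)
  have c1 : ∀ k, DecCtx P A α {x | cl x = k} ∅ (fun p E m => frc P (E m) p) := fun k =>
    { inv := hinv
      ccc := hccc
      hactA := hA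
      reg := lotExt_reg
      lot1 := fun p hp => lotExt_lot1 hα hp
      lot2 := fun p hp η T g g' => lotExt_lot2 hα hp
      mono := fun p q E i _ hpq h => frc_mono h hpq
      act := fun h _ p E i H => (frc_act hinv h).2 H
      hres := fun S _ p hp E i hE H => (frc_res (lotExt_reg S) (hE i) hp).1 H
      repl := fun p hp X Y i H h => h p hp subset_rfl i H
      dec := fun X _ p hp i => exists_decide (X i) hp }
  have d1 := fun k => (c1 k).main η0 h0 (fun _ h => h) (F := a.U k)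
    (fun E hE => (hG.overU k E hE).mono (fun _ h => Or.inl h))
    (hE0.properU_up hG.overP (hG.overU k) (hG.properU k)) (hG.invU k)
  choose U hU1 hU2 hU3 hU4 hU5 using d1
  have c2 : ∀ k, DecCtx P A α {x | cl x = k} (∅ ∪ Set.range η0) (In P (U k)) := fun k =>
    { inv := hinv
      ccc := hccc
      hactA := hA
      reg := lotExt_reg
      lot1 := fun p hp => lotExt_lot1 hα hp
      lot2 := fun p hp η T g g' => lotExt_lot2 hα hp
      mono := fun p q E i _ hpq h => h.mono hpq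
      act := fun h hh p E i H => (H.act hinv h).shift (hU4 k) hh
      hres := fun S hS p hp E i hE H => by
        have hU := fun E hE => (hU2 k E hE).mono (AS.mono hS)
        rw [In.part (hAS S) (lotExt_reg S) hU (lotExt_reg S p hp).1 hE, res_res]
        exact (In.part (hAS S) (lotExt_reg S) hU hp hE).1 H
      repl := fun p hp X Y i H h => H.repl h
      dec := fun X hX p hp s => by
        obtain ⟨Z, hZ, hd⟩ := hU5 k (actN s X) (hX.act (fun l hl => (hA s l).2 hl))
        obtain ⟨q, hq, hpq, h⟩ := hd _ (hinv s p hp)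
        refine ⟨actC s q, hinv s q hq, actC_subset_iff.1 hpq, ?_⟩
        have hZ' : (({Z} : Finset (Nm K Λ St)) : Set (Nm K Λ St)) ⊆ U k := by
          rw [Finset.coe_singleton, Set.singleton_subset_iff]
          exact hZ
        rcases h with h | h
        · have h' := h.act hinv s
          rw [actN_self] at h'
          exact Or.inl (In.of_subA hZ' (fun r hr hqr m hm =>
            h' r hr hqr m (hm _ (Finset.mem_singleton_self _))))
        · have h' := h.act hinv s
          rw [← actN_negN, actN_self] at h'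
          exact Or.inr (In.of_subA hZ' (fun r hr hqr m hm =>
            h' r hr hqr m (hm _ (Finset.mem_singleton_self _)))) }
  have hE1 := hE U a.W hU1 (fun _ => subset_rfl)
  have d2 := fun k => (c2 k).main η1 h1 (by
      rintro X (h | ⟨Y, h⟩)
      · exact h
      · exact h01 X Y h.symm) (F := a.W k)
    (fun E hE => (hG.overW k E hE).mono (fun _ h => Or.inl h))
    (hE1.link_up hA (hG.overU k) hG.overP (hG.overW k) (hG.link k)) (hG.invW k)
  choose W hW1 hW2 hW3 hW4 hW5 using d2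
  have hE2 := hE U W hU1 hW1
  exact ⟨⟨P, U, W⟩, ⟨fun p hp => lotExt_over hp, hE2.subset hG.empty, hinv, hccc,
    hE2.compl_up hG, fun k E hE => (hU2 k E hE).mono (AS.mono (Set.subset_univ _)),
    fun k E hE => (hW2 k E hE).mono (AS.mono (Set.subset_univ _)), hU4, hW4, hU3, hW3,
    fun β => hU1 _ (hG.memU β), fun β => hW1 _ (hG.memW β), fun k m => hU1 _ (hG.cofU k m),
    fun k m => hW1 _ (hG.cofW k m)⟩, hE2, hW5⟩

end Pool.Agent.P.MP_0e7365_lc
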