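import Pool.Agent.P.MP_0e7365_lc.Ccc

/-!
Deciding all old names by an invariant proper family, with the help of generic lotteries.
-/

namespace Pool.Agent.P.MP_0e7365_lc

open scoped symmDiff
open Classical

variable {K Λ St : Type}

theorem countable_finsets {β : Type} {S : Set β} (hS : S.Countable) :
    {g : Finset β | (g : Set β) ⊆ S}.Countable := by
  have h := (Set.countable_ofPred_finite_subset hS).preimage
    (f := fun s : Finset β => (s : Set β)) Finset.coe_injective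
  apply h.mono
  intro g hg
  exact ⟨Finset.finite_toSet _, hg⟩

def negN (X : Nm K Λ St) : Nm K Λ St := fun m => .neg (X m)

theorem actN_negN (h : Finset K) (X : Nm K Λ St) : actN h (negN X) = negN (actN h X) := rfl

/-- `p` forces `Y ⊆ X`. -/
def Sub1 (P : Set (Cond K Λ St)) (p : Cond K Λ St) (Y X : Nm K Λ St) : Prop :=
  ∀ q ∈ P, p ⊆ q → ∀ m, frc P (Y m) q → frc P (X m) q

theorem Sub1.mono {P : Set (Cond K Λ St)} {p q : Cond K Λ St} {Y X : Nm K Λ St}
    (H : Sub1 P p Y X) (hpq : p ⊆ q) : Sub1 P q Y X :=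
  fun r hr hqr => H r hr (hpq.trans hqr)

theorem Sub1.trans {P : Set (Cond K Λ St)} {p : Cond K Λ St} {Z Y X : Nm K Λ St}
    (H : Sub1 P p Z Y) (H' : Sub1 P p Y X) : Sub1 P p Z X :=
  fun r hr hqr m h => H' r hr hqr m (H r hr hqr m h)

theorem Sub1.act {P : Set (Cond K Λ St)} (hP : Inv P) (h : Finset K) {p : Cond K Λ St}
    {Y X : Nm K Λ St} (H : Sub1 P p Y X) : Sub1 P (actC h p) (actN h Y) (actN h X) := by
  intro q hq hpq m hm
  exact (frc_act' hP h).2 (H _ (hP h q hq) (actC_subset_iff.1 hpq) m ((frc_act' hP h).1 hm))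

/-- It is forced that `Y ⊆ X` or `Y` is disjoint from `X`. -/
def Dec (P : Set (Cond K Λ St)) (Y X : Nm K Λ St) : Prop :=
  ∀ p ∈ P, ∃ q ∈ P, p ⊆ q ∧ (Sub1 P q Y X ∨ Sub1 P q Y (negN X))

theorem Dec.act {P : Set (Cond K Λ St)} (hP : Inv P) (h : Finset K)
    {Y X : Nm K Λ St} (H : Dec P Y X) : Dec P (actN h Y) (actN h X) := by
  intro p hp
  obtain ⟨q, hq, hpq, h'⟩ := H _ (hP h p hp)
  refine ⟨actC h q, hP h q hq, actC_subset_iff.1 hpq, ?_⟩
  rcases h' with h' | h'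
  · exact Or.inl (h'.act hP h)
  · exact Or.inr (h'.act hP h)

def Proper (P : Set (Cond K Λ St)) {I : Type} (H : Cond K Λ St → Nm K Λ St → I → Prop)
    (F : Set (Nm K Λ St)) : Prop :=
  ∀ p ∈ P, ∀ s : Finset (Nm K Λ St), (s : Set (Nm K Λ St)) ⊆ F →
    ∃ q ∈ P, p ⊆ q ∧ ∃ i, ∀ E ∈ s, H q E i

/-- The lottery atom. -/
def lotA (α : St) (η : Λ) (T : {T : Set K // T.Countable}) (g : Finset K) : Atom K Λ St :=
  (⟨α, T, g, .lot η⟩, fun _ => .top)

theorem actA_lotA (h : Finset K) (α : St) (η : Λ) (T : {T : Set K // T.Countable}) (g : Finset K) :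
    actA h (lotA α η T g : Atom K Λ St) = lotA α η T (g ∆ cut h T.1) := rfl

/-- Labels in `A`, or lotteries of stage `α` with index in `S`. -/
def AS (A : Lab K Λ St → Prop) (α : St) (S : Set Λ) (l : Lab K Λ St) : Prop :=
  A l ∨ (l.st = α ∧ ∃ η ∈ S, l.kind = .lot η)

theorem AS.mono {A : Lab K Λ St → Prop} {α : St} {S S' : Set Λ} (H : S ⊆ S') (l : Lab K Λ St)
    (h : AS A α S l) : AS A α S' l := by
  rcases h with h | ⟨h, η, hη, h'⟩
  · exact Or.inl h
  · exact Or.inr ⟨h, η, H hη, h'⟩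

theorem AS_act {A : Lab K Λ St → Prop} (hA : ∀ h l, A (Lab.act h l) ↔ A l) (α : St) (S : Set Λ)
    (h : Finset K) (l : Lab K Λ St) : AS A α S (l.act h) ↔ AS A α S l := by
  unfold AS
  rw [hA]
  rfl

/-- The hypotheses of the decision lemma. -/
structure DecCtx (P : Set (Cond K Λ St)) (A : Lab K Λ St → Prop) (α : St) (Kk : Set K)
    (S0 : Set Λ) {I : Type} (H : Cond K Λ St → Nm K Λ St → I → Prop) : Prop where
  inv : Inv P
  ccc : CCC P
  hactA : ∀ h l, A (Lab.act h l) ↔ A l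
  reg : ∀ S, Reg P (AS A α S)
  lot1 : ∀ p ∈ P, ∀ η T, ∃ q ∈ P, p ⊆ q ∧ ∃ g : Finset K, (∀ x ∈ g, x ∈ T.1) ∧ lotA α η T g ∈ q
  lot2 : ∀ p ∈ P, ∀ η T g g', lotA α η T g ∈ p → lotA α η T g' ∈ p → g = g'
  mono : ∀ p q E i, q ∈ P → p ⊆ q → H p E i → H q E i
  act : ∀ h : Finset K, (∀ x ∈ h, x ∉ Kk) → ∀ p E i, H p E i → H (actC h p) (actN h E) i
  hres : ∀ S, S0 ⊆ S → ∀ p ∈ P, ∀ E i, OverN (AS A α S) E → H p E i → H (res (AS A α S) p) E i
  repl : ∀ p ∈ P, ∀ X Y i, H p X i → Sub1 P p X Y → H p Y i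
  dec : ∀ X, OverN A X → ∀ p ∈ P, ∀ i, ∃ q ∈ P, p ⊆ q ∧ (H q X i ∨ H q (negN X) i)

section
variable {P : Set (Cond K Λ St)} {A : Lab K Λ St → Prop} {α : St} {Kk : Set K}
  {S0 : Set Λ} {I : Type} {H : Cond K Λ St → Nm K Λ St → I → Prop}

theorem DecCtx.one_step (c : DecCtx P A α Kk S0 H) {S : Set Λ} (hS : S0 ⊆ S)
    {F : Set (Nm K Λ St)} (hF : ∀ E ∈ F, OverN (AS A α S) E) (hp : Proper P H F)
    {X : Nm K Λ St} (hX : OverN A X) :
    ∃ Y, OverN (AS A α S) Y ∧ Proper P H (insert Y F) ∧ Dec P Y X := by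
  have hX' : OverN (AS A α S) X := hX.mono (fun _ h => Or.inl h)
  let D : Set (Cond K Λ St) := {p | p ∈ part P (AS A α S) ∧ ∃ s : Finset (Nm K Λ St),
    (s : Set (Nm K Λ St)) ⊆ F ∧ ∀ q ∈ P, p ⊆ q → ∀ i, ¬ (H q X i ∧ ∀ E ∈ s, H q E i)}
  obtain ⟨B, hB, hBc, hpre⟩ := c.ccc.exists_predense D (fun p hp => hp.1.1)
  let d := orTm B hBc
  have hd : Over (AS A α S) d := over_orTm hBc (fun p hp => (hB hp).1.2)
  let Y : Nm K Λ St := fun m =>
    .conj (fun n => if n = 0 then imp d (.neg (X m)) else imp (.neg d) (X m))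
  have hY : ∀ m q, frc P (Y m) q ↔ frc P (imp d (.neg (X m))) q ∧ frc P (imp (.neg d) (X m)) q := by
    intro m q
    constructor
    · intro h
      exact ⟨h 0, h 1⟩
    · intro h n
      dsimp only
      split_ifs
      · exact h.1
      · exact h.2
  have hY1 : ∀ q ∈ P, frc P d q → Sub1 P q (negN X) Y ∧ Sub1 P q Y (negN X) := by
    intro q hq hdq
    constructor
    · intro r hr hqr m hm
      rw [hY, frc_imp, frc_imp]
      exact ⟨fun s hs hrs _ => frc_mono hm hrs,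
        fun s hs hrs h => (not_frc_both hs (frc_mono hdq (hqr.trans hrs)) h).elim⟩
    · intro r hr hqr m hm
      exact frc_imp.1 ((hY _ _).1 hm).1 r hr subset_rfl (frc_mono hdq hqr)
  have hY2 : ∀ q ∈ P, frc P (.neg d) q → Sub1 P q X Y ∧ Sub1 P q Y X := by
    intro q hq hdq
    constructor
    · intro r hr hqr m hm
      rw [hY, frc_imp, frc_imp]
      exact ⟨fun s hs hrs h => (not_frc_both hs h (frc_mono hdq (hqr.trans hrs))).elim,
        fun s hs hrs _ => frc_mono hm hrs⟩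
    · intro r hr hqr m hm
      exact frc_imp.1 ((hY _ _).1 hm).2 r hr subset_rfl (frc_mono hdq hqr)
  refine ⟨Y, ?_, ?_, ?_⟩
  · intro m n
    dsimp only
    split_ifs
    · exact over_imp hd (hX' m)
    · exact over_imp hd (hX' m)
  · intro p hpP s hs
    have hs' : ((s.erase Y : Finset _) : Set (Nm K Λ St)) ⊆ F := by
      intro E hE
      have hE' := Finset.mem_erase.1 (Finset.mem_coe.1 hE)
      exact (hs (Finset.mem_coe.2 hE'.2)).resolve_left hE'.1
    suffices ∃ q ∈ P, p ⊆ q ∧ ∃ i, H q Y i ∧ ∀ E ∈ s.erase Y, H q E i by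
      obtain ⟨q, hq, hpq, i, h1, h2⟩ := this
      refine ⟨q, hq, hpq, i, fun E hE => ?_⟩
      by_cases h : E = Y
      · rw [h]; exact h1
      · exact h2 E (Finset.mem_erase.2 ⟨h, hE⟩)
    by_cases hc : ∃ a ∈ B, Compat P p a
    · obtain ⟨a, ha, r, hr, hpr, har⟩ := hc
      obtain ⟨_, t, ht, hta⟩ := hB ha
      obtain ⟨q, hq, hrq, i, hi⟩ := hp r hr (s.erase Y ∪ t) (by
        rw [Finset.coe_union]; exact Set.union_subset hs' ht)
      obtain ⟨q', hq', hqq, h⟩ := c.dec X hX q hq i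
      have hi' : ∀ E ∈ s.erase Y ∪ t, H q' E i := fun E hE => c.mono _ _ _ _ hq' hqq (hi E hE)
      have haq : a ⊆ q' := har.trans (hrq.trans hqq)
      rcases h with h | h
      · exact absurd ⟨h, fun E hE => hi' E (Finset.mem_union_right _ hE)⟩ (hta q' hq' haq i)
      · refine ⟨q', hq', hpr.trans (hrq.trans hqq), i, ?_,
          fun E hE => hi' E (Finset.mem_union_left _ hE)⟩
        exact c.repl _ hq' _ _ _ h (hY1 q' hq' (frc_orTm_of_mem hBc ha haq)).1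
    · have hnd : frc P (.neg d) p := frc_neg_orTm hBc (fun a ha h => hc ⟨a, ha, h⟩)
      have hD : res (AS A α S) p ∉ D := by
        intro hD
        obtain ⟨a, ha, r, hr, hpr, har⟩ := hpre _ hD
        refine hc ⟨a, ha, _, (c.reg S p hpP).2 r hr hpr, Finset.subset_union_right, ?_⟩
        intro x hx
        exact Finset.mem_union_left _ (mem_res.2 ⟨har hx, (hB ha).1.2 x hx⟩)
      have : ∃ q ∈ P, res (AS A α S) p ⊆ q ∧ ∃ i, H q X i ∧ ∀ E ∈ s.erase Y, H q E i := by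
        by_contra hcon
        apply hD
        refine ⟨(c.reg S).res_mem hpP, s.erase Y, hs', fun q hq hpq i hi => hcon ?_⟩
        exact ⟨q, hq, hpq, i, hi⟩
      obtain ⟨q, hq, hpq, i, h1, h2⟩ := this
      have hq' := (c.reg S p hpP).2 q hq hpq
      refine ⟨_, hq', Finset.subset_union_right, i, ?_, fun E hE => ?_⟩
      · apply c.repl _ hq' X Y i
        · exact c.mono _ _ _ _ hq' Finset.subset_union_left (c.hres S hS q hq X i hX' h1)
        · exact (hY2 _ hq' (frc_mono hnd Finset.subset_union_right)).1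
      · exact c.mono _ _ _ _ hq' Finset.subset_union_left
          (c.hres S hS q hq E i (hF E (hs' hE)) (h2 E hE))
  · intro p hpP
    obtain ⟨q, hq, hpq, h | h⟩ := exists_decide d hpP
    · exact ⟨q, hq, hpq, Or.inr (hY1 q hq h).2⟩
    · exact ⟨q, hq, hpq, Or.inl (hY2 q hq h).2⟩

theorem finset_subset_chain {β γ : Type} {c : Set γ} (f : γ → Set β) (hne : c.Nonempty)
    (hc : ∀ x ∈ c, ∀ y ∈ c, f x ⊆ f y ∨ f y ⊆ f x) (s : Finset β)
    (hs : (s : Set β) ⊆ ⋃ x ∈ c, f x) : ∃ x ∈ c, (s : Set β) ⊆ f x := by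
  induction s using Finset.induction_on with
  | empty =>
    obtain ⟨x, hx⟩ := hne
    exact ⟨x, hx, by simp⟩
  | insert a s _ ih =>
    rw [Finset.coe_insert, Set.insert_subset_iff] at hs
    obtain ⟨x, hx, h1⟩ := ih hs.2
    obtain ⟨y, hy, h2⟩ := Set.mem_iUnion₂.1 hs.1
    rcases hc x hx y hy with h | h
    · exact ⟨y, hy, by rw [Finset.coe_insert]; exact Set.insert_subset h2 (h1.trans h)⟩
    · exact ⟨x, hx, by rw [Finset.coe_insert]; exact Set.insert_subset (h h2) h1⟩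

theorem DecCtx.maximal (c : DecCtx P A α Kk S0 H) {S : Set Λ} (hS : S0 ⊆ S)
    {F : Set (Nm K Λ St)} (hF : ∀ E ∈ F, OverN (AS A α S) E) (hp : Proper P H F) :
    ∃ G, F ⊆ G ∧ (∀ E ∈ G, OverN (AS A α S) E) ∧ Proper P H G ∧
      ∀ X, OverN A X → ∃ Y ∈ G, Dec P Y X := by
  obtain ⟨G, hFG, hG⟩ := zorn_subset_nonempty
    {G : Set (Nm K Λ St) | (∀ E ∈ G, OverN (AS A α S) E) ∧ Proper P H G} (by
      intro ch hch hchain hne
      refine ⟨⋃₀ ch, ⟨?_, ?_⟩, fun s hs => Set.subset_sUnion_of_mem hs⟩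
      · rintro E ⟨G, hG, hE⟩
        exact (hch hG).1 E hE
      · intro p hp s hs
        obtain ⟨G, hG, h⟩ := finset_subset_chain (c := ch) id hne
          (fun x hx y hy => hchain.total hx hy) s (by rwa [Set.sUnion_eq_biUnion] at hs)
        exact (hch hG).2 p hp s h) F ⟨hF, hp⟩
  refine ⟨G, hFG, hG.prop.1, hG.prop.2, fun X hX => ?_⟩
  obtain ⟨Y, h1, h2, h3⟩ := c.one_step hS hG.prop.1 hG.prop.2 hX
  refine ⟨Y, ?_, h3⟩
  apply hG.le_of_ge (y := insert Y G) _ (Set.subset_insert _ _) (Set.mem_insert _ _)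
  refine ⟨?_, h2⟩
  rintro E (rfl | hE)
  · exact h1
  · exact hG.prop.1 E hE

def InvF (Kk : Set K) (F : Set (Nm K Λ St)) : Prop :=
  ∀ h : Finset K, (∀ x ∈ h, x ∉ Kk) → ∀ E ∈ F, actN h E ∈ F

theorem DecCtx.inv_step (c : DecCtx P A α Kk S0 H) {S : Set Λ} (hS : S0 ⊆ S)
    {F : Set (Nm K Λ St)} (hF : ∀ E ∈ F, OverN (AS A α S) E) (hp : Proper P H F)
    (hi : InvF Kk F) {X : Nm K Λ St} (hX : OverN A X) {η : Λ} (hη : η ∉ S) :
    ∃ F', F ⊆ F' ∧ (∀ E ∈ F', OverN (AS A α (insert η S)) E) ∧ Proper P H F' ∧ InvF Kk F' ∧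
      ∃ Z ∈ F', Dec P Z X := by
  obtain ⟨G, hFG, hG, hGp, hGd⟩ := c.maximal hS hF hp
  obtain ⟨S1, hS1, hS1'⟩ := exists_suppN X
  have h1 : ∀ g : Finset K, ∃ Y ∈ G, Dec P Y (actN g X) := fun g =>
    hGd _ (hX.act (fun l h => (c.hactA g l).2 h))
  choose Y0 hY0 hY0' using h1
  choose sp hsp hsp' using fun g => exists_suppN (Y0 g)
  let Y : Finset K → Nm K Λ St := fun g => Y0 (cut g S1)
  have hYG : ∀ g, Y g ∈ G := fun g => hY0 _
  have hYd : ∀ g, Dec P (Y g) (actN g X) := by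
    intro g
    have : actN g X = actN (cut g S1) X := by
      have e : g = cut g S1 ∆ (g ∆ cut g S1) := by
        ext x
        simp only [Finset.mem_symmDiff, mem_cut]
        tauto
      conv_lhs => rw [e, ← actN_actN]
      rw [hS1']
      intro x hx
      simp only [Finset.mem_symmDiff, mem_cut] at hx
      tauto
    rw [this]
    exact hY0' _
  have hcount : {g : Finset K | (g : Set K) ⊆ S1}.Countable := countable_finsets hS1
  let T : {T : Set K // T.Countable} :=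
    ⟨(⋃ g ∈ {g : Finset K | (g : Set K) ⊆ S1}, sp g) \ Kk,
      (hcount.biUnion (fun g _ => hsp g)).mono Set.sdiff_subset⟩
  have hTK : ∀ x ∈ T.1, x ∉ Kk := fun x hx => hx.2
  have hfix : ∀ g h : Finset K, (∀ x ∈ h, x ∉ Kk ∧ x ∉ T.1) → actN h (Y g) = Y g := by
    intro g h hh
    apply hsp'
    intro x hx hx'
    apply (hh x hx).2
    refine ⟨Set.mem_iUnion₂.2 ⟨cut g S1, fun y hy => (mem_cut.1 hy).2, hx'⟩, (hh x hx).1⟩
  have hcT : Countable {g : Finset K // ∀ x ∈ g, x ∈ T.1} := by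
    exact (countable_finsets T.2).to_subtype
  let lt : Finset K → Tm K Λ St := fun g => .atom (lotA α η T g).1 (lotA α η T g).2
  let Z : Nm K Λ St := fun m =>
    cconj (fun g : {g : Finset K // ∀ x ∈ g, x ∈ T.1} => imp (lt g.1) (actN g.1 (Y g.1) m))
  have hZ : ∀ (h : Finset K) m q, frc P (actN h Z m) q ↔ ∀ g : Finset K, (∀ x ∈ g, x ∈ T.1) →
      frc P (imp (lt (g ∆ cut h T.1)) (actN (h ∆ g) (Y g) m)) q := by
    intro h m q
    simp only [actN, Z, act_cconj, frc_cconj, act_imp, Tm.act_act, Subtype.forall]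
    rfl
  have hlt : ∀ q ∈ P, ∀ g g', lotA α η T g' ∈ q → frc P (lt g) q → g = g' := by
    intro q hq g g' h1 h2
    obtain ⟨r, hr, hqr, h3⟩ := h2 q hq subset_rfl
    exact c.lot2 r hr η T g g' h3 (hqr h1)
  have hkey : ∀ h : Finset K, (∀ x ∈ h, x ∉ Kk) → ∀ g' : Finset K, (∀ x ∈ g', x ∈ T.1) →
      ∀ p ∈ P, lotA α η T g' ∈ p → Sub1 P p (actN g' (Y (g' ∆ cut h T.1))) (actN h Z) := by
    intro h hh g' hg' p hp hl q hq hpq m hm
    rw [hZ]
    intro g hg
    rw [frc_imp]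
    intro r hr hqr hlr
    have e := hlt r hr _ _ (hqr (hpq hl)) hlr
    have e1 : g = g' ∆ cut h T.1 := by rw [← e, symmDiff_symmDiff_cancel_right]
    have e2 : actN (h ∆ g) (Y g) = actN g' (Y g) := by
      have : h ∆ g = g' ∆ (h ∆ cut h T.1) := by
        rw [e1]
        ext x
        simp only [Finset.mem_symmDiff, mem_cut]
        tauto
      rw [this, ← actN_actN, hfix]
      intro x hx
      simp only [Finset.mem_symmDiff, mem_cut] at hx
      have := hh x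
      tauto
    rw [e2, e1]
    exact frc_mono hm hqr
  have hAS : ∀ (S : Set Λ) h l, AS A α S (Lab.act h l) ↔ AS A α S l := AS_act c.hactA α
  refine ⟨F ∪ {E | ∃ h : Finset K, (∀ x ∈ h, x ∉ Kk) ∧ E = actN h Z}, Set.subset_union_left,
    ?_, ?_, ?_, Z, Or.inr ⟨∅, by simp, (actN_empty Z).symm⟩, ?_⟩
  · rintro E (hE | ⟨h, _, rfl⟩)
    · exact (hF E hE).mono (AS.mono (Set.subset_insert _ _))
    · apply OverN.act (fun l hl => (hAS _ h l).2 hl)
      intro m
      apply over_cconj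
      rintro ⟨g, hg⟩
      apply over_imp
      · exact Or.inr ⟨rfl, η, Set.mem_insert _ _, rfl⟩
      · exact (((hG _ (hYG g)).mono (AS.mono (Set.subset_insert _ _))).act
          (fun l hl => (hAS _ g l).2 hl)) m
  · intro p hpP s hs
    obtain ⟨p1, hp1, hpp1, g', hg', hl⟩ := c.lot1 p hpP η T
    have hg'K : ∀ x ∈ g', x ∉ Kk := fun x hx => hTK x (hg' x hx)
    have h2 : ∀ E ∈ s, ∃ E' ∈ G, Sub1 P p1 (actN g' E') E := by
      intro E hE
      rcases hs hE with hE | ⟨h, hh, rfl⟩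
      · refine ⟨actN g' E, hFG (hi g' hg'K E hE), ?_⟩
        rw [actN_self]
        exact fun _ _ _ _ h => h
      · exact ⟨_, hYG _, hkey h hh g' hg' p1 hp1 hl⟩
    choose! φ hφ hφ' using h2
    have hp2 : actC g' (res (AS A α S) p1) ∈ P := c.inv g' _ (c.reg S p1 hp1).1
    obtain ⟨q, hq, hpq, i, hqi⟩ := hGp _ hp2 (s.image φ) (by
      intro E hE
      obtain ⟨E', hE', rfl⟩ := Finset.mem_image.1 hE
      exact hφ E' hE')
    have hq1 : actC g' q ∈ P := c.inv g' q hq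
    have hq2 := (c.reg S p1 hp1).2 _ hq1 (actC_subset_iff.1 hpq)
    refine ⟨_, hq2, hpp1.trans Finset.subset_union_right, i, fun E hE => ?_⟩
    apply c.repl _ hq2 (actN g' (φ E)) E i _ ((hφ' E hE).mono Finset.subset_union_right)
    apply c.mono _ _ _ _ hq2 Finset.subset_union_left
    apply c.hres S hS _ hq1 _ _ ((hG _ (hφ E hE)).act (fun l hl => (hAS _ g' l).2 hl))
    exact c.act g' hg'K _ _ _ (hqi _ (Finset.mem_image_of_mem φ hE))
  · rintro h hh E (hE | ⟨h', hh', rfl⟩)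
    · exact Or.inl (hi h hh E hE)
    · refine Or.inr ⟨h ∆ h', fun x hx => ?_, actN_actN _ _ _⟩
      rcases Finset.mem_symmDiff.1 hx with h1 | h1
      · exact hh x h1.1
      · exact hh' x h1.1
  · intro p hpP
    obtain ⟨p1, hp1, hpp1, g', hg', hl⟩ := c.lot1 p hpP η T
    have h3 : Sub1 P p1 Z (actN g' (Y g')) := by
      intro q hq hpq m hm
      have := frc_cconj.1 hm ⟨g', hg'⟩
      exact frc_imp.1 this q hq subset_rfl (frc_atom_of_mem (hpq hl))
    have h4 := (hYd g').act c.inv g'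
    rw [actN_self] at h4
    obtain ⟨q, hq, hpq, h5⟩ := h4 p1 hp1
    refine ⟨q, hq, hpp1.trans hpq, ?_⟩
    rcases h5 with h5 | h5
    · exact Or.inl ((h3.mono hpq).trans h5)
    · exact Or.inr ((h3.mono hpq).trans h5)

theorem DecCtx.main (c : DecCtx P A α Kk S0 H) (η : Nm K Λ St → Λ) (hη : Function.Injective η)
    (hη0 : ∀ X, η X ∉ S0) {F : Set (Nm K Λ St)} (hF : ∀ E ∈ F, OverN (AS A α S0) E)
    (hp : Proper P H F) (hi : InvF Kk F) :
    ∃ F', F ⊆ F' ∧ (∀ E ∈ F', OverN (AS A α (S0 ∪ Set.range η)) E) ∧ Proper P H F' ∧ InvF Kk F' ∧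
      ∀ X, OverN A X → ∃ Z ∈ F', Dec P Z X := by
  let good : Set (Set (Nm K Λ St) × Set (Nm K Λ St)) := {x | (∀ E ∈ x.2, OverN (AS A α (S0 ∪ η '' x.1)) E) ∧
    Proper P H x.2 ∧ InvF Kk x.2 ∧ ∀ X ∈ x.1, OverN A X → ∃ Z ∈ x.2, Dec P Z X}
  have h0 : ((∅ : Set (Nm K Λ St)), F) ∈ good :=
    ⟨fun E hE => (hF E hE).mono (AS.mono Set.subset_union_left), hp, hi, by simp⟩
  obtain ⟨x, hx0, hx⟩ := zorn_le_nonempty₀ good (by
    intro ch hch hchain y hy
    refine ⟨(⋃ x ∈ ch, x.1, ⋃ x ∈ ch, x.2), ⟨?_, ?_, ?_, ?_⟩, fun z hz => ⟨?_, ?_⟩⟩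
    · intro E hE
      obtain ⟨x, hx, hE⟩ := Set.mem_iUnion₂.1 hE
      apply ((hch hx).1 E hE).mono (AS.mono (Set.union_subset_union_right _ _))
      exact Set.image_mono (Set.subset_biUnion_of_mem (u := fun x : Set (Nm K Λ St) × Set (Nm K Λ St) => x.1) hx)
    · intro p hp s hs
      obtain ⟨x, hx, h⟩ := finset_subset_chain (c := ch) Prod.snd ⟨y, hy⟩
        (fun x hx y hy => (hchain.total hx hy).imp (fun h => h.2) (fun h => h.2)) s hs
      exact (hch hx).2.1 p hp s h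
    · intro h hh E hE
      obtain ⟨x, hx, hE⟩ := Set.mem_iUnion₂.1 hE
      exact Set.mem_iUnion₂.2 ⟨x, hx, (hch hx).2.2.1 h hh E hE⟩
    · intro X hX hX'
      obtain ⟨x, hx, hX⟩ := Set.mem_iUnion₂.1 hX
      obtain ⟨Z, hZ, h⟩ := (hch hx).2.2.2 X hX hX'
      exact ⟨Z, Set.mem_iUnion₂.2 ⟨x, hx, hZ⟩, h⟩
    · exact Set.subset_biUnion_of_mem (u := fun x : Set (Nm K Λ St) × Set (Nm K Λ St) => x.1) hz
    · exact Set.subset_biUnion_of_mem (u := fun x : Set (Nm K Λ St) × Set (Nm K Λ St) => x.2) hz)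
    _ h0
  obtain ⟨h1, h2, h3, h4⟩ := hx.prop
  refine ⟨x.2, hx0.2, fun E hE => (h1 E hE).mono
    (AS.mono (Set.union_subset_union_right _ (Set.image_subset_range _ _))), h2, h3, fun X hX => ?_⟩
  by_cases hmem : X ∈ x.1
  · exact h4 X hmem hX
  have hfresh : η X ∉ S0 ∪ η '' x.1 := by
    rintro (h | ⟨Y, hY, h⟩)
    · exact hη0 X h
    · exact hmem (hη h ▸ hY)
  obtain ⟨F', g1, g2, g3, g4, Z, g5, g6⟩ :=
    c.inv_step Set.subset_union_left h1 h2 h3 hX hfresh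
  have : (insert X x.1, F') ∈ good := by
    refine ⟨fun E hE => (g2 E hE).mono (AS.mono ?_), g3, g4, ?_⟩
    · rw [Set.image_insert_eq, Set.union_insert]
    · rintro Y (rfl | hY) hY'
      · exact ⟨Z, g5, g6⟩
      · obtain ⟨W, hW, h⟩ := h4 Y hY hY'
        exact ⟨W, g1 hW, h⟩
  have hle := hx.le_of_ge this ⟨Set.subset_insert _ _, g1⟩
  exact absurd (hle.1 (Set.mem_insert _ _)) hmem

end

end Pool.Agent.P.MP_0e7365_lc
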