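import Mathlib

/-!
Transitive models of ZFC and the high Tukey spectrum computed inside such a model.
-/

namespace Pool.Agent.P.MP_0e7365_lc

open FirstOrder

/-- `(M, ∈)` as a structure for the language with one binary relation symbol -/
abbrev memStr (M : Set ZFSet.{0}) : Language.graph.Structure M where
  RelMap | .adj => fun v => (v 0).1 ∈ (v 1).1

/-- `(M, ∈)` satisfies the formula `φ` at `v` -/
def Sat (M : Set ZFSet.{0}) {n : ℕ} (φ : Language.graph.BoundedFormula Empty n)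
    (v : Fin n → M) : Prop :=
  @Language.BoundedFormula.Realize Language.graph M (memStr M) Empty n φ Empty.elim v

/-- `M` is a transitive model of ZFC (extensionality and foundation hold in every transitive
set) -/
structure TransModelZFC (M : Set ZFSet.{0}) : Prop where
  trans : ∀ x ∈ M, ∀ y ∈ x, y ∈ M
  pair : ∀ x ∈ M, ∀ y ∈ M, ({x, y} : ZFSet) ∈ M
  union : ∀ x ∈ M, ZFSet.sUnion x ∈ M
  infinity : ZFSet.omega ∈ M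
  power : ∀ x ∈ M, ∃ y ∈ M, ∀ z ∈ M, z ⊆ x → z ∈ y
  separation : ∀ (n : ℕ) (φ : Language.graph.BoundedFormula Empty (n + 1)) (v : Fin n → M)
    (a : M), ∃ b : M, ∀ x : M, x.1 ∈ b.1 ↔ x.1 ∈ a.1 ∧ Sat M φ (Fin.snoc v x)
  replacement : ∀ (n : ℕ) (φ : Language.graph.BoundedFormula Empty (n + 2)) (v : Fin n → M)
    (a : M), (∀ x : M, x.1 ∈ a.1 → ∃! y : M, Sat M φ (Fin.snoc (Fin.snoc v x) y)) →
      ∃ b : M, ∀ x : M, x.1 ∈ a.1 → ∃ y : M, y.1 ∈ b.1 ∧ Sat M φ (Fin.snoc (Fin.snoc v x) y)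
  choice : ∀ a ∈ M, (∀ x ∈ a, x ≠ ∅) → (∀ x ∈ a, ∀ y ∈ a, x ≠ y → x ∩ y = ∅) →
    ∃ c ∈ M, ∀ x ∈ a, ∃! z, z ∈ x ∧ z ∈ c

/-- `M` contains a bijection from `a` onto `b` -/
def EquinumIn (M : Set ZFSet.{0}) (a b : ZFSet.{0}) : Prop :=
  ∃ f ∈ M, ZFSet.IsFunc a b f ∧ ∀ y ∈ b, ∃! x, ZFSet.pair x y ∈ f

/-- `κ` is a cardinal of `M` -/
def CardIn (M : Set ZFSet.{0}) (κ : ZFSet.{0}) : Prop :=
  κ ∈ M ∧ κ.IsOrdinal ∧ ∀ α ∈ κ, ¬ EquinumIn M α κ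

/-- `D` is the set of finite subsets of `κ`, as computed in `M` -/
def FinSubsetsIn (M : Set ZFSet.{0}) (κ D : ZFSet.{0}) : Prop :=
  ∀ s, s ∈ D ↔ s ∈ M ∧ s ⊆ κ ∧ ∃ n ∈ ZFSet.omega, EquinumIn M n s

/-- `U` is a nonprincipal ultrafilter on `ω` in the sense of `M` -/
def UltraIn (M : Set ZFSet.{0}) (U : ZFSet.{0}) : Prop :=
  (∀ X ∈ U, X ⊆ ZFSet.omega) ∧ ZFSet.omega ∈ U ∧ ∅ ∉ U ∧ (∀ X ∈ U, ∀ Y ∈ U, X ∩ Y ∈ U) ∧
    (∀ X ∈ U, ∀ Y ∈ M, X ⊆ Y → Y ⊆ ZFSet.omega → Y ∈ U) ∧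
    (∀ X ∈ M, X ⊆ ZFSet.omega → X ∈ U ∨ ZFSet.omega \ X ∈ U) ∧
    ∀ n ∈ ZFSet.omega, ({n} : ZFSet) ∉ U

/-- `M` contains a map from `(D, r)` to `(E, s)` sending the unbounded subsets of `D` lying in `M`
to unbounded subsets of `E` -/
def TukeyLeIn (M : Set ZFSet.{0}) (D : ZFSet.{0}) (r : ZFSet.{0} → ZFSet.{0} → Prop)
    (E : ZFSet.{0}) (s : ZFSet.{0} → ZFSet.{0} → Prop) : Prop :=
  ∃ f ∈ M, ZFSet.IsFunc D E f ∧ ∀ A ∈ M, A ⊆ D → (¬ ∃ b ∈ D, ∀ x ∈ A, r x b) →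
    ¬ ∃ c ∈ E, ∀ x ∈ A, ∀ y, ZFSet.pair x y ∈ f → s y c

/-- `κ` belongs to the high spectrum of Tukey types of ultrafilters on `ω` in the sense of `M` -/
def InSpec (M : Set ZFSet.{0}) (κ : ZFSet.{0}) : Prop :=
  CardIn M κ ∧ ZFSet.omega ∈ κ ∧ ∃ U ∈ M, ∃ D ∈ M, UltraIn M U ∧ FinSubsetsIn M κ D ∧
    TukeyLeIn M U (fun X Y => Y ⊆ X) D (fun s t => s ⊆ t) ∧
    TukeyLeIn M D (fun s t => s ⊆ t) U (fun X Y => Y ⊆ X)

end Pool.Agent.P.MP_0e7365_lc
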