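import Pool.Agent.P.MP_0e7365_lc.DStep

/-!
The generating step.
-/

namespace Pool.Agent.P.MP_0e7365_lc

open scoped symmDiff
open Classical

variable {K Λ St J : Type}

/-- The atom of kind `κ` at the coordinate `(T, g)`. -/
def gA (α : St) (T : {T : Set K // T.Countable}) (g : Finset K) (κ : Kind K Λ) : Atom K Λ St :=
  (⟨α, T, g, κ⟩, topN)

/-- The generic set at the coordinate `(T, g)`. -/
def Gn (α : St) (T : {T : Set K // T.Countable}) (g : Finset K) : Nm K Λ St := fun m =>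
  .atom (gA α T g (.bit m)).1 (gA α T g (.bit m)).2

/-- The generic set, conditional on the commitment `r`. -/
def Gs (α : St) (T : {T : Set K // T.Countable}) (g r : Finset K) : Nm K Λ St := fun m =>
  imp (.atom (gA α T g (.com r)).1 (gA α T g (.com r)).2) (Gn α T g m)

theorem actA_gA (h : Finset K) (α : St) (T : {T : Set K // T.Countable}) (g : Finset K)
    (κ : Kind K Λ) : actA h (gA α T g κ) = gA α T (g ∆ cut h T.1) κ := rfl

theorem actN_Gn (h : Finset K) (α : St) (T : {T : Set K // T.Countable}) (g : Finset K) :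
    actN h (Gn α T g : Nm K Λ St) = Gn α T (g ∆ cut h T.1) := rfl

theorem actN_Gs (h : Finset K) (α : St) (T : {T : Set K // T.Countable}) (g r : Finset K) :
    actN h (Gs α T g r : Nm K Λ St) = Gs α T (g ∆ cut h T.1) r := by
  funext m
  simp only [actN, Gs, act_imp]
  rfl

theorem cut_eq_empty {h : Finset K} {T S : Set K} (hT : T ⊆ S) (hh : ∀ x ∈ h, x ∉ S) :
    cut h T = ∅ := by
  ext x
  simp only [mem_cut, Finset.notMem_empty, iff_false]
  exact fun hx => hh x hx.1 (hT hx.2)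

/-- The new atoms. -/
def NG (cl : K → J) (a : Approx K Λ St J) (α : St) (x : Atom K Λ St) : Prop :=
  x.1.st = α ∧ (∀ y ∈ x.1.g, y ∈ x.1.T.1) ∧
    (((∃ m, x.1.kind = .bit m) ∧ x.2 = topN) ∨
     ((∃ r, x.1.kind = .com r ∧ ∀ y ∈ r, y ∈ x.1.T.1) ∧ x.2 = topN) ∨
     ∃ β m, x.1.kind = .prom β m ∧ β ∈ x.1.T.1 ∧ x.1.T.1 ⊆ {y | cl y = cl β} ∧
       actN x.1.g x.2 ∈ a.W (cl β) ∧ Elig a.P (a.U (cl β)) {y | cl y = cl β} x.1.T.1 x.2)

/-- The constraints. -/
def CG (cl : K → J) (b : St) (e : ℕ → Λ) (a : Approx K Λ St J) (p : Cond K Λ St)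
    (x y : Atom K Λ St) : Prop :=
  x.1.T = y.1.T → x.1.g = y.1.g → ∀ β m1, y.1.kind = .prom β m1 →
    (∀ m, x.1.kind = .bit m → m1 ≤ m →
      frc a.P (An b e β (decide (β ∈ y.1.g)) m) p ∨ frc a.P (y.2 m) p) ∧
    (∀ r, x.1.kind = .com r → β ∈ r → In a.P (a.U (cl β)) p y.2 (r ∆ y.1.g))

theorem CG.mono {cl : K → J} {b : St} {e : ℕ → Λ} {a : Approx K Λ St J} (p q : Cond K Λ St)
    (x y : Atom K Λ St) (hpq : p ⊆ q) (H : CG cl b e a p x y) : CG cl b e a q x y :=
  fun h1 h2 β m1 h3 => ⟨fun m h4 h5 => ((H h1 h2 β m1 h3).1 m h4 h5).imp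
    (fun h => frc_mono h hpq) (fun h => frc_mono h hpq),
    fun r h4 h5 => ((H h1 h2 β m1 h3).2 r h4 h5).mono hpq⟩

theorem NG.act {cl : K → J} {b : St} {e : ℕ → Λ} {A : Lab K Λ St → Prop} {a : Approx K Λ St J}
    (hG : Good cl b e A a) {α : St} (h : Finset K) (x : Atom K Λ St) (H : NG cl a α x) :
    NG cl a α (actA h x) := by
  obtain ⟨h1, h2, h3⟩ := H
  refine ⟨h1, fun y hy => ?_, ?_⟩
  · rcases Finset.mem_symmDiff.1 hy with h4 | h4
    · exact h2 y h4.1
    · exact (mem_cut.1 h4.1).2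
  · rcases h3 with ⟨h3, h4⟩ | ⟨h3, h4⟩ | ⟨β, m, h3, h4, h5, h6, h7⟩
    · exact Or.inl ⟨h3, by simp only [actA, h4]; rfl⟩
    · exact Or.inr (Or.inl ⟨h3, by simp only [actA, h4]; rfl⟩)
    · refine Or.inr (Or.inr ⟨β, m, h3, h4, h5, ?_, h7.act hG.inv h⟩)
      change actN (x.1.g ∆ cut h x.1.T.1) (actN h x.2) ∈ _
      let k1 := h.filter (fun y => cl y ≠ cl β)
      let k2 := h.filter (fun y => cl y = cl β ∧ y ∉ x.1.T.1)
      have e1 : (x.1.g ∆ cut h x.1.T.1) ∆ h = k1 ∆ (x.1.g ∆ k2) := by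
        ext y
        have := @h5 y
        simp only [Finset.mem_symmDiff, mem_cut, k1, k2, Finset.mem_filter, Set.mem_ofPred_eq] at this ⊢
        tauto
      rw [actN_actN, e1, ← actN_actN, ← actN_actN, h7.1 k2 (fun y hy => (Finset.mem_filter.1 hy).2)]
      exact hG.invW _ k1 (fun y hy => (Finset.mem_filter.1 hy).2) _ h6

theorem CG.act {cl : K → J} {b : St} {e : ℕ → Λ} {A : Lab K Λ St → Prop} {a : Approx K Λ St J}
    (hG : Good cl b e A a) {α : St} (h : Finset K) (p : Cond K Λ St) (x y : Atom K Λ St)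
    (hp : p ∈ a.P) (_ : NG cl a α x) (hy : NG cl a α y) (H : CG cl b e a p x y) :
    CG cl b e a (actC h p) (actA h x) (actA h y) := by
  intro h1 h2 β m1 h3
  change x.1.T = y.1.T at h1
  change x.1.g ∆ cut h x.1.T.1 = y.1.g ∆ cut h y.1.T.1 at h2
  change y.1.kind = _ at h3
  rw [h1, symmDiff_left_inj] at h2
  obtain ⟨H1, H2⟩ := H h1 h2 β m1 h3
  have hy' : β ∈ y.1.T.1 ∧ Elig a.P (a.U (cl β)) {z | cl z = cl β} y.1.T.1 y.2 := by
    rcases hy.2.2 with ⟨⟨m, h4⟩, _⟩ | ⟨⟨r, h4, _⟩, _⟩ | ⟨β', m, h4, h5, _, _, h6⟩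
    · rw [h3] at h4; cases h4
    · rw [h3] at h4; cases h4
    · rw [h3] at h4; cases h4; exact ⟨h5, h6⟩
  refine ⟨fun m h4 h5 => ?_, fun r h4 h5 => ?_⟩
  · refine (H1 m h4 h5).imp (fun h6 => ?_) (fun h6 => (frc_act hG.inv h).2 h6)
    have h7 := (frc_act hG.inv h).2 h6
    change frc a.P (actN h (An b e β _) m) _ at h7
    rw [actN_An] at h7
    convert h7 using 3
    change decide (β ∈ y.1.g ∆ cut h y.1.T.1) = _
    by_cases k1 : β ∈ y.1.g <;> by_cases k2 : β ∈ h <;> simp [Finset.mem_symmDiff, k1, k2, hy'.1]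
  · have h7 := (H2 r h4 h5).act hG.inv h
    have h8 := (hy'.2.act hG.inv h).2 _ (hG.inv h p hp)
    change In a.P _ _ (actN h y.2) (r ∆ (y.1.g ∆ cut h y.1.T.1))
    rw [h8] at h7 ⊢
    convert h7 using 1
    ext z
    simp only [Finset.mem_symmDiff, mem_cut]
    tauto

theorem union_mem_ext' {P : Set (Cond K Λ St)} {A : Lab K Λ St → Prop} {N : Atom K Λ St → Prop}
    {C : Cond K Λ St → Atom K Λ St → Atom K Λ St → Prop} {p n : Cond K Λ St}
    (hp : p ∈ ext P A N C) (hn : ∀ x ∈ n, ¬ A x.1 ∧ N x)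
    (hc : ∀ x ∈ n, ∀ y ∈ n, C (res A p) x y)
    (hc1 : ∀ x ∈ n, ∀ y ∈ p, ¬ A y.1 → C (res A p) x y)
    (hc2 : ∀ x ∈ n, ∀ y ∈ p, ¬ A y.1 → C (res A p) y x) : n ∪ p ∈ ext P A N C := by
  have e : res A (n ∪ p) = res A p := by
    ext x
    simp only [mem_res, Finset.mem_union]
    constructor
    · rintro ⟨h | h, h'⟩
      · exact absurd h' (hn x h).1
      · exact ⟨h, h'⟩
    · rintro ⟨h, h'⟩
      exact ⟨Or.inr h, h'⟩
  refine ⟨by rw [e]; exact hp.1, fun a ha h => ?_, fun a ha b hb h1 h2 => ?_⟩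
  · rcases Finset.mem_union.1 ha with ha | ha
    · exact (hn a ha).2
    · exact hp.2.1 a ha h
  · rw [e]
    rcases Finset.mem_union.1 ha with ha | ha <;> rcases Finset.mem_union.1 hb with hb | hb
    · exact hc a ha b hb
    · exact hc1 a ha b hb h2
    · exact hc2 b hb a ha h1
    · exact hp.2.2 a ha b hb h1 h2

theorem exists_decide_atoms {P : Set (Cond K Λ St)} (s : Finset (Atom K Λ St)) {p : Cond K Λ St}
    (hp : p ∈ P) : ∃ q ∈ P, p ⊆ q ∧ ∀ x ∈ s, x ∈ q ∨ frc P (.neg (.atom x.1 x.2)) q := by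
  induction s using Finset.induction_on with
  | empty => exact ⟨p, hp, subset_rfl, by simp⟩
  | insert x s _ ih =>
    obtain ⟨q, hq, hpq, H⟩ := ih
    obtain ⟨r, hr, hqr, h⟩ := exists_decide (.atom x.1 x.2) hq
    have : ∃ r ∈ P, q ⊆ r ∧ (x ∈ r ∨ frc P (.neg (.atom x.1 x.2)) r) := by
      rcases h with h | h
      · obtain ⟨r', hr', h1, h2⟩ := h r hr subset_rfl
        exact ⟨r', hr', hqr.trans h1, Or.inl h2⟩
      · exact ⟨r, hr, hqr, Or.inr h⟩
    obtain ⟨r, hr, hqr, h⟩ := this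
    refine ⟨r, hr, hpq.trans hqr, fun y hy => ?_⟩
    rcases Finset.mem_insert.1 hy with rfl | hy
    · exact h
    · exact (H y hy).imp (fun h => hqr h) (fun h => frc_mono h hqr)

theorem split_finset {β γ : Type} {U : Set β} {f : γ → β} {S : Set γ} (t : Finset β)
    (ht : (t : Set β) ⊆ U ∪ f '' S) : ∃ t0 : Finset β, ∃ t1 : Finset γ, (t0 : Set β) ⊆ U ∧
      (t1 : Set γ) ⊆ S ∧ ∀ E ∈ t, E ∈ t0 ∨ ∃ c ∈ t1, E = f c := by
  have h1 : ∀ E ∈ t, ∃ c : Option γ, (c = none ∧ E ∈ U) ∨ ∃ c' ∈ S, c = some c' ∧ E = f c' := by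
    intro E hE
    rcases ht hE with h | ⟨c, hc, rfl⟩
    · exact ⟨none, Or.inl ⟨rfl, h⟩⟩
    · exact ⟨some c, Or.inr ⟨c, hc, rfl, rfl⟩⟩
  choose! φ hφ using h1
  refine ⟨t.filter (· ∈ U), (t.image φ).eraseNone, fun E hE => (Finset.mem_filter.1 hE).2,
    fun c hc => ?_, fun E hE => ?_⟩
  · obtain ⟨E, hE, h⟩ := Finset.mem_image.1 (Finset.mem_eraseNone.1 hc)
    rcases hφ E hE with h' | ⟨c', h1, h2, _⟩
    · rw [h'.1] at h; cases h
    · rw [h2] at h; cases h; exact h1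
  · rcases hφ E hE with h' | ⟨c', _, h2, h3⟩
    · exact Or.inl (Finset.mem_filter.2 ⟨hE, h'.2⟩)
    · exact Or.inr ⟨c', Finset.mem_eraseNone.2 (Finset.mem_image.2 ⟨E, hE, h2⟩), h3⟩

/-- `p` forces that the intersection of the members of `t` lies in `X`. -/
def SubF (P : Set (Cond K Λ St)) (r : Cond K Λ St) (t : Finset (Nm K Λ St))
    (X : Nm K Λ St) : Prop :=
  ∀ q ∈ P, r ⊆ q → ∀ m, (∀ E ∈ t, frc P (E m) q) → frc P (X m) q

theorem exists_gstep {cl : K → J} (hK : ∀ k, {x | cl x = k}.Infinite) {b : St} {e : ℕ → Λ}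
    {A : Lab K Λ St → Prop}
    {a : Approx K Λ St J} (hG : Good cl b e A a) (hA : ∀ h l, A (Lab.act h l) ↔ A l) {α : St}
    (hα : ∀ l, A l → l.st = α → ∃ η, l.kind = .lot η) :
    ∃ a' : Approx K Λ St J, Good cl b e (fun l => A l ∨ l.st = α) a' ∧ Ext A a a' ∧
      (∀ k T, T.1 ⊆ {x | cl x = k} → Gn α T ∅ ∈ a'.W k) ∧
      ∀ k, ∀ Y ∈ a.W k, ∀ p ∈ a'.P, ∃ q ∈ a'.P, p ⊆ q ∧ ∃ T β m1, T.1 ⊆ {x | cl x = k} ∧
        cl β = k ∧ SubF a'.P q {Gn α T ∅, An b e β true, cof m1} Y := by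
  let P := ext a.P A (NG cl a α) (CG cl b e a)
  let U : J → Set (Nm K Λ St) := fun k => a.U k ∪
    (fun c : {T : Set K // T.Countable} × Finset K => Gs α c.1 c.2 c.2) ''
      {c | c.1.1 ⊆ {x | cl x = k} ∧ ∀ y ∈ c.2, y ∈ c.1.1}
  let W : J → Set (Nm K Λ St) := fun k => a.W k ∪
    (fun T : {T : Set K // T.Countable} => Gn α T ∅) '' {T | T.1 ⊆ {x | cl x = k}}
  have hE : Ext A a ⟨P, U, W⟩ := ⟨reg_ext hG.overP CG.mono, part_ext hG.overP,
    fun _ => Set.subset_union_left, fun _ => Set.subset_union_left⟩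
  have hinv : Inv P := inv_ext hG.inv hA (NG.act hG) (CG.act hG)
  have hbit : ∀ T g m, ¬ A (gA α T g (.bit m) : Atom K Λ St).1 := by
    intro T g m h
    obtain ⟨η, h⟩ := hα _ h rfl
    cases h
  have hcom : ∀ T g r, ¬ A (gA α T g (.com r) : Atom K Λ St).1 := by
    intro T g m h
    obtain ⟨η, h⟩ := hα _ h rfl
    cases h
  have hprom : ∀ p ∈ P, ∀ y ∈ p, ¬ A y.1 → ∀ β m1, y.1.kind = .prom β m1 →
      β ∈ y.1.T.1 ∧ y.1.T.1 ⊆ {z | cl z = cl β} ∧ actN y.1.g y.2 ∈ a.W (cl β) ∧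
        Elig a.P (a.U (cl β)) {z | cl z = cl β} y.1.T.1 y.2 := by
    intro p hp y hy hn β m1 h3
    rcases (hp.2.1 y hy hn).2.2 with ⟨⟨m, h4⟩, _⟩ | ⟨⟨r, h4, _⟩, _⟩ | ⟨β', m, h4, h5⟩
    · rw [h3] at h4; cases h4
    · rw [h3] at h4; cases h4
    · rw [h3] at h4; cases h4; exact h5
  have hover : ∀ p ∈ P, ∀ y ∈ p, ¬ A y.1 → ∀ β m1, y.1.kind = .prom β m1 → OverN A y.2 := by
    intro p hp y hy hn β m1 h3
    have := (hG.overW _ _ (hprom p hp y hy hn β m1 h3).2.2.1).act (h := y.1.g)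
      (fun l hl => (hA _ l).2 hl)
    rwa [actN_self] at this
  refine ⟨⟨P, U, W⟩, ⟨?_, hE.subset hG.empty, hinv, ?_, hE.compl_up hG, ?_, ?_, ?_, ?_, ?_, ?_,
    fun β => Or.inl (hG.memU β), fun β => Or.inl (hG.memW β), fun k m => Or.inl (hG.cofU k m),
    fun k m => Or.inl (hG.cofW k m)⟩, hE, fun k T hT => Or.inr ⟨T, hT, rfl⟩, ?_⟩
  · intro p hp x hx
    by_cases h : A x.1
    · exact Or.inl h
    · exact Or.inr (hp.2.1 x hx h).1
  · apply ccc_ext hG.overP CG.mono hG.ccc (fun x => (x.1.T, x.1.g))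
      (fun x => ∃ β m, x.1.kind = .prom β m)
    · intro p x y h h1 h2
      exact absurd (Prod.ext h1 h2) h
    · rintro p x y ⟨β, m, h⟩ _ _ _ β' m' _
      rw [h]
      exact ⟨fun _ h => (by cases h), fun _ h => (by cases h)⟩
    · rintro ⟨T, g⟩
      have := (Set.countable_range (fun m => (gA α T g (.bit m) : Atom K Λ St))).union
        ((countable_finsets T.2).image (fun r => (gA α T g (.com r) : Atom K Λ St)))
      apply this.mono
      rintro ⟨⟨st, T', g', κ⟩, X⟩ ⟨⟨h1, _, h3⟩, h4, h5⟩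
      simp only [Prod.mk.injEq] at h1 h3 h4 h5
      obtain ⟨rfl, rfl⟩ := h4
      subst h1
      rcases h3 with ⟨⟨m, rfl⟩, rfl⟩ | ⟨⟨r, rfl, h6⟩, rfl⟩ | ⟨β, m, h, _⟩
      · exact Or.inl ⟨m, rfl⟩
      · exact Or.inr ⟨r, fun x hx => h6 x hx, rfl⟩
      · exact absurd ⟨β, m, h⟩ h5
  · rintro k E (hE | ⟨c, _, rfl⟩)
    · exact (hG.overU k E hE).mono (fun _ h => Or.inl h)
    · exact fun m => over_imp (Or.inr rfl) (Or.inr rfl)
  · rintro k E (hE | ⟨c, _, rfl⟩)
    · exact (hG.overW k E hE).mono (fun _ h => Or.inl h)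
    · exact fun m => Or.inr rfl
  · rintro k h hh E (hE | ⟨c, hc, rfl⟩)
    · exact Or.inl (hG.invU k h hh E hE)
    · refine Or.inr ⟨c, hc, ?_⟩
      dsimp only
      rw [actN_Gs, cut_eq_empty hc.1 hh]
      congr 1
      exact (symmDiff_bot _).symm
  · rintro k h hh E (hE | ⟨c, hc, rfl⟩)
    · exact Or.inl (hG.invW k h hh E hE)
    · refine Or.inr ⟨c, hc, ?_⟩
      dsimp only
      rw [actN_Gn, cut_eq_empty hc hh]
      congr 1
  · intro k p hp t ht
    obtain ⟨t0, t1, ht0, ht1, ht'⟩ := split_finset t ht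
    obtain ⟨q, hq, hpq, hdec⟩ := exists_decide_atoms
      (t1.image (fun c => (gA α c.1 c.2 (.com c.2) : Atom K Λ St))) hp
    let t2 := t1.filter (fun c => (gA α c.1 c.2 (.com c.2) : Atom K Λ St) ∈ q)
    let pr := q.filter (fun y => ¬ A y.1 ∧ ∃ c ∈ t2, c.1 = y.1.T ∧ c.2 = y.1.g ∧
      ∃ β m1, y.1.kind = .prom β m1)
    have h1 : ∀ y ∈ pr, ∃ Z : Nm K Λ St, In a.P (a.U k) (res A q) Z ∅ ∧
        ∀ β m1, y.1.kind = .prom β m1 → Z = An b e β (decide (β ∈ y.1.g)) ∨ Z = y.2 := by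
      intro y hy
      obtain ⟨hy1, hy2, c, hc, h2, h3, β, m1, h4⟩ := Finset.mem_filter.1 hy
      obtain ⟨hc1, hc2⟩ := Finset.mem_filter.1 hc
      have h5 := hprom q hq y hy1 hy2 β m1 h4
      have hk : cl β = k := (ht1 hc1).1 (h2 ▸ h5.1)
      by_cases hβ : β ∈ y.1.g
      · refine ⟨y.2, ?_, fun _ _ _ => Or.inr rfl⟩
        have := (hq.2.2 _ hc2 y hy1 (hcom _ _ _) hy2 h2 h3 β m1 h4).2 c.2 rfl (h3 ▸ hβ)
        rw [h3, symmDiff_self, hk] at this
        exact this
      · refine ⟨An b e β false, ?_, fun β' m' h => Or.inl ?_⟩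
        · apply In.of_subA (t := {An b e β false})
          · rw [Finset.coe_singleton, Set.singleton_subset_iff, ← hk]
            exact hG.memU β
          · intro r _ _ m hm
            have := hm _ (Finset.mem_singleton_self _)
            rwa [actN_empty] at this
        · rw [h4] at h
          cases h
          simp [hβ]
    have : Nonempty (Nm K Λ St) := ⟨topN⟩
    choose! Z hZ1 hZ2 using h1
    obtain ⟨r, hr, hqr, t3, ht3, hsub⟩ := In.finite pr Z (fun _ => ∅) (hE.res_mem hq) hZ1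
    obtain ⟨r', hr', hrr, m, hm⟩ := hG.properU k r hr (t0 ∪ t3) (by
      rw [Finset.coe_union]; exact Set.union_subset ht0 ht3)
    have hq1 : r' ∪ q ∈ P := hE.union_mem hq hr' (hqr.trans hrr)
    have e1 : res A (r' ∪ q) = r' := res_union_of (hG.overP r' hr') (hqr.trans hrr)
    let n : Cond K Λ St := t2.image (fun c => gA α c.1 c.2 (.bit m))
    have hq2 : n ∪ (r' ∪ q) ∈ P := by
      apply union_mem_ext' hq1
      · intro x hx
        obtain ⟨c, hc, rfl⟩ := Finset.mem_image.1 hx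
        exact ⟨hbit _ _ _, rfl, (ht1 (Finset.mem_filter.1 hc).1).2, Or.inl ⟨⟨m, rfl⟩, rfl⟩⟩
      · intro x _ y hy _ _ β m1 h
        obtain ⟨c, hc, rfl⟩ := Finset.mem_image.1 hy
        cases h
      · intro x hx y hy hn h2 h3 β m1 h4
        obtain ⟨c, hc, rfl⟩ := Finset.mem_image.1 hx
        have hy' : y ∈ q := (Finset.mem_union.1 hy).resolve_left
          (fun h => hn (hG.overP r' hr' y h))
        have hy2 : y ∈ pr := Finset.mem_filter.2 ⟨hy', hn, c, hc, h2, h3, β, m1, h4⟩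
        refine ⟨fun m' h5 _ => ?_, fun r h5 => by cases h5⟩
        cases h5
        rw [e1]
        have h6 := hsub y hy2 r' hr' hrr m (fun E hE => by
          rw [actN_empty]; exact hm E (Finset.mem_union_right _ hE))
        rcases hZ2 y hy2 β m1 h4 with h7 | h7
        · exact Or.inl (h7 ▸ h6)
        · exact Or.inr (h7 ▸ h6)
      · intro x hx y hy _ _ _ β m1 h
        obtain ⟨c, hc, rfl⟩ := Finset.mem_image.1 hx
        cases h
    have hs : q ⊆ n ∪ (r' ∪ q) := Finset.subset_union_right.trans Finset.subset_union_right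
    refine ⟨_, hq2, hpq.trans hs, m, fun E hE' => ?_⟩
    show frc P (E m) _
    rcases ht' E hE' with h | ⟨c, hc, rfl⟩
    · apply frc_mono _ Finset.subset_union_right
      have := hE.frc_iff (hG.overU k E (ht0 h) m) hq1
      rw [e1] at this
      exact this.2 (hm E (Finset.mem_union_left _ h))
    · rw [Gs, frc_imp]
      intro s hs' hss hcs
      rcases hdec _ (Finset.mem_image_of_mem _ hc) with h | h
      · apply frc_atom_of_mem
        apply hss
        exact Finset.mem_union_left _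
          (Finset.mem_image_of_mem _ (Finset.mem_filter.2 ⟨hc, h⟩))
      · exact (h s hs' (hs.trans hss) hcs).elim
  · intro k p hp t ht
    obtain ⟨t0, t1, ht0, ht1, ht'⟩ := split_finset t ht
    let pr := p.filter (fun y => ¬ A y.1 ∧ y.1.T ∈ t1 ∧ y.1.g = ∅ ∧ ∃ β m1, y.1.kind = .prom β m1)
    have hk : ∀ y ∈ pr, ∀ β m1, y.1.kind = .prom β m1 → cl β = k := by
      intro y hy β m1 h4
      obtain ⟨hy1, hy2, h2, _⟩ := Finset.mem_filter.1 hy
      exact ht1 h2 (hprom p hp y hy1 hy2 β m1 h4).1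
    obtain ⟨r, hr, hpr, s, hs⟩ := hG.link k _ (hE.res_mem hp) (t0 ∪ pr.image Prod.snd) (by
      rw [Finset.coe_union]
      refine Set.union_subset ht0 (fun X hX => ?_)
      obtain ⟨y, hy, rfl⟩ := Finset.mem_image.1 hX
      obtain ⟨hy1, hy2, h2, h3, β, m1, h4⟩ := Finset.mem_filter.1 hy
      have := (hprom p hp y hy1 hy2 β m1 h4).2.2.1
      rwa [h3, actN_empty, hk y hy β m1 h4] at this)
    have hq1 : r ∪ p ∈ P := hE.union_mem hp hr hpr
    have e1 : res A (r ∪ p) = r := res_union_of (hG.overP r hr) hpr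
    let n : Cond K Λ St := t1.image (fun T => gA α T ∅ (.com (cut s T.1)))
    have hq2 : n ∪ (r ∪ p) ∈ P := by
      apply union_mem_ext' hq1
      · intro x hx
        obtain ⟨c, hc, rfl⟩ := Finset.mem_image.1 hx
        exact ⟨hcom _ _ _, rfl, fun y hy => absurd hy (Finset.notMem_empty y),
          Or.inr (Or.inl ⟨⟨_, rfl, fun y hy => (mem_cut.1 hy).2⟩, rfl⟩)⟩
      · intro x _ y hy _ _ β m1 h
        obtain ⟨c, hc, rfl⟩ := Finset.mem_image.1 hy
        cases h
      · intro x hx y hy hn h2 h3 β m1 h4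
        obtain ⟨T, hT, rfl⟩ := Finset.mem_image.1 hx
        have hy' : y ∈ p := (Finset.mem_union.1 hy).resolve_left
          (fun h => hn (hG.overP r hr y h))
        change T = y.1.T at h2
        change ∅ = y.1.g at h3
        have hy2 : y ∈ pr := Finset.mem_filter.2 ⟨hy', hn, h2 ▸ hT, h3.symm, β, m1, h4⟩
        refine ⟨fun m' h5 => (by cases h5), fun r' h5 _ => ?_⟩
        cases h5
        rw [e1, ← h3, h2]
        have h6 := hs y.2 (Finset.mem_union_right _ (Finset.mem_image_of_mem _ hy2))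
        have h7 := (hprom p hp y hy' hn β m1 h4).2.2.2.2 r hr s
        rw [hk y hy2 β m1 h4] at h7 ⊢
        have e3 : (cut s y.1.T.1) ∆ ∅ = cut s y.1.T.1 := symmDiff_bot _
        rw [e3]
        exact h7.1 h6
      · intro x hx y hy _ _ _ β m1 h
        obtain ⟨c, hc, rfl⟩ := Finset.mem_image.1 hx
        cases h
    refine ⟨_, hq2, Finset.subset_union_right.trans Finset.subset_union_right, s,
      fun E hE' => ?_⟩
    rcases ht' E hE' with h | ⟨T, hT, rfl⟩
    · apply In.mono _ Finset.subset_union_right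
      apply hE.in_up hA (hG.overU k) hq1 (hG.overW k E (ht0 h))
      rw [e1]
      exact hs E (Finset.mem_union_left _ h)
    · apply In.of_subA (t := {Gs α T (cut s T.1) (cut s T.1)})
      · rw [Finset.coe_singleton, Set.singleton_subset_iff]
        exact Or.inr ⟨(T, cut s T.1), ⟨ht1 hT, fun y hy => (mem_cut.1 hy).2⟩, rfl⟩
      · intro q hq hpq m hm
        have := hm _ (Finset.mem_singleton_self _)
        rw [actN_Gs, symmDiff_self] at this
        apply frc_imp.1 this q hq subset_rfl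
        apply frc_atom_of_mem
        exact hpq (Finset.mem_union_left _ (Finset.mem_image_of_mem _ hT))
  · intro k Y hY p hp
    obtain ⟨T0, hT0, hT0k, hel⟩ := exists_elig hG.inv hG.ccc (hG.invU k) Y
    let rs : Finset K := p.biUnion (fun x => match x.1.kind with
      | .com r => r
      | _ => ∅)
    let ms : ℕ := p.sup (fun x => match x.1.kind with
      | .bit m => m + 1
      | _ => 0)
    obtain ⟨β, hβ, hβ'⟩ := ((hK k).sdiff rs.finite_toSet).nonempty
    change cl β = k at hβ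
    let T : {T : Set K // T.Countable} := ⟨insert β T0, hT0.insert β⟩
    have hT : T.1 ⊆ {x | cl x = k} := Set.insert_subset hβ hT0k
    let y : Atom K Λ St := (⟨α, T, ∅, .prom β ms⟩, Y)
    have hyA : ¬ A y.1 := by
      intro h
      obtain ⟨η, h⟩ := hα _ h rfl
      cases h
    have hq : {y} ∪ p ∈ P := by
      apply union_mem_ext' hp
      · intro x hx
        rw [Finset.mem_singleton.1 hx]
        refine ⟨hyA, rfl, fun z hz => absurd hz (Finset.notMem_empty z),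
          Or.inr (Or.inr ⟨β, ms, rfl, Set.mem_insert _ _, ?_, ?_, ?_⟩)⟩
        · rw [hβ]; exact hT
        · rw [hβ]; change actN ∅ Y ∈ _; rwa [actN_empty]
        · rw [hβ]; exact hel _ (Set.subset_insert _ _) hT
      · intro x hx x' _ _ _ _ _ _
        rw [Finset.mem_singleton.1 hx]
        exact ⟨fun _ h => (by cases h), fun _ h => (by cases h)⟩
      · intro x hx x' _ _ _ _ _ _ _
        rw [Finset.mem_singleton.1 hx]
        exact ⟨fun _ h => (by cases h), fun _ h => (by cases h)⟩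
      · intro x hx x' hx' _ _ _ β' m1 h
        rw [Finset.mem_singleton.1 hx] at h
        cases h
        refine ⟨fun m h1 h2 => ?_, fun r h1 h2 => ?_⟩
        · have := Finset.le_sup (f := fun x : Atom K Λ St => match x.1.kind with
            | .bit m => m + 1
            | _ => 0) hx'
          simp only [h1] at this
          change m + 1 ≤ ms at this
          omega
        · refine absurd (Finset.mem_coe.2 (Finset.mem_biUnion.2 ⟨x', hx', ?_⟩)) hβ'
          simp only [h1]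
          exact h2
    refine ⟨_, hq, Finset.subset_union_right, T, β, ms, hT, hβ, fun q hq' hpq m hm => ?_⟩
    have h1 := hm (Gn α T ∅) (by simp)
    have h2 := hm (An b e β true) (by simp)
    have h3 := (frc_cof hq').1 (hm (cof ms) (by simp))
    apply frc_of_dense
    intro r hr hqr
    obtain ⟨r', hr', hrr, h4⟩ := h1 r hr hqr
    refine ⟨r', hr', hrr, ?_⟩
    have hy : y ∈ r' := hrr (hqr (hpq (by simp)))
    have h5 := (hr'.2.2 _ h4 y hy (hbit _ _ _) hyA rfl rfl β ms rfl).1 m rfl h3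
    rcases h5 with h5 | h5
    · exfalso
      apply hE.compl_up hG r' hr' β m (frc_mono h2 (hqr.trans hrr))
      rw [hE.frc_iff (hG.overU _ _ (hG.memU β) m) hr']
      simpa [y] using h5
    · rw [hE.frc_iff (hG.overW k Y hY m) hr']
      exact h5

end Pool.Agent.P.MP_0e7365_lc
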