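import Pool.Agent.P.MP_0e7365_lc.GStep

/-!
Successor steps, unions of chains and the recursion of length `ω₁`.
-/

namespace Pool.Agent.P.MP_0e7365_lc

open scoped symmDiff
open Classical

variable {K Λ St J : Type}

theorem SubF.mono {P : Set (Cond K Λ St)} {p q : Cond K Λ St} {t : Finset (Nm K Λ St)}
    {X : Nm K Λ St} (H : SubF P p t X) (hpq : p ⊆ q) : SubF P q t X :=
  fun r hr hqr => H r hr (hpq.trans hqr)

theorem Ext.subF_up {A : Lab K Λ St → Prop} {a a' : Approx K Λ St J} (H : Ext A a a')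
    {p : Cond K Λ St} {t : Finset (Nm K Λ St)} {X : Nm K Λ St} (ht : ∀ E ∈ t, OverN A E)
    (hX : OverN A X) (h : SubF a.P (res A p) t X) : SubF a'.P p t X := by
  intro q hq hpq m hm
  rw [H.frc_iff (hX m) hq]
  exact h _ (H.res_mem hq) (res_mono hpq) m (fun E hE => (H.frc_iff (ht E hE m) hq).1 (hm E hE))

/-- What the step `α` achieves. -/
def Hand (cl : K → J) (b : St) (e : ℕ → Λ) (A : Lab K Λ St → Prop) (α : St)
    (a : Approx K Λ St J) : Prop :=
  (∀ k T, T.1 ⊆ {x | cl x = k} → Gn α T ∅ ∈ a.W k) ∧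
    ∀ k X, OverN A X → ∀ p ∈ a.P, ∃ q ∈ a.P, p ⊆ q ∧ ∃ T β m1, T.1 ⊆ {x | cl x = k} ∧
      cl β = k ∧ (SubF a.P q {Gn α T ∅, An b e β true, cof m1} X ∨
        SubF a.P q {Gn α T ∅, An b e β true, cof m1} (negN X))

theorem exists_step {cl : K → J} (hK : ∀ k, {x | cl x = k}.Infinite) {b : St} {e : ℕ → Λ}
    {A : Lab K Λ St → Prop}
    {a : Approx K Λ St J} (hG : Good cl b e A a) (hA : ∀ h l, A (Lab.act h l) ↔ A l) {α : St}
    (hα : ∀ l, A l → l.st ≠ α) (η0 η1 : Nm K Λ St → Λ) (h0 : Function.Injective η0)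
    (h1 : Function.Injective η1) (h01 : ∀ X Y, η1 X ≠ η0 Y) :
    ∃ a' : Approx K Λ St J, Good cl b e (fun l => A l ∨ l.st = α) a' ∧ Ext A a a' ∧
      Hand cl b e A α a' := by
  obtain ⟨a1, hG1, hE1, hd⟩ := exists_dstep hG hA hα η0 η1 h0 h1 h01
  obtain ⟨a2, hG2, hE2, hW, hh⟩ := exists_gstep hK hG1 (AS_act hA α _) (α := α) (by
    rintro l (h | ⟨_, η, _, h⟩) h'
    · exact absurd h' (hα l h)
    · exact ⟨η, h⟩)
  refine ⟨a2, hG2.mono ?_, hE1.trans (fun l h => Or.inl h) hE2, hW, fun k X hX p hp => ?_⟩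
  · rintro l ((h | h) | h)
    · exact Or.inl h
    · exact Or.inr h.1
    · exact Or.inr h
  · obtain ⟨Y, hY, hdec⟩ := hd k X hX
    have hdec' := hE2.dec_up hG1.overP (hX.mono (fun l h => Or.inl h)) (hG1.overW k Y hY) hdec
    obtain ⟨q, hq, hpq, T, β, m1, h2, h3, h4⟩ := hh k Y hY p hp
    obtain ⟨r, hr, hqr, h5⟩ := hdec' q hq
    refine ⟨r, hr, hpq.trans hqr, T, β, m1, h2, h3, h5.imp (fun h => ?_) (fun h => ?_)⟩
    · exact fun s hs hrs m hm => h s hs hrs m (h4 s hs (hqr.trans hrs) m hm)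
    · exact fun s hs hrs m hm => h s hs hrs m (h4 s hs (hqr.trans hrs) m hm)

theorem Good.ext_refl {cl : K → J} {b : St} {e : ℕ → Λ} {A : Lab K Λ St → Prop}
    {a : Approx K Λ St J} (hG : Good cl b e A a) : Ext A a a := by
  refine ⟨fun p hp => ?_, ?_, fun _ => subset_rfl, fun _ => subset_rfl⟩
  · rw [res_eq_self (hG.overP p hp)]
    refine ⟨hp, fun q hq hpq => ?_⟩
    rw [res_eq_self (hG.overP q hq), Finset.union_eq_left.2 hpq]
    exact hq
  · ext p
    exact ⟨fun h => h.1, fun h => ⟨h, hG.overP p h⟩⟩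

/-- The union of a family of approximations. -/
def un (f : St → Approx K Λ St J) (I : Set St) : Approx K Λ St J :=
  ⟨⋃ β ∈ I, (f β).P, fun k => ⋃ β ∈ I, (f β).U k, fun k => ⋃ β ∈ I, (f β).W k⟩

theorem un_congr {f g : St → Approx K Λ St J} {I : Set St} (h : ∀ β ∈ I, f β = g β) :
    un f I = un g I := by
  simp only [un]
  congr 1
  · exact Set.iUnion₂_congr (fun β hβ => by rw [h β hβ])
  · funext k
    exact Set.iUnion₂_congr (fun β hβ => by rw [h β hβ])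
  · funext k
    exact Set.iUnion₂_congr (fun β hβ => by rw [h β hβ])

variable [LinearOrder St]

/-- Labels of stage at most `β`. -/
def LE' (β : St) (l : Lab K Λ St) : Prop := l.st ≤ β

section
variable {cl : K → J} {b : St} {e : ℕ → Λ} {f : St → Approx K Λ St J} {I : Set St}

theorem chain_ext (hG : ∀ β ∈ I, Good cl b e (LE' β) (f β))
    (hE : ∀ β ∈ I, ∀ γ ∈ I, β < γ → Ext (LE' β) (f β) (f γ)) {β γ : St} (hβ : β ∈ I) (hγ : γ ∈ I)
    (h : β ≤ γ) : Ext (LE' β) (f β) (f γ) := by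
  rcases h.eq_or_lt with rfl | h
  · exact (hG β hβ).ext_refl
  · exact hE β hβ γ hγ h

theorem max_mem' {β γ : St} (hβ : β ∈ I) (hγ : γ ∈ I) : max β γ ∈ I := by
  rcases le_total β γ with h | h
  · rwa [max_eq_right h]
  · rwa [max_eq_left h]

theorem un_ext (hG : ∀ β ∈ I, Good cl b e (LE' β) (f β))
    (hE : ∀ β ∈ I, ∀ γ ∈ I, β < γ → Ext (LE' β) (f β) (f γ)) {β : St} (hβ : β ∈ I) :
    Ext (LE' β) (f β) (un f I) := by
  have hsub : ∀ γ ∈ I, (f γ).P ⊆ (un f I).P := fun γ hγ =>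
    Set.subset_biUnion_of_mem (u := fun β => (f β).P) hγ
  refine ⟨fun p hp => ?_, ?_, fun k => Set.subset_biUnion_of_mem (u := fun β => (f β).U k) hβ,
    fun k => Set.subset_biUnion_of_mem (u := fun β => (f β).W k) hβ⟩
  · obtain ⟨γ, hγ, hp⟩ := Set.mem_iUnion₂.1 hp
    have h1 := max_mem' hβ hγ
    have hp' := (chain_ext hG hE hγ h1 (le_max_right _ _)).subset hp
    refine ⟨hsub β hβ ((chain_ext hG hE hβ h1 (le_max_left _ _)).res_mem hp'), fun q hq hpq => ?_⟩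
    obtain ⟨δ, hδ, hq⟩ := Set.mem_iUnion₂.1 hq
    have h2 := max_mem' h1 hδ
    exact hsub _ h2 (((chain_ext hG hE hβ h2 ((le_max_left _ _).trans (le_max_left _ _))).reg p
      ((chain_ext hG hE h1 h2 (le_max_left _ _)).subset hp')).2 q
      ((chain_ext hG hE hδ h2 (le_max_right _ _)).subset hq) hpq)
  · ext p
    constructor
    · rintro ⟨hp, h⟩
      obtain ⟨γ, hγ, hp⟩ := Set.mem_iUnion₂.1 hp
      have h1 := max_mem' hβ hγ
      rw [← (chain_ext hG hE hβ h1 (le_max_left _ _)).part_eq]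
      exact ⟨(chain_ext hG hE hγ h1 (le_max_right _ _)).subset hp, h⟩
    · exact fun hp => ⟨hsub β hβ hp, (hG β hβ).overP p hp⟩

theorem un_ccc (hG : ∀ β ∈ I, Good cl b e (LE' β) (f β))
    (hE : ∀ β ∈ I, ∀ γ ∈ I, β < γ → Ext (LE' β) (f β) (f γ)) (hne : I.Nonempty)
    (hI : I.Countable ∨ ∀ S ⊆ I, S.Countable → ∃ γ ∈ I, ∀ β ∈ S, β ≤ γ) : CCC (un f I).P := by
  intro B hB hanti
  have hsub : ∀ γ ∈ I, (f γ).P ⊆ (un f I).P := fun γ hγ => (un_ext hG hE hγ).subset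
  rcases hI with hI | hI
  · have : B ⊆ ⋃ β ∈ I, B ∩ (f β).P := by
      intro p hp
      obtain ⟨γ, hγ, h⟩ := Set.mem_iUnion₂.1 (hB hp)
      exact Set.mem_iUnion₂.2 ⟨γ, hγ, hp, h⟩
    refine (hI.biUnion (fun β hβ => ?_)).mono this
    apply (hG β hβ).ccc _ Set.inter_subset_right
    rintro p hp q hq hne ⟨r, hr, h⟩
    exact hanti p hp.1 q hq.1 hne ⟨r, hsub β hβ hr, h⟩
  · have step : ∀ β : I, ∃ C ⊆ B, C.Countable ∧ ∃ γ : I, β.1 ≤ γ.1 ∧ C ⊆ (f γ.1).P ∧
        ∀ p ∈ B, ∃ c ∈ C, Compat (f β.1).P (res (LE' β.1) p) (res (LE' β.1) c) := by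
      rintro ⟨β, hβ⟩
      obtain ⟨D, hD, hDc, hpre⟩ := (hG β hβ).ccc.exists_predense (res (LE' β) '' B) (by
        rintro _ ⟨p, hp, rfl⟩
        exact (un_ext hG hE hβ).res_mem (hB hp))
      have h1 : ∀ d ∈ D, ∃ c ∈ B, res (LE' β) c = d := fun d hd => hD hd
      choose! φ hφ hφ' using h1
      have h2 : ∀ p ∈ B, ∃ γ ∈ I, p ∈ (f γ).P := fun p hp => by
        obtain ⟨γ, hγ, h⟩ := Set.mem_iUnion₂.1 (hB hp)
        exact ⟨γ, hγ, h⟩
      have : Nonempty St := ⟨β⟩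
      choose! ψ hψ hψ' using h2
      obtain ⟨γ, hγ, hγ'⟩ := hI (insert β (ψ '' (φ '' D))) (by
        rintro _ (rfl | ⟨_, ⟨d, hd, rfl⟩, rfl⟩)
        · exact hβ
        · exact hψ _ (hφ d hd)) (((hDc.image _).image _).insert _)
      refine ⟨φ '' D, ?_, hDc.image _, ⟨γ, hγ⟩, hγ' β (Set.mem_insert _ _), ?_, fun p hp => ?_⟩
      · rintro _ ⟨d, hd, rfl⟩
        exact hφ d hd
      · rintro _ ⟨d, hd, rfl⟩
        exact (chain_ext hG hE (hψ _ (hφ d hd)) hγ
          (hγ' _ (Or.inr ⟨_, ⟨d, hd, rfl⟩, rfl⟩))).subset (hψ' _ (hφ d hd))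
      · obtain ⟨d, hd, h⟩ := hpre _ ⟨p, hp, rfl⟩
        exact ⟨φ d, ⟨d, hd, rfl⟩, by rw [hφ' d hd]; exact h⟩
    choose C hC hCc nx hnx hCP hpre using step
    obtain ⟨β0, hβ0⟩ := hne
    let s : ℕ → I := fun n => nx^[n] ⟨β0, hβ0⟩
    have hs : ∀ n, s (n + 1) = nx (s n) := fun n => Function.iterate_succ_apply' _ _ _
    refine (Set.countable_iUnion (fun n => hCc (s n))).mono (fun p hp => ?_)
    have h1 : ∃ n, res (LE' (s (n + 1)).1) p = res (LE' (s n).1) p := by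
      by_contra hc
      push Not at hc
      have h2 : ∀ n, n ≤ (res (LE' (s n).1) p).card := by
        intro n
        induction n with
        | zero => exact Nat.zero_le _
        | succ n ih =>
          have : res (LE' (s n).1) p ⊂ res (LE' (s (n + 1)).1) p := by
            refine Finset.ssubset_iff_subset_ne.2 ⟨fun x hx => ?_, (hc n).symm⟩
            rw [mem_res] at hx ⊢
            refine ⟨hx.1, le_trans hx.2 ?_⟩
            rw [hs]
            exact hnx _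
          have := Finset.card_lt_card this
          omega
      have h3 := h2 (p.card + 1)
      have h4 := Finset.card_le_card (res_subset (A := LE' (s (p.card + 1)).1) (p := p))
      omega
    obtain ⟨n, hn⟩ := h1
    obtain ⟨c, hc, r, hr, h2, h3⟩ := hpre (s n) p hp
    rw [hs] at hn
    have h4 := (chain_ext hG hE (s n).2 (nx (s n)).2 (hnx _)).union_mem (hCP _ hc) hr h3
    have h5 := (un_ext hG hE (nx (s n)).2).union_mem (hB hp) h4
      (by rw [hn]; exact h2.trans Finset.subset_union_left)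
    have h6 : p = c := by
      by_contra hne
      exact hanti p hp c (hC _ hc) hne ⟨_, h5, Finset.subset_union_right,
        Finset.subset_union_right.trans Finset.subset_union_left⟩
    exact Set.mem_iUnion.2 ⟨n, h6 ▸ hc⟩

theorem un_good (hG : ∀ β ∈ I, Good cl b e (LE' β) (f β))
    (hE : ∀ β ∈ I, ∀ γ ∈ I, β < γ → Ext (LE' β) (f β) (f γ)) (hne : I.Nonempty)
    (hI : I.Countable ∨ ∀ S ⊆ I, S.Countable → ∃ γ ∈ I, ∀ β ∈ S, β ≤ γ) :
    Good cl b e (fun l => ∃ β ∈ I, l.st ≤ β) (un f I) := by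
  obtain ⟨β0, hβ0⟩ := hne
  have hE0 := un_ext hG hE hβ0
  refine ⟨?_, hE0.subset (hG β0 hβ0).empty, ?_, un_ccc hG hE ⟨β0, hβ0⟩ hI,
    hE0.compl_up (hG β0 hβ0), ?_, ?_, ?_, ?_, ?_, ?_, fun β => hE0.U _ ((hG β0 hβ0).memU β),
    fun β => hE0.W _ ((hG β0 hβ0).memW β), fun k m => hE0.U _ ((hG β0 hβ0).cofU k m),
    fun k m => hE0.W _ ((hG β0 hβ0).cofW k m)⟩
  · intro p hp x hx
    obtain ⟨γ, hγ, hp⟩ := Set.mem_iUnion₂.1 hp
    exact ⟨γ, hγ, (hG γ hγ).overP p hp x hx⟩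
  · intro h p hp
    obtain ⟨γ, hγ, hp⟩ := Set.mem_iUnion₂.1 hp
    exact Set.mem_iUnion₂.2 ⟨γ, hγ, (hG γ hγ).inv h p hp⟩
  · intro k E hE
    obtain ⟨γ, hγ, hE⟩ := Set.mem_iUnion₂.1 hE
    exact ((hG γ hγ).overU k E hE).mono (fun l h => ⟨γ, hγ, h⟩)
  · intro k E hE
    obtain ⟨γ, hγ, hE⟩ := Set.mem_iUnion₂.1 hE
    exact ((hG γ hγ).overW k E hE).mono (fun l h => ⟨γ, hγ, h⟩)
  · intro k h hh E hE
    obtain ⟨γ, hγ, hE⟩ := Set.mem_iUnion₂.1 hE
    exact Set.mem_iUnion₂.2 ⟨γ, hγ, (hG γ hγ).invU k h hh E hE⟩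
  · intro k h hh E hE
    obtain ⟨γ, hγ, hE⟩ := Set.mem_iUnion₂.1 hE
    exact Set.mem_iUnion₂.2 ⟨γ, hγ, (hG γ hγ).invW k h hh E hE⟩
  · intro k p hp s hs
    obtain ⟨γ, hγ, h⟩ := finset_subset_chain (c := I) (fun β => (f β).U k) ⟨β0, hβ0⟩
      (fun x hx y hy => (le_total x y).imp (fun h => (chain_ext hG hE hx hy h).U k)
        (fun h => (chain_ext hG hE hy hx h).U k)) s hs
    exact (un_ext hG hE hγ).properU_up (hG γ hγ).overP ((hG γ hγ).overU k) ((hG γ hγ).properU k)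
      p hp s h
  · intro k p hp s hs
    obtain ⟨γ, hγ, h⟩ := finset_subset_chain (c := I) (fun β => (f β).W k) ⟨β0, hβ0⟩
      (fun x hx y hy => (le_total x y).imp (fun h => (chain_ext hG hE hx hy h).W k)
        (fun h => (chain_ext hG hE hy hx h).W k)) s hs
    exact (un_ext hG hE hγ).link_up (fun _ _ => Iff.rfl) ((hG γ hγ).overU k) (hG γ hγ).overP
      ((hG γ hγ).overW k) ((hG γ hγ).link k) p hp s h

end

theorem exists_seq [WellFoundedLT St] {cl : K → J} (hK : ∀ k, {x | cl x = k}.Infinite) {b : St}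
    (hb : ∀ α, b ≤ α) (hc : ∀ α : St, (Set.Iio α).Countable) {e : ℕ → Λ}
    (he : Function.Injective e) (η0 η1 : Nm K Λ St → Λ) (h0 : Function.Injective η0)
    (h1 : Function.Injective η1) (h01 : ∀ X Y, η1 X ≠ η0 Y) :
    ∃ f : St → Approx K Λ St J, ∀ α, Good cl b e (LE' α) (f α) ∧
      (∀ β < α, Ext (LE' β) (f β) (f α)) ∧ (α ≠ b → Hand cl b e (fun l => l.st < α) α (f α)) := by
  obtain ⟨a0, ha0⟩ := exists_base (K := K) (St := St) cl b e he
  let nxt : St → Approx K Λ St J → Approx K Λ St J := fun α a =>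
    if h : ∃ a', Good cl b e (LE' α) a' ∧ Ext (fun l => l.st < α) a a' ∧
      Hand cl b e (fun l => l.st < α) α a' then h.choose else a
  let f : St → Approx K Λ St J := WellFounded.fix (wellFounded_lt (α := St)) (fun α rec =>
    if α = b then a0 else nxt α (un (fun β => if h : β < α then rec β h else a0) (Set.Iio α)))
  have hf : ∀ α, f α = if α = b then a0 else nxt α (un f (Set.Iio α)) := by
    intro α
    have : f α = if α = b then a0 else
        nxt α (un (fun β => if _ : β < α then f β else a0) (Set.Iio α)) :=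
      WellFounded.fix_eq _ _ _
    have e2 : un (fun β => if _ : β < α then f β else a0) (Set.Iio α) = un f (Set.Iio α) :=
      un_congr (fun β (hβ : β < α) => dif_pos hβ)
    rw [this, e2]
  refine ⟨f, fun α => ?_⟩
  induction α using WellFoundedLT.induction with
  | ind α ih =>
  by_cases hα : α = b
  · subst hα
    refine ⟨?_, fun β hβ => absurd (hb β) (not_le.2 hβ), fun h => absurd rfl h⟩
    rw [hf, if_pos rfl]
    exact ha0.mono (fun l h => le_of_eq h)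
  · have hG : ∀ β ∈ Set.Iio α, Good cl b e (LE' β) (f β) := fun β hβ => (ih β hβ).1
    have hE : ∀ β ∈ Set.Iio α, ∀ γ ∈ Set.Iio α, β < γ → Ext (LE' β) (f β) (f γ) :=
      fun β _ γ hγ h => (ih γ hγ).2.1 β h
    have hG' := (un_good hG hE ⟨b, lt_of_le_of_ne (hb α) (Ne.symm hα)⟩ (Or.inl (hc α))).mono
      (B := fun l => l.st < α) (fun l ⟨β, h, h'⟩ => lt_of_le_of_lt h' h)
    have hex : ∃ a', Good cl b e (LE' α) a' ∧ Ext (fun l => l.st < α) (un f (Set.Iio α)) a' ∧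
        Hand cl b e (fun l => l.st < α) α a' := by
      obtain ⟨a', g1, g2, g3⟩ := exists_step hK hG' (fun _ _ => Iff.rfl) (α := α)
        (fun l h => ne_of_lt h) η0 η1 h0 h1 h01
      exact ⟨a', g1.mono (fun l h => h.elim le_of_lt le_of_eq), g2, g3⟩
    have e1 : f α = hex.choose := by
      rw [hf, if_neg hα]
      exact dif_pos hex
    rw [e1]
    obtain ⟨g1, g2, g3⟩ := hex.choose_spec
    exact ⟨g1, fun β hβ => (un_ext hG hE hβ).trans (fun l h => lt_of_le_of_lt h hβ) g2,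
      fun _ => g3⟩

omit [LinearOrder St] in
theorem Tm.exists_stages (t : Tm K Λ St) :
    ∃ S : Set St, S.Countable ∧ Over (fun l => l.st ∈ S) t := by
  induction t with
  | top => exact ⟨∅, Set.countable_empty, trivial⟩
  | atom l sub _ => exact ⟨{l.st}, Set.countable_singleton _, rfl⟩
  | neg t ih => exact ih
  | conj f ih =>
    choose S hS hS' using ih
    exact ⟨⋃ i, S i, Set.countable_iUnion hS, fun i =>
      (hS' i).mono (fun l h => Set.mem_iUnion.2 ⟨i, h⟩)⟩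

/-- The properties of the final poset. -/
structure Final (cl : K → J) (P : Set (Cond K Λ St)) (A : K → Nm K Λ St)
    (Gen : J → Set (Nm K Λ St)) : Prop where
  empty : ∅ ∈ P
  ccc : CCC P
  memA : ∀ β, A β ∈ Gen (cl β)
  memcof : ∀ k m, cof m ∈ Gen k
  dec : ∀ k X, ∀ p ∈ P, ∃ q ∈ P, p ⊆ q ∧ ∃ t : Finset (Nm K Λ St), (t : Set _) ⊆ Gen k ∧
    (SubF P q t X ∨ SubF P q t (negN X))
  fin : ∀ k (t : Finset (Nm K Λ St)), (t : Set _) ⊆ Gen k → ∀ p ∈ P, ∃ q ∈ P, p ⊆ q ∧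
    ∃ s : Finset K, ∀ β, cl β = k → β ∉ s → ∀ r ∈ P, q ⊆ r → ∃ r' ∈ P, r ⊆ r' ∧
      ∃ m, (∀ E ∈ t, frc P (E m) r') ∧ frc P (.neg (A β m)) r'

theorem exists_final [WellFoundedLT St] {cl : K → J} (hK : ∀ k, {x | cl x = k}.Infinite) {b : St}
    (hb : ∀ α, b ≤ α) (hc : ∀ α : St, (Set.Iio α).Countable)
    (hcof : ∀ S : Set St, S.Countable → ∃ γ, ∀ β ∈ S, β < γ) {e : ℕ → Λ}
    (he : Function.Injective e) (η0 η1 : Nm K Λ St → Λ) (h0 : Function.Injective η0)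
    (h1 : Function.Injective η1) (h01 : ∀ X Y, η1 X ≠ η0 Y) :
    ∃ (P : Set (Cond K Λ St)) (A : K → Nm K Λ St) (Gen : J → Set (Nm K Λ St)),
      Final cl P A Gen ∧ ∀ k, ∀ E ∈ Gen k,
        (∃ α T, T.1 ⊆ {x | cl x = k} ∧ E = Gn α T ∅) ∨ (∃ β, cl β = k ∧ E = A β) ∨
          ∃ m, E = cof m := by
  obtain ⟨f, hf⟩ := exists_seq hK hb hc he η0 η1 h0 h1 h01
  have hG : ∀ β ∈ (Set.univ : Set St), Good cl b e (LE' β) (f β) := fun β _ => (hf β).1
  have hE : ∀ β ∈ (Set.univ : Set St), ∀ γ ∈ (Set.univ : Set St), β < γ →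
      Ext (LE' β) (f β) (f γ) := fun β _ γ _ h => (hf γ).2.1 β h
  have hU := un_good hG hE ⟨b, trivial⟩ (Or.inr (fun S _ hS => by
    obtain ⟨γ, h⟩ := hcof S hS
    exact ⟨γ, trivial, fun β hβ => (h β hβ).le⟩))
  let a := un f Set.univ
  let Gen : J → Set (Nm K Λ St) := fun k => {E |
    (∃ α T, α ≠ b ∧ T.1 ⊆ {x | cl x = k} ∧ E = Gn α T ∅) ∨ (∃ β, cl β = k ∧ E = An b e β true) ∨
      ∃ m, E = cof m}
  have hGen : ∀ k, Gen k ⊆ a.W k := by
    rintro k E (⟨α, T, h2, h3, rfl⟩ | ⟨β, rfl, rfl⟩ | ⟨m, rfl⟩)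
    · exact (un_ext hG hE (Set.mem_univ α)).W k (((hf α).2.2 h2).1 k T h3)
    · exact hU.memW β
    · exact hU.cofW k m
  refine ⟨a.P, fun β => An b e β true, Gen, ⟨hU.empty, hU.ccc,
    fun β => Or.inr (Or.inl ⟨β, rfl, rfl⟩), fun k m => Or.inr (Or.inr ⟨m, rfl⟩), ?_, ?_⟩, ?_⟩
  · intro k X p hp
    obtain ⟨S, hS, hX⟩ := (Tm.conj X).exists_stages
    obtain ⟨α, hα⟩ := hcof (insert b S) (hS.insert b)
    have hαb : α ≠ b := (hα b (Set.mem_insert _ _)).ne'
    have hX' : OverN (fun l => l.st < α) X := fun m =>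
      (hX m).mono (fun l h => hα _ (Set.mem_insert_of_mem _ h))
    have hX2 : OverN (LE' α) X := hX'.mono (fun l h => le_of_lt h)
    have hEα := un_ext hG hE (Set.mem_univ α)
    obtain ⟨q, hq, hpq, T, β, m1, h2, h3, h4⟩ :=
      ((hf α).2.2 hαb).2 k X hX' _ (hEα.res_mem hp)
    have e1 := res_union_of ((hf α).1.overP q hq) hpq
    have ht : ∀ E ∈ ({Gn α T ∅, An b e β true, cof m1} : Finset (Nm K Λ St)), E ∈ Gen k ∧
        OverN (LE' α) E := by
      intro E hE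
      simp only [Finset.mem_insert, Finset.mem_singleton] at hE
      rcases hE with rfl | rfl | rfl
      · exact ⟨Or.inl ⟨α, T, hαb, h2, rfl⟩, fun m => le_refl α⟩
      · exact ⟨Or.inr (Or.inl ⟨β, h3, rfl⟩), fun m => hb α⟩
      · exact ⟨Or.inr (Or.inr ⟨m1, rfl⟩), overN_cof _ _⟩
    refine ⟨q ∪ p, hEα.union_mem hp hq hpq, Finset.subset_union_right, _,
      fun E hE => (ht E hE).1, h4.imp (fun h => ?_) (fun h => ?_)⟩
    · exact hEα.subF_up (fun E hE => (ht E hE).2) hX2 (by rw [e1]; exact h)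
    · exact hEα.subF_up (fun E hE => (ht E hE).2) hX2 (by rw [e1]; exact h)
  · intro k t ht p hp
    obtain ⟨q, hq, hpq, s, hs⟩ := hU.link k p hp t (ht.trans (hGen k))
    refine ⟨q, hq, hpq, s, fun β hβ hβs r hr hqr => ?_⟩
    obtain ⟨r1, hr1, hrr, t1, ht1, hsub⟩ := In.finite t id (fun _ => s) hr
      (fun E hE => (hs E hE).mono hqr)
    obtain ⟨r2, hr2, hrr2, m, hm⟩ := hU.properU k _ (hU.inv s r1 hr1)
      (insert (An b e β false) t1) (by
        rw [Finset.coe_insert]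
        exact Set.insert_subset (hβ ▸ hU.memU β) ht1)
    have hr3 := hU.inv s r2 hr2
    have h2 := actC_subset_iff.1 hrr2
    refine ⟨actC s r2, hr3, hrr.trans h2, m, fun E hE => ?_, fun r4 hr4 h3 h4 => ?_⟩
    · exact hsub E hE _ hr3 h2 m (fun E' hE' =>
        (frc_act hU.inv s).2 (hm E' (Finset.mem_insert_of_mem hE')))
    · apply hU.compl r4 hr4 β m h4
      apply frc_mono _ h3
      have := (frc_act hU.inv s).2 (hm _ (Finset.mem_insert_self _ _))
      change frc _ (actN s (An b e β false) m) _ at this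
      rw [actN_An] at this
      simpa [hβs] using this
  · rintro k E (⟨α, T, _, h3, rfl⟩ | h | h)
    · exact Or.inl ⟨α, T, h3, rfl⟩
    · exact Or.inr (Or.inl h)
    · exact Or.inr (Or.inr h)

end Pool.Agent.P.MP_0e7365_lc
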