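import Pool.Agent.P.MP_0e7365_lc.Sem3
import Pool.Agent.P.MP_0e7365_lc.Card

/-!
The collapsing factor and the final assembly.
-/

namespace Pool.Agent.P.MP_0e7365_lc

open Classical Cardinal

section
variable {O : Type} [LinearOrder O]

/-- Countable approximations to bijections between `w` and each `a` with `w ≤ a ≤ c`. -/
structure Col (w c : O) : Type where
  s : Set (O × O × O)
  cnt : s.Countable
  dom : ∀ x ∈ s, x.1 ≤ c ∧ x.2.1 < w ∧ x.2.2 < x.1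
  func : ∀ x ∈ s, ∀ y ∈ s, x.1 = y.1 → (x.2.1 = y.2.1 ↔ x.2.2 = y.2.2)

variable {w c : O}

instance : Preorder (Col w c) where
  le a b := b.s ⊆ a.s
  le_refl _ := subset_rfl
  le_trans _ _ _ h h' := Set.Subset.trans h' h

instance : Nonempty (Col w c) := ⟨⟨∅, Set.countable_empty, by simp, by simp⟩⟩

theorem col_sigma : SigmaClosed (Col w c) := by
  intro S hS hch
  refine ⟨⟨⋃ q ∈ S, q.s, hS.biUnion (fun q _ => q.cnt), fun x hx => ?_, fun x hx y hy => ?_⟩,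
    fun q hq => Set.subset_biUnion_of_mem (u := fun q : Col w c => q.s) hq⟩
  · obtain ⟨q, _, h⟩ := Set.mem_iUnion₂.1 hx
    exact q.dom x h
  · obtain ⟨q, hq, h⟩ := Set.mem_iUnion₂.1 hx
    obtain ⟨q', hq', h'⟩ := Set.mem_iUnion₂.1 hy
    rcases hch q hq q' hq' with h1 | h1
    · exact q.func x h y (h1 h')
    · exact q'.func x (h1 h) y h'

theorem col_card {μ : Cardinal.{0}} (hμ : ℵ₀ ≤ μ) (h : μ ^ ℵ₀ = μ) (hc : #(Set.Iio c) ≤ μ)
    (hw : w ≤ c) : #(Col w c) ≤ μ := by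
  have h1 : #(Set.Iic c) ≤ μ := by
    rw [← Set.Iio_insert]
    exact mk_insert_le.trans ((add_le_add hc (one_le_aleph0.trans hμ)).trans (add_eq_self hμ).le)
  have h2 : #(Set.Iic c ×ˢ Set.Iic c ×ˢ Set.Iic c : Set (O × O × O)) ≤ μ := by
    rw [mk_setProd, mk_setProd]
    exact (mul_le_mul' h1 ((mul_le_mul' h1 h1).trans (mul_eq_self hμ).le)).trans
      (mul_eq_self hμ).le
  refine le_trans (mk_le_of_injective (f := fun q : Col w c => (⟨q.s, fun x hx =>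
    ⟨(q.dom x hx).1, (q.dom x hx).2.1.le.trans hw, (q.dom x hx).2.2.le.trans (q.dom x hx).1⟩,
      q.cnt⟩ : {t : Set (O × O × O) // t ⊆ Set.Iic c ×ˢ Set.Iic c ×ˢ Set.Iic c ∧ t.Countable}))
    ?_) (mk_countable_subsets hμ h h2)
  rintro ⟨s, _, _, _⟩ ⟨t, _, _, _⟩ h
  cases Subtype.mk.inj h
  rfl

theorem col_insert (q : Col w c) {a x y : O} (h1 : a ≤ c) (h2 : x < w) (h3 : y < a)
    (h4 : ∀ z ∈ q.s, z.1 = a → z.2.1 ≠ x ∧ z.2.2 ≠ y) : ∃ q' ≤ q, (a, x, y) ∈ q'.s := by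
  refine ⟨⟨insert (a, x, y) q.s, q.cnt.insert _, ?_, ?_⟩, Set.subset_insert _ _,
    Set.mem_insert _ _⟩
  · rintro z (rfl | hz)
    · exact ⟨h1, h2, h3⟩
    · exact q.dom z hz
  · rintro z (rfl | hz) z' (rfl | hz') h
    · simp
    · exact iff_of_false (h4 z' hz' h.symm).1.symm (h4 z' hz' h.symm).2.symm
    · exact iff_of_false (h4 z hz h).1 (h4 z hz h).2
    · exact q.func z hz z' hz' h

theorem col_goodBr {K Λ St : Type} {P : Set (Cond K Λ St)} (hw : ¬ (Set.Iio w).Countable) {a : O}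
    (h1 : w ≤ a) (h2 : a ≤ c) : GoodBr (R := Rc P (Col w c)) (fun x => x < w) (fun x => x < a)
      (fun r x y => (a, x, y) ∈ r.q.s) where
  mono := fun _ _ _ _ h h' => h.2 h'
  dom := fun r _ _ h => (r.q.dom _ h).2
  func := fun r _ _ _ h h' => (r.q.func _ h _ h' rfl).1 rfl
  inj := fun r _ _ _ h h' => (r.q.func _ h _ h' rfl).2 rfl
  total := fun x hx r => by
    by_cases h : ∃ y, (a, x, y) ∈ r.q.s
    · exact ⟨r, le_rfl, h⟩
    have h3 : ¬ Set.Iio a ⊆ (fun z : O × O × O => z.2.2) '' r.q.s := fun h =>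
      hw (((r.q.cnt.image _).mono h).mono (Set.Iio_subset_Iio h1))
    obtain ⟨y, h4, h5⟩ := Set.not_subset.1 h3
    obtain ⟨q', h6, h7⟩ := col_insert r.q h2 hx h4 (by
      rintro ⟨z1, z2, z3⟩ hz rfl
      exact ⟨fun h' => h ⟨z3, h' ▸ hz⟩, fun h' => h5 ⟨_, hz, h'⟩⟩)
    exact ⟨⟨r.p, r.hp, q'⟩, ⟨subset_rfl, h6⟩, y, h7⟩
  onto := fun y hy r => by
    by_cases h : ∃ x, (a, x, y) ∈ r.q.s
    · exact ⟨r, le_rfl, h⟩
    have h3 : ¬ Set.Iio w ⊆ (fun z : O × O × O => z.2.1) '' r.q.s := fun h =>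
      hw ((r.q.cnt.image _).mono h)
    obtain ⟨x, h4, h5⟩ := Set.not_subset.1 h3
    obtain ⟨q', h6, h7⟩ := col_insert r.q h2 h4 hy (by
      rintro ⟨z1, z2, z3⟩ hz rfl
      exact ⟨fun h' => h5 ⟨_, hz, h'⟩, fun h' => h ⟨z2, h' ▸ hz⟩⟩)
    exact ⟨⟨r.p, r.hp, q'⟩, ⟨subset_rfl, h6⟩, x, h7⟩

theorem goodCd_of_br {R T : Type} [Preorder R] {κ a : O} {G : Set T} {Br : R → O → O → Prop}
    (H : GoodBr (fun x => x < κ) (fun x => x < a) Br)
    (h : #{t : Finset T // (t : Set T) ⊆ G} ≤ #(Set.Iio a)) :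
    ∃ Cd : R → O → Finset T → Prop, GoodCd κ G Cd := by
  obtain ⟨ψ⟩ := (Cardinal.le_def _ _).1 h
  refine ⟨fun r x t => ∃ ht : (t : Set T) ⊆ G, Br r x (ψ ⟨t, ht⟩).1,
    fun _ _ _ _ h ⟨ht, h'⟩ => ⟨ht, H.mono _ _ _ _ h h'⟩, fun _ _ _ ⟨ht, h'⟩ => ⟨(H.dom _ _ _ h').1, ht⟩,
    fun _ _ _ _ ⟨_, h1⟩ ⟨_, h2⟩ => ?_, fun t ht r => ?_⟩
  · exact congrArg Subtype.val (ψ.injective (Subtype.ext (H.func _ _ _ _ h1 h2)))
  · obtain ⟨s, h1, x, h2⟩ := H.onto _ (ψ ⟨t, ht⟩).2 r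
    exact ⟨s, h1, x, ht, h2⟩

end

theorem main (n : ℕ) (hn : 0 < n) :
    ∃ M : Set ZFSet.{0}, TransModelZFC M ∧ {x | InSpec M x}.encard = n := by
  obtain ⟨N, rfl⟩ : ∃ N, n = N + 1 := ⟨n - 1, by omega⟩
  let ν := Order.succ (Order.succ (lam N))
  let O := ν.ord.ToType
  have h0 : ∀ μ ≤ Order.succ (lam N), ∃ a : O, #(Set.Iio a) = μ ∧
      ∀ b, b < a ↔ #(Set.Iio b) < μ := fun μ h => exists_init (Order.lt_succ_iff.2 h)
  have : Nonempty O := let ⟨a, _⟩ := h0 0 zero_le; ⟨a⟩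
  choose! ι hι hι' using h0
  have hl : ∀ k ≤ N, lam k ≤ Order.succ (lam N) := fun k hk =>
    (lam_strictMono.monotone hk).trans (Order.le_succ _)
  have hc : 𝔠 ≤ Order.succ (lam N) := hl 0 (Nat.zero_le _)
  have h1 : ℵ₁ ≤ Order.succ (lam N) := aleph_one_le_continuum.trans hc
  have hw : ℵ₀ ≤ Order.succ (lam N) := aleph0_le_continuum.trans hc
  have hle : ∀ μ ≤ Order.succ (lam N), ∀ a, μ ≤ #(Set.Iio a) → ι μ ≤ a := fun μ h a h' =>
    not_lt.1 (fun hlt => absurd ((hι' μ h a).1 hlt) (not_lt.2 h'))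
  let μ : Fin (N + 1) → Cardinal.{0} := fun k => if k.1 = 0 then ℵ₁ else lam k.1
  have hμ1 : ∀ k, μ k ≤ lam k.1 := by
    intro k
    simp only [μ]
    split_ifs with h
    · rw [h]; exact aleph_one_le_continuum
    · exact le_rfl
  have hμ2 : ∀ k, μ k ≤ Order.succ (lam N) := fun k => (hμ1 k).trans (hl _ (by omega))
  have hμ3 : ∀ k, ℵ₀ < μ k := by
    intro k
    simp only [μ]
    split_ifs with h
    · exact aleph0_lt_aleph_one
    · exact aleph0_lt_continuum.trans_le (continuum_le_lam _)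
  let κ : Fin (N + 1) → O := fun k => ι (μ k)
  have hκ : ∀ k, #(Set.Iio (κ k)) = μ k := fun k => hι _ (hμ2 k)
  have hκ0 : ∀ k, ι ℵ₀ < κ k := fun k => (hι' _ (hμ2 k) _).2 (by rw [hι _ hw]; exact hμ3 k)
  let K := Σ k : Fin (N + 1), Set.Iio (κ k)
  let cl : K → Fin (N + 1) := Sigma.fst
  have hKk : ∀ k, #{x : K | cl x = k} = μ k := by
    intro k
    have : {x : K | cl x = k} = Set.range (Sigma.mk k) := by
      rw [Set.range_sigmaMk]; rfl
    rw [this, mk_range_eq _ sigma_mk_injective, hκ]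
  have hK : ∀ k, {x : K | cl x = k}.Infinite := fun k => by
    rw [← Set.infinite_coe_iff, infinite_iff, hKk]
    exact (hμ3 k).le
  have hKc : #K ≤ lam N := by
    rw [mk_sigma]
    refine (sum_le_sum _ (fun _ => lam N) (fun k => ?_)).trans ?_
    · rw [hκ]
      exact (hμ1 k).trans (lam_strictMono.monotone (by omega))
    · rw [sum_const', mk_fin]
      exact (mul_le_mul' ((nat_lt_aleph0 _).le.trans (aleph0_le_lam N)) le_rfl).trans
        (mul_eq_self (aleph0_le_lam N)).le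
  let St := (ℵ₁ : Cardinal.{0}).ord.ToType
  have hSt : #St = ℵ₁ := mk_ord_toType _
  have hSt1 : ∀ a : St, #(Set.Iio a) ≤ ℵ₀ := fun a => by
    rw [← Order.lt_succ_iff, succ_aleph0]
    exact mk_Iio_lt _ a
  have hSt2 : ∀ k, #St ≤ lam k := fun k =>
    hSt.le.trans (aleph_one_le_continuum.trans (continuum_le_lam k))
  obtain ⟨b, hb⟩ : ∃ b : St, ∀ α, b ≤ α := by
    obtain ⟨b, _, hb⟩ := exists_init (ν := ℵ₁) (μ := 0) (aleph0_pos.trans aleph0_lt_aleph_one)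
    exact ⟨b, fun α => not_lt.1 (fun h => absurd ((hb α).1 h) (by simp))⟩
  let Λ := (lam N).out
  have hΛ : #Λ = lam N := mk_out _
  have hNm : #(Nm K Λ St) ≤ lam N := mk_Nm_le (aleph0_le_lam N) (lam_pow N) hKc hΛ.le (hSt2 N)
  obtain ⟨η⟩ := (Cardinal.le_def _ _).1 ((mk_sum_le (aleph0_le_lam N) hNm hNm).trans hΛ.ge)
  obtain ⟨e⟩ := (Cardinal.le_def ℕ Λ).1 (mk_nat.trans_le ((aleph0_le_lam N).trans hΛ.ge))
  obtain ⟨P, A, Gen, hF, hGen⟩ := exists_final (Λ := Λ) hK hb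
    (fun a => le_aleph0_iff_set_countable.1 (hSt1 a))
    (exists_gt le_rfl hSt1 (hSt ▸ aleph0_lt_aleph_one)) e.injective
    (fun X => η (.inl X)) (fun X => η (.inr X)) (fun X Y h => Sum.inl.inj (η.injective h))
    (fun X Y h => Sum.inr.inj (η.injective h)) (fun X Y h => by cases η.injective h)
  have hG : ∀ k, #{t : Finset (Nm K Λ St) // (t : Set _) ⊆ Gen k} ≤ lam k.1 := fun k =>
    mk_finite_subsets (aleph0_le_lam _) (lam_pow _) (mk_gen_le (aleph0_le_lam _) (lam_pow _)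
      ((hKk k).le.trans (hμ1 k)) (hSt2 _) (hGen k))
  have hwc : ι ℵ₁ ≤ ι 𝔠 := hle _ h1 _ (by rw [hι _ hc]; exact aleph_one_le_continuum)
  have hw1 : ¬ (Set.Iio (ι ℵ₁)).Countable := by
    rw [countable_iff_lt_aleph_one, hι _ h1]
    exact lt_irrefl _
  let Q := Col (ι ℵ₁) (ι 𝔠)
  have hQ : #Q ≤ 𝔠 := col_card aleph0_le_continuum continuum_power_aleph0 (hι _ hc).le hwc
  have hsm : ∀ k, SmallPre (Rc P Q) (lam k) := fun k =>
    small_predense hF.ccc (aleph0_le_lam k) (hQ.trans (continuum_le_lam k))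
  have := exists_model (Q := Q) hF col_sigma hK κ ?_ (ι (Order.succ (lam N))) (a1 := ι ℵ₀) ?_ ?_
    ?_ ?_ ?_ ?_ ?_
  · simpa using this
  · intro i j h
    have h2 : μ i = μ j := by rw [← hκ, ← hκ, h]
    have h3 : ∀ k : ℕ, k ≠ 0 → ℵ₁ < lam k := fun k hk =>
      aleph_one_le_continuum.trans_lt (lam_strictMono (Nat.pos_of_ne_zero hk))
    simp only [μ] at h2
    split_ifs at h2 with h4 h5 h5
    · exact Fin.ext (h4.trans h5.symm)
    · exact absurd h2 (h3 _ h5).ne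
    · exact absurd h2 (h3 _ h4).ne'
    · exact Fin.ext (lam_strictMono.injective h2)
  · rw [hι' _ le_rfl, hι _ hw]
    exact Order.lt_succ_iff.2 (aleph0_le_lam N)
  · refine stab_of_small (aleph0_le_lam N) (hsm N) hNm
      (fun a ha => Order.lt_succ_iff.1 ((hι' _ le_rfl a).1 ha)) ?_
    rw [hι _ le_rfl]
    exact Order.lt_succ _
  · intro k
    refine ⟨fun a => if h : a < κ k then ⟨k, ⟨a, h⟩⟩ else ⟨k, ⟨_, hκ0 k⟩⟩, fun a => ?_,
      fun a (ha : a < κ k) a' (ha' : a' < κ k) h => ?_⟩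
    · dsimp only
      split_ifs <;> rfl
    · simp only [ha, ha', dif_pos] at h
      exact congrArg Subtype.val (sigma_mk_injective (β := fun k => Set.Iio (κ k)) h)
  · intro k
    by_cases hk : k.1 = 0
    · have e1 : κ k = ι ℵ₁ := by simp only [κ, μ, hk, if_true]
      rw [e1]
      refine goodCd_of_br (col_goodBr hw1 hwc le_rfl) ?_
      rw [hι _ hc]
      have := hG k
      rwa [hk] at this
    · refine goodCd_of_br (goodBr_of_equiv (Equiv.refl _)) ?_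
      rw [hκ]
      simpa only [μ, hk, if_false] using hG k
  · intro k
    by_cases hk : k.1 = 0
    · have e1 : κ k = ι ℵ₁ := by simp only [κ, μ, hk, if_true]
      rw [e1]
      exact pres_of_easton hF.ccc col_sigma
        (fun a ha => (countable_iff_lt_aleph_one _).2 ((hι' _ h1 a).1 ha)) hw1
    · obtain ⟨m, hm⟩ := Nat.exists_eq_succ_of_ne_zero hk
      have e1 : μ k = Order.succ (lam m) := by simp only [μ, hk, if_false]; rw [hm]; rfl
      refine pres_of_small (aleph0_le_lam m) (hsm m) (fun a ha => ?_) ?_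
      · rw [← Order.lt_succ_iff, ← e1]
        exact (hι' _ (hμ2 k) a).1 ha
      · rw [hκ, e1]
        exact Order.lt_succ _
  · intro k
    refine ⟨_, hκ0 k, ?_⟩
    rw [← Set.infinite_coe_iff, infinite_iff, hι _ hw]
  · intro a ha
    have h2 : #(Set.Iio a) ≤ lam N := Order.lt_succ_iff.1 ((hι' _ le_rfl a).1 ha)
    have h3 : #(Set.Iio a) ≤ Order.succ (lam N) := h2.trans (Order.le_succ _)
    by_cases h4 : (Set.Iio a).Countable
    · exact Or.inr (Or.inl h4)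
    rw [countable_iff_lt_aleph_one, not_lt] at h4
    rcases (hle _ h3 a le_rfl).eq_or_lt with h5 | h5
    swap
    · obtain ⟨f⟩ := Cardinal.eq.1 (hι _ h3)
      exact Or.inr (Or.inr ⟨_, h5, _, goodBr_of_equiv f⟩)
    rcases le_or_gt #(Set.Iio a) 𝔠 with h6 | h6
    · rcases (hle _ h1 a h4).eq_or_lt with h7 | h7
      · exact Or.inl ⟨0, by simp only [κ, μ, Fin.val_zero, if_true, h7]⟩
      · refine Or.inr (Or.inr ⟨_, h7, _, col_goodBr hw1 h7.le ?_⟩)
        rw [← h5]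
        exact hle _ h3 _ (by rw [hι _ hc]; exact h6)
    · obtain ⟨k, h7, h8, h9⟩ := exists_lam h6 N h2
      refine Or.inl ⟨⟨k, by omega⟩, ?_⟩
      simp only [κ, μ, h8, if_false]
      rw [← h9, h5]

end Pool.Agent.P.MP_0e7365_lc
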