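import Pool.Agent.P.MP_0e7365_lc.Main

/-!
A model in which the high spectrum has as many elements as the continuum.
-/

namespace Pool.Agent.P.MP_0e7365_lc

open Filter Classical Cardinal

section
variable {K Λ St J : Type} {P : Set (Cond K Λ St)} {Q : Type} [Preorder Q]
  {cl : K → J} {A : K → Nm K Λ St} {Gen : J → Set (Nm K Λ St)}
  {O : Type} [LinearOrder O] [WellFoundedLT O]

theorem exists_big [Nonempty Q] (hF : Final cl P A Gen) (hQ : SigmaClosed Q)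
    (hK : ∀ k, {x | cl x = k}.Infinite) (κ : J → O) (hκ : Function.Injective κ)
    (g : Nm K Λ St → J) (hg : Function.Injective g)
    (hj : ∀ k, ∃ j : O → K, (∀ a, cl (j a) = k) ∧ Set.InjOn j (Set.Iio (κ k)))
    (hC : ∀ k, ∃ Cd : Rc P Q → O → Finset (Nm K Λ St) → Prop, GoodCd (κ k) (Gen k) Cd)
    (hP : ∀ k, Pres (Rc P Q) (κ k)) (hi : ∀ k, ∃ a < κ k, (Set.Iio a).Infinite) :
    ∃ M : Set ZFSet.{0}, TransModelZFC M ∧ ∃ C ∈ M, ∃ S ∈ M,
      (∀ x, x ∈ C ↔ x ∈ M ∧ x ⊆ ZFSet.omega) ∧ (∀ y ∈ S, InSpec M y) ∧ EquinumIn M C S := by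
  have : Nonempty (Rc P Q) := ⟨⟨∅, hF.empty, Classical.arbitrary Q⟩⟩
  have h1 : ∀ k, ∀ᶠ w in gen (Rc P Q), InSpec w.M (w.ov (κ k)) := by
    intro k
    obtain ⟨j, g1, g2⟩ := hj k
    obtain ⟨Cd, g3⟩ := hC k
    obtain ⟨a, g4, g5⟩ := hi k
    filter_upwards [ev_card (hP k), ev_omega_mem g4 g5, ev_uName hF.ccc hQ (Gen k),
      ev_dName (κ k), ev_ultra hF hQ (hK k), ev_tukey1 hF hQ j g1 g2, ev_tukey2 hF hQ g3]
      with w k1 k2 k3 k4 k5 k6 k7
    exact ⟨k1, k2, _, k3.1, _, k4.1, k5, k4.2.2, k7, k6⟩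
  let L : Nm K Λ St → Set (Rc P Q) := fun X => {r | FEq (nmName X) (nmName X) r ∧
    ∀ Y, ∀ q ≤ r, ¬ (WellOrderingRel Y X ∧ FEq (nmName Y) (nmName X) q)}
  have h3 : ∀ᶠ w in gen (Rc P Q), TransModelZFC w.M ∧ ∃ C ∈ w.M, ∃ S ∈ w.M,
      (∀ x, x ∈ C ↔ x ∈ w.M ∧ x ⊆ ZFSet.omega) ∧ (∀ y ∈ S, InSpec w.M y) ∧
        EquinumIn w.M C S := by
    filter_upwards [ev_zfc, ev_all fun X => h1 (g X), ev_ov (O := O), ev_fun (fun X => κ (g X)),
      ev_rv, ev_capture hF.ccc hQ, ev_hit_univ, ev_val_opair,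
      ev_all fun X : Nm K Λ St => ev_least WellOrderingRel
        (fun (r : Rc P Q) Y => FEq (nmName Y) (nmName X) r) (fun _ _ _ h h' => h'.mono h) X,
      ev_all fun X : Nm K Λ St => ev_all fun Y : Nm K Λ St =>
        ev_val_eq (nmName X : Name (Rc P Q)) (nmName Y),
      ev_all fun X : Nm K Λ St => ev_val_mem_M (nmName X : Name (Rc P Q)),
      ev_val_mem_M (⟨Nm K Λ St, nmName, fun _ => Set.univ⟩ : Name (Rc P Q)),
      ev_val_mem_M (⟨Nm K Λ St, fun X => ordName (κ (g X)), L⟩ : Name (Rc P Q)),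
      ev_val_mem_M (⟨Nm K Λ St, fun X => opair (nmName X) (ordName (κ (g X))), L⟩ :
        Name (Rc P Q))]
      with w g1 g2 g3 g4 g5 g6 g7 g8 g9 g10 g11 g12 g13 g14
    have hL : ∀ X, w.In X → (w.Hit (L X) ↔ ∀ Y, w.In Y → WellOrderingRel Y X → w.rv Y ≠ w.rv X) := by
      intro X hX
      refine (g9 X hX).trans ⟨fun h Y k1 k2 k3 => h.2 Y k1 k2 ((g10 Y k1 X hX).1 k3),
        fun h => ⟨(g10 X hX X hX).1 rfl, fun Y k1 k2 k3 => h Y k1 k2 ((g10 Y k1 X hX).2 k3)⟩⟩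
    have huniq : ∀ X Y, w.In X → w.In Y → w.Hit (L X) → w.Hit (L Y) → w.rv X = w.rv Y → X = Y := by
      intro X Y k1 k2 k3 k4 k5
      rcases trichotomous_of WellOrderingRel X Y with h | h | h
      · exact absurd k5 ((hL Y k2).1 k4 X k1 h)
      · exact h
      · exact absurd k5.symm ((hL X k1).1 k3 Y k2 h)
    have hinj : ∀ X Y, w.In X → w.In Y → w.ov (κ (g X)) = w.ov (κ (g Y)) → X = Y :=
      fun X Y k1 k2 h => hg (hκ (g3.2.2.2 _ _ (g4 X k1) (g4 Y k2) h))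
    have hC : ∀ x, x ∈ w.val (⟨Nm K Λ St, nmName, fun _ => Set.univ⟩ : Name (Rc P Q)) ↔
        x ∈ w.M ∧ x ⊆ ZFSet.omega := by
      intro x
      rw [w.mem_val_mk]
      constructor
      · rintro ⟨X, k1, _, rfl⟩
        exact ⟨g11 X k1, (g5 X).1⟩
      · rintro ⟨k1, k2⟩
        obtain ⟨X, k3, rfl⟩ := g6 x k1 k2
        exact ⟨X, k3, g7, rfl⟩
    have hS : ∀ y, y ∈ w.val (⟨Nm K Λ St, fun X => ordName (κ (g X)), L⟩ : Name (Rc P Q)) ↔
        ∃ X, w.In X ∧ w.Hit (L X) ∧ w.ov (κ (g X)) = y := fun y => w.mem_val_mk _ _ _ _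
    have hf : ∀ z, z ∈ w.val (⟨Nm K Λ St, fun X => opair (nmName X) (ordName (κ (g X))), L⟩ :
        Name (Rc P Q)) ↔ ∃ X, w.In X ∧ w.Hit (L X) ∧
          ZFSet.pair (w.rv X) (w.ov (κ (g X))) = z := by
      intro z
      rw [w.mem_val_mk]
      simp only [g8]
      rfl
    refine ⟨g1, _, g12, _, g13, hC, fun y hy => ?_, _, g14, ⟨fun z hz => ?_, fun x hx => ?_⟩,
      fun y hy => ?_⟩
    · obtain ⟨X, k1, _, rfl⟩ := (hS y).1 hy
      exact g2 X k1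
    · obtain ⟨X, k1, k2, rfl⟩ := (hf z).1 hz
      exact ZFSet.pair_mem_prod.2 ⟨(hC _).2 ⟨g11 X k1, (g5 X).1⟩, (hS _).2 ⟨X, k1, k2, rfl⟩⟩
    · obtain ⟨k1, k2⟩ := (hC x).1 hx
      obtain ⟨X, ⟨k3, k4⟩, k5⟩ := (IsWellFounded.wf (r := WellOrderingRel)).has_min
        {X : Nm K Λ St | w.In X ∧ w.rv X = x} (g6 x k1 k2)
      have k6 : w.Hit (L X) := (hL X k3).2 fun Y j1 j2 j3 => k5 Y ⟨j1, j3.trans k4⟩ j2
      refine ⟨w.ov (κ (g X)), (hf _).2 ⟨X, k3, k6, by rw [k4]⟩, fun y hy => ?_⟩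
      obtain ⟨Y, j1, j2, j3⟩ := (hf _).1 hy
      rw [ZFSet.pair_inj] at j3
      rw [← j3.2, huniq Y X j1 k3 j2 k6 (j3.1.trans k4.symm)]
    · obtain ⟨X, k1, k2, rfl⟩ := (hS y).1 hy
      refine ⟨w.rv X, (hf _).2 ⟨X, k1, k2, rfl⟩, fun x hx => ?_⟩
      obtain ⟨Y, j1, _, j3⟩ := (hf _).1 hx
      rw [ZFSet.pair_inj] at j3
      rw [← j3.1, hinj Y X j1 k1 j3.2]
  obtain ⟨w, hw⟩ := h3.exists
  exact ⟨w.M, hw⟩

end

theorem exists_fix : ∃ (l : Cardinal.{0}) (J : Type) (μ : J → Cardinal.{0}), ℵ₀ ≤ l ∧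
    l ^ ℵ₀ = l ∧ #J = l ∧ Function.Injective μ ∧ ∀ j, ℵ₀ ≤ μ j ∧ μ j ^ ℵ₀ = μ j ∧ μ j < l := by
  have hn : Order.IsNormal (fun o : Ordinal.{0} => (beth o).ord) := isNormal_ord.comp isNormal_beth
  let δ := Ordinal.deriv (fun o : Ordinal.{0} => (beth o).ord) (Ordinal.omega 1)
  have h1 : (beth δ).ord = δ := Ordinal.deriv_fp hn _
  have h2 : δ.cof = ℵ₁ := by
    rw [Ordinal.cof_map_of_isNormal (Ordinal.isNormal_deriv _) (Cardinal.isSuccLimit_omega 1),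
      Cardinal.cof_omega_one]
  have h3 : Order.IsSuccLimit δ := h1 ▸ isSuccLimit_ord (aleph0_le_beth δ)
  have h4 : #δ.ToType = beth δ := by
    rw [mk_toType]
    conv_lhs => rw [← h1]
    exact card_ord _
  refine ⟨beth δ, δ.ToType, fun j => beth (Ordinal.typein (α := δ.ToType) (· < ·) j + 1),
    aleph0_le_beth δ, ?_, h4, fun i j h => ?_, fun j => ⟨aleph0_le_beth _, ?_, ?_⟩⟩
  · refine le_antisymm ?_ (self_le_power _ one_le_aleph0)
    have h5 : #(ℕ × δ.ToType) = beth δ := by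
      rw [mk_prod, lift_id, lift_id, mk_nat, h4, aleph0_mul_eq (aleph0_le_beth δ)]
    have h6 := mk_subset_mk_lt_cof (α := ℕ × δ.ToType)
      (h5 ▸ (isStrongLimit_beth.2 h3.isSuccPrelimit).isStrongPrelimit)
    rw [h5, h1, h2] at h6
    refine le_trans ?_ h6.le
    conv_lhs => rw [← h4, ← mk_nat, power_def]
    refine mk_le_of_injective (f := fun f : ℕ → δ.ToType => ⟨Set.range fun n => (n, f n),
      (countable_iff_lt_aleph_one _).1 (Set.countable_range _)⟩) fun f f' h => funext fun n => ?_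
    have h7 : (n, f n) ∈ Set.range fun n => (n, f' n) := by
      rw [← Subtype.mk.inj h]
      exact ⟨n, rfl⟩
    obtain ⟨m, hm⟩ := h7
    cases (Prod.mk.inj hm).1
    exact (Prod.mk.inj hm).2.symm
  · have := beth_strictMono.injective h
    exact Ordinal.typein_injective (α := δ.ToType) (· < ·)
      (Order.succ_injective (by simpa using this))
  · dsimp only
    rw [beth_add_one, ← power_mul, mul_aleph0_eq (aleph0_le_beth _)]
  · exact beth_lt_beth.2 (h3.succ_lt (Ordinal.typein_lt_self j))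

theorem main_max : ∃ M : Set ZFSet.{0}, TransModelZFC M ∧ ∃ C ∈ M, ∃ S ∈ M,
    (∀ x, x ∈ C ↔ x ∈ M ∧ x ⊆ ZFSet.omega) ∧ (∀ y ∈ S, InSpec M y) ∧ EquinumIn M C S := by
  obtain ⟨l, J, μ, hl, hlp, hJ, hμ, hμ'⟩ := exists_fix
  let O := (Order.succ l).ord.ToType
  have h0 : ∀ ν ≤ l, ∃ a : O, #(Set.Iio a) = ν ∧
      ∀ b, b < a ↔ #(Set.Iio b) < ν := fun ν h => exists_init (Order.lt_succ_iff.2 h)
  have : Nonempty O := let ⟨a, _⟩ := h0 0 zero_le; ⟨a⟩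
  choose! ι hι hι' using h0
  have hs1 : ∀ k, Order.succ (μ k) ≤ l := fun k => Order.succ_le_of_lt (hμ' k).2.2
  have hs2 : ∀ k, ℵ₀ < Order.succ (μ k) := fun k => Order.lt_succ_iff.2 (hμ' k).1
  have hs3 : ∀ k, Order.succ (μ k) ^ ℵ₀ = Order.succ (μ k) :=
    fun k => succ_pow (hμ' k).1 (hμ' k).2.1
  let κ : J → O := fun k => ι (Order.succ (μ k))
  have hκ : ∀ k, #(Set.Iio (κ k)) = Order.succ (μ k) := fun k => hι _ (hs1 k)
  have hκ0 : ∀ k, ι ℵ₀ < κ k := fun k => (hι' _ (hs1 k) _).2 (by rw [hι _ hl]; exact hs2 k)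
  let K := Σ k : J, Set.Iio (κ k)
  let cl : K → J := Sigma.fst
  have hKk : ∀ k, #{x : K | cl x = k} = Order.succ (μ k) := by
    intro k
    have : {x : K | cl x = k} = Set.range (Sigma.mk k) := by
      rw [Set.range_sigmaMk]; rfl
    rw [this, mk_range_eq _ sigma_mk_injective, hκ]
  have hK : ∀ k, {x : K | cl x = k}.Infinite := fun k => by
    rw [← Set.infinite_coe_iff, infinite_iff, hKk]
    exact (hs2 k).le
  have hKc : #K ≤ l := by
    rw [mk_sigma]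
    refine (sum_le_sum _ (fun _ => l) (fun k => ?_)).trans ?_
    · rw [hκ]
      exact hs1 k
    · rw [sum_const', hJ, mul_eq_self hl]
  let St := (ℵ₁ : Cardinal.{0}).ord.ToType
  have hSt : #St = ℵ₁ := mk_ord_toType _
  have hSt1 : ∀ a : St, #(Set.Iio a) ≤ ℵ₀ := fun a => by
    rw [← Order.lt_succ_iff, succ_aleph0]
    exact mk_Iio_lt _ a
  have hSt2 : #St ≤ l := by
    refine hSt.le.trans (aleph_one_le_continuum.trans ?_)
    rw [← hlp, ← two_power_aleph0]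
    exact power_le_power_right ((natCast_lt_aleph0 (n := 2)).le.trans hl)
  have hSt3 : ∀ k, #St ≤ Order.succ (μ k) := fun k => by
    rw [hSt, ← succ_aleph0]
    exact Order.succ_le_succ (hμ' k).1
  obtain ⟨b, hb⟩ : ∃ b : St, ∀ α, b ≤ α := by
    obtain ⟨b, _, hb⟩ := exists_init (ν := ℵ₁) (μ := 0) (aleph0_pos.trans aleph0_lt_aleph_one)
    exact ⟨b, fun α => not_lt.1 (fun h => absurd ((hb α).1 h) (by simp))⟩
  let Λ := l.out
  have hΛ : #Λ = l := mk_out _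
  have hNm : #(Nm K Λ St) ≤ l := mk_Nm_le hl hlp hKc hΛ.le hSt2
  obtain ⟨η⟩ := (Cardinal.le_def _ _).1 ((mk_sum_le hl hNm hNm).trans hΛ.ge)
  obtain ⟨e⟩ := (Cardinal.le_def ℕ Λ).1 (mk_nat.trans_le (hl.trans hΛ.ge))
  obtain ⟨g⟩ := (Cardinal.le_def _ _).1 (hNm.trans hJ.ge)
  obtain ⟨P, A, Gen, hF, hGen⟩ := exists_final (Λ := Λ) hK hb
    (fun a => le_aleph0_iff_set_countable.1 (hSt1 a))
    (exists_gt le_rfl hSt1 (hSt ▸ aleph0_lt_aleph_one)) e.injective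
    (fun X => η (.inl X)) (fun X => η (.inr X)) (fun X Y h => Sum.inl.inj (η.injective h))
    (fun X Y h => Sum.inr.inj (η.injective h)) (fun X Y h => by cases η.injective h)
  have hG : ∀ k, #{t : Finset (Nm K Λ St) // (t : Set _) ⊆ Gen k} ≤ Order.succ (μ k) := fun k =>
    mk_finite_subsets (hs2 k).le (hs3 k) (mk_gen_le (hs2 k).le (hs3 k)
      (hKk k).le (hSt3 k) (hGen k))
  have hQ : SigmaClosed Unit := fun _ _ _ => ⟨(), fun _ _ => le_rfl⟩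
  refine exists_big (Q := Unit) hF hQ hK κ (fun i j h => ?_) g g.injective (fun k => ?_)
    (fun k => ?_) (fun k => ?_) (fun k => ?_)
  · have h2 : Order.succ (μ i) = Order.succ (μ j) := by rw [← hκ, ← hκ, h]
    exact hμ (Order.succ_injective h2)
  · refine ⟨fun a => if h : a < κ k then ⟨k, ⟨a, h⟩⟩ else ⟨k, ⟨_, hκ0 k⟩⟩, fun a => ?_,
      fun a (ha : a < κ k) a' (ha' : a' < κ k) h => ?_⟩
    · dsimp only
      split_ifs <;> rfl
    · simp only [ha, ha', dif_pos] at h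
      exact congrArg Subtype.val (sigma_mk_injective (β := fun k => Set.Iio (κ k)) h)
  · refine goodCd_of_br (goodBr_of_equiv (Equiv.refl _)) ?_
    rw [hκ]
    exact hG k
  · refine pres_of_small (hμ' k).1 (small_predense hF.ccc (hμ' k).1 ?_) (fun a ha => ?_) ?_
    · exact mk_le_aleph0.trans (hμ' k).1
    · rw [← Order.lt_succ_iff]
      exact (hι' _ (hs1 k) a).1 ha
    · rw [hκ]
      exact Order.lt_succ _
  · refine ⟨_, hκ0 k, ?_⟩
    rw [← Set.infinite_coe_iff, infinite_iff, hι _ hl]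

end Pool.Agent.P.MP_0e7365_lc
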