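import Pool.Agent.P.MP_0e7365_lc.Limit

/-!
The product of a ccc poset of conditions with a countably closed preorder.
-/

namespace Pool.Agent.P.MP_0e7365_lc

open Classical Cardinal

variable {K Λ St : Type}

/-- Conditions of the product. -/
structure Rc (P : Set (Cond K Λ St)) (Q : Type) : Type where
  p : Cond K Λ St
  hp : p ∈ P
  q : Q

variable {P : Set (Cond K Λ St)} {Q : Type} [Preorder Q]

instance : Preorder (Rc P Q) where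
  le a b := b.p ⊆ a.p ∧ a.q ≤ b.q
  le_refl _ := ⟨subset_rfl, le_rfl⟩
  le_trans _ _ _ h h' := ⟨h'.1.trans h.1, h.2.trans h'.2⟩

theorem Rc.le_def {a b : Rc P Q} : a ≤ b ↔ b.p ⊆ a.p ∧ a.q ≤ b.q := Iff.rfl

/-- Countable chains have lower bounds. -/
def SigmaClosed (Q : Type) [Preorder Q] : Prop :=
  ∀ S : Set Q, S.Countable → (∀ x ∈ S, ∀ y ∈ S, x ≤ y ∨ y ≤ x) → ∃ q, ∀ x ∈ S, q ≤ x

theorem easton1 (hccc : CCC P) (hQ : SigmaClosed Q) (D : Rc P Q → Prop)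
    (hD : ∀ r s, s ≤ r → D r → D s) (r0 : Rc P Q) (hd : ∀ r ≤ r0, ∃ s ≤ r, D s) :
    ∃ q' ≤ r0.q, ∀ p ∈ P, r0.p ⊆ p → ∃ p', ∃ hp' : p' ∈ P, p ⊆ p' ∧ D ⟨p', hp', q'⟩ := by
  obtain ⟨C, hC⟩ := zorn_subset {C : Set (Rc P Q) | (∀ x ∈ C, x ≤ r0 ∧ D x) ∧
      ∀ x ∈ C, ∀ y ∈ C, x ≠ y → ¬ Compat P x.p y.p ∧ (x.q ≤ y.q ∨ y.q ≤ x.q)} (by
    intro c hc hch
    refine ⟨⋃₀ c, ⟨?_, ?_⟩, fun s hs => Set.subset_sUnion_of_mem hs⟩
    · rintro x ⟨s, hs, hx⟩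
      exact (hc hs).1 x hx
    · rintro p ⟨s, hs, hp⟩ q ⟨t, ht, hq⟩ hne
      rcases hch.total hs ht with h | h
      · exact (hc ht).2 p (h hp) q hq hne
      · exact (hc hs).2 p hp q (h hq) hne)
  have hcount : C.Countable := by
    by_contra hu
    obtain ⟨i, hi, j, hj, hne, h⟩ := hccc.family hu (fun x => x.p) (fun x _ => x.hp)
    exact (hC.prop.2 i hi j hj hne).1 h
  obtain ⟨q', hq'⟩ := hQ (insert r0.q ((fun x => x.q) '' C)) ((hcount.image _).insert _) (by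
    rintro _ (rfl | ⟨x, hx, rfl⟩) _ (rfl | ⟨y, hy, rfl⟩)
    · exact Or.inl le_rfl
    · exact Or.inr (hC.prop.1 y hy).1.2
    · exact Or.inl (hC.prop.1 x hx).1.2
    · by_cases h : x = y
      · rw [h]; exact Or.inl le_rfl
      · exact (hC.prop.2 x hx y hy h).2)
  have h0 := hq' _ (Set.mem_insert _ _)
  have h1 : ∀ x ∈ C, q' ≤ x.q := fun x hx => hq' _ (Or.inr ⟨x, hx, rfl⟩)
  refine ⟨q', h0, fun p hp hpp => ?_⟩
  by_cases h : ∃ x ∈ C, Compat P p x.p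
  · obtain ⟨x, hx, p', hp', h2, h3⟩ := h
    exact ⟨p', hp', h2, hD x _ ⟨h3, h1 x hx⟩ (hC.prop.1 x hx).2⟩
  · exfalso
    obtain ⟨s, hs, hDs⟩ := hd ⟨p, hp, q'⟩ ⟨hpp, h0⟩
    have h2 : ∀ x ∈ C, ¬ Compat P s.p x.p := by
      rintro x hx ⟨p', hp', h2, h3⟩
      exact h ⟨x, hx, p', hp', hs.1.trans h2, h3⟩
    have : insert s C ⊆ C := by
      apply hC.le_of_ge (y := insert s C) _ (Set.subset_insert _ _)
      refine ⟨?_, ?_⟩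
      · rintro x (rfl | hx)
        · exact ⟨hs.trans ⟨hpp, h0⟩, hDs⟩
        · exact hC.prop.1 x hx
      · rintro x (rfl | hx) y (rfl | hy) hne
        · exact absurd rfl hne
        · exact ⟨h2 y hy, Or.inl (hs.2.trans (h1 y hy))⟩
        · exact ⟨fun h => h2 x hx h.symm, Or.inr (hs.2.trans (h1 x hx))⟩
        · exact hC.prop.2 x hx y hy hne
    exact h2 s (this (Set.mem_insert _ _)) ⟨s.p, s.hp, subset_rfl, subset_rfl⟩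

theorem easton (hccc : CCC P) (hQ : SigmaClosed Q) {ι : Type} [Countable ι] (D : ι → Rc P Q → Prop)
    (hD : ∀ i r s, s ≤ r → D i r → D i s) (r0 : Rc P Q) (hd : ∀ i, ∀ r ≤ r0, ∃ s ≤ r, D i s) :
    ∃ q' ≤ r0.q, ∀ i, ∀ p ∈ P, r0.p ⊆ p → ∃ p', ∃ hp' : p' ∈ P, p ⊆ p' ∧ D i ⟨p', hp', q'⟩ := by
  rcases isEmpty_or_nonempty ι with h | h
  · exact ⟨r0.q, le_rfl, fun i => isEmptyElim i⟩
  obtain ⟨f, hf⟩ := exists_surjective_nat ι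
  have step : ∀ (n : ℕ) (q : {q // q ≤ r0.q}), ∃ q' : {q // q ≤ r0.q}, q'.1 ≤ q.1 ∧
      ∀ p ∈ P, r0.p ⊆ p → ∃ p', ∃ hp' : p' ∈ P, p ⊆ p' ∧ D (f n) ⟨p', hp', q'.1⟩ := by
    intro n q
    obtain ⟨q', h1, h2⟩ := easton1 hccc hQ (D (f n)) (hD _) ⟨r0.p, r0.hp, q.1⟩
      (fun r hr => hd _ r (hr.trans ⟨subset_rfl, q.2⟩))
    exact ⟨⟨q', h1.trans q.2⟩, h1, h2⟩
  choose g hg hg' using step
  let s : ℕ → {q // q ≤ r0.q} := fun n => Nat.rec ⟨r0.q, le_rfl⟩ (fun n q => g n q) n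
  have hs : Antitone fun n => (s n).1 := antitone_nat_of_succ_le fun n => hg n (s n)
  obtain ⟨q', hq'⟩ := hQ (Set.range fun n => (s n).1) (Set.countable_range _) (by
    rintro _ ⟨n, rfl⟩ _ ⟨m, rfl⟩
    exact (le_total m n).imp (fun h => hs h) (fun h => hs h))
  refine ⟨q', hq' _ ⟨0, rfl⟩, fun i p hp hpp => ?_⟩
  obtain ⟨n, rfl⟩ := hf i
  obtain ⟨p', hp', h1, h2⟩ := hg' n (s n) p hp hpp
  exact ⟨p', hp', h1, hD _ ⟨p', hp', (g n (s n)).1⟩ _ ⟨subset_rfl, hq' _ ⟨n + 1, rfl⟩⟩ h2⟩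

/-- Every open family indexed by `ℕ` is densely described by a name of the first factor. -/
theorem exists_real (hccc : CCC P) (hQ : SigmaClosed Q) (D : ℕ → Rc P Q → Prop)
    (hD : ∀ i r s, s ≤ r → D i r → D i s) (hreg : ∀ i r, (∀ s ≤ r, ∃ u ≤ s, D i u) → D i r)
    (r0 : Rc P Q) : ∃ s ≤ r0, ∃ X : Nm K Λ St, ∀ m, ∀ u ≤ s, (frc P (X m) u.p ↔ D m u) := by
  obtain ⟨q', hq', H⟩ := easton hccc hQ (fun m s => D m s ∨ ∀ u ≤ s, ¬ D m u)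
    (fun i r s h h' => h'.imp (hD i r s h) (fun h'' u hu => h'' u (hu.trans h))) r0 (by
      intro m r _
      by_cases h : ∃ s ≤ r, D m s
      · obtain ⟨s, h1, h2⟩ := h
        exact ⟨s, h1, Or.inl h2⟩
      · push Not at h
        exact ⟨r, le_rfl, Or.inr h⟩)
  have h1 : ∀ m, ∃ t : Tm K Λ St, ∀ p ∈ P, (frc P t p ↔ ∀ q ∈ P, p ⊆ q →
      ∃ r ∈ {p | ∃ hp : p ∈ P, D m ⟨p, hp, q'⟩}, q ⊆ r) := by
    intro m
    obtain ⟨t, _, ht⟩ := hccc.exists_term {p | ∃ hp : p ∈ P, D m ⟨p, hp, q'⟩} (fun p hp => hp.1)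
      (fun p hp q hq hpq => ⟨hq, hD m ⟨p, hp.1, q'⟩ _ ⟨hpq, le_rfl⟩ hp.2⟩) (L := fun _ => True)
      (fun _ _ _ _ => trivial)
    exact ⟨t, ht⟩
  choose X hX using h1
  refine ⟨⟨r0.p, r0.hp, q'⟩, ⟨subset_rfl, hq'⟩, X, fun m u hu => ?_⟩
  rw [hX m u.p u.hp]
  constructor
  · intro h
    apply hreg
    intro s hs
    obtain ⟨p2, ⟨hp2, h2⟩, h3⟩ := h s.p s.hp hs.1
    exact ⟨⟨p2, hp2, s.q⟩, ⟨h3, le_rfl⟩, hD m ⟨p2, hp2, q'⟩ _ ⟨subset_rfl, hs.2.trans hu.2⟩ h2⟩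
  · intro h p1 hp1 h2
    obtain ⟨p2, hp2, h3, h4⟩ := H m p1 hp1 (hu.1.trans h2)
    refine ⟨p2, ⟨hp2, h4.resolve_right (fun h5 => ?_)⟩, h3⟩
    exact h5 ⟨p2, hp2, u.q⟩ ⟨subset_rfl, hu.2⟩ (hD m u _ ⟨h2.trans h3, le_rfl⟩ h)

theorem small_predense (hccc : CCC P) {μ : Cardinal.{0}} (hμ : ℵ₀ ≤ μ) (hQ : #Q ≤ μ)
    (D : Set (Rc P Q)) : ∃ A ⊆ D, #A ≤ μ ∧ ∀ d ∈ D, ∃ a ∈ A, ∃ s, s ≤ d ∧ s ≤ a := by
  have h1 := fun q : Q => hccc.exists_predense {p | ∃ hp : p ∈ P, (⟨p, hp, q⟩ : Rc P Q) ∈ D}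
    (fun p hp => hp.1)
  choose B hB hBc hpre using h1
  refine ⟨⋃ q, {r | r.q = q ∧ r.p ∈ B q}, ?_, ?_, fun d hd => ?_⟩
  · intro r hr
    obtain ⟨q, rfl, h⟩ := Set.mem_iUnion.1 hr
    exact (hB _ h).2
  · refine (mk_iUnion_le _).trans ?_
    have : ⨆ q, #{r : Rc P Q | r.q = q ∧ r.p ∈ B q} ≤ μ := by
      apply ciSup_le'
      intro q
      refine le_trans ?_ hμ
      rw [le_aleph0_iff_set_countable]
      refine Set.countable_of_injective_of_countable_image (f := fun r => r.p) ?_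
        ((hBc q).mono ?_)
      · rintro ⟨p, hp, q1⟩ ⟨h1, _⟩ ⟨p', hp', q2⟩ ⟨h2, _⟩ h
        simp only at h h1 h2
        subst h h1 h2
        rfl
      · rintro _ ⟨r, hr, rfl⟩
        exact hr.2
    exact (mul_le_mul' hQ this).trans (mul_eq_self hμ).le
  · obtain ⟨a, ha, r, hr, h2, h3⟩ := hpre d.q d.p ⟨d.hp, hd⟩
    exact ⟨⟨a, (hB _ ha).1, d.q⟩, Set.mem_iUnion.2 ⟨d.q, rfl, ha⟩, ⟨r, hr, d.q⟩, ⟨h2, le_rfl⟩,
      ⟨h3, le_rfl⟩⟩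

section
variable {R O : Type} [Preorder R] [LinearOrder O]

/-- No initial segment below `κ` can be mapped onto `κ` by the forcing. -/
def Pres (R : Type) [Preorder R] (κ : O) : Prop :=
  ∀ a < κ, ∀ Rel : R → O → O → Prop, (∀ b c r s, s ≤ r → Rel r b c → Rel s b c) → ∀ r0 : R,
    (∀ b < a, ∀ r ≤ r0, ∃ s ≤ r, ∃ c, Rel s b c) →
    (∀ r ≤ r0, ∀ b c c', Rel r b c → Rel r b c' → c = c') →
    ∃ s ≤ r0, ∃ c < κ, ∀ u ≤ s, ∀ b < a, ¬ Rel u b c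

/-- Every dense set contains a predense set of size at most `μ`. -/
def SmallPre (R : Type) [Preorder R] (μ : Cardinal.{0}) : Prop :=
  ∀ D : Set R, ∃ A ⊆ D, #A ≤ μ ∧ ∀ d ∈ D, ∃ a ∈ A, ∃ s, s ≤ d ∧ s ≤ a

theorem pres_of_small {μ : Cardinal.{0}} (hμ : ℵ₀ ≤ μ) (hR : SmallPre R μ) {κ : O}
    (h1 : ∀ a < κ, #(Set.Iio a) ≤ μ) (h2 : μ < #(Set.Iio κ)) : Pres R κ := by
  intro a ha Rel hm r0 _ hf
  have h3 := fun b => hR {r | r ≤ r0 ∧ ∃ c, Rel r b c}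
  choose A hA hAc hpre using h3
  have : Nonempty O := ⟨a⟩
  have h4 : ∀ b, ∀ r ∈ A b, ∃ c, Rel r b c := fun b r hr => (hA b hr).2
  choose! val hval using h4
  have h5 : #(⋃ b : Set.Iio a, val b.1 '' A b.1) < #(Set.Iio κ) := by
    refine lt_of_le_of_lt ((mk_iUnion_le _).trans ?_) h2
    have : ⨆ b : Set.Iio a, #(val b.1 '' A b.1) ≤ μ :=
      ciSup_le' (fun b => mk_image_le.trans (hAc _))
    exact (mul_le_mul' (h1 a ha) this).trans (mul_eq_self hμ).le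
  have h6 : ¬ Set.Iio κ ⊆ ⋃ b : Set.Iio a, val b.1 '' A b.1 :=
    fun h => absurd (mk_le_mk_of_subset h) (not_le.2 h5)
  obtain ⟨c, hc, hc'⟩ := Set.not_subset.1 h6
  refine ⟨r0, le_rfl, c, hc, fun u hu b hb h => hc' ?_⟩
  obtain ⟨x, hx, s, h7, h8⟩ := hpre b u ⟨hu, c, h⟩
  exact Set.mem_iUnion.2 ⟨⟨b, hb⟩, x, hx,
    hf s (h7.trans hu) b _ _ (hm _ _ _ _ h8 (hval b x hx)) (hm _ _ _ _ h7 h)⟩

theorem pres_of_easton (hccc : CCC P) (hQ : SigmaClosed Q) {κ : O}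
    (h1 : ∀ a < κ, (Set.Iio a).Countable) (h2 : ¬ (Set.Iio κ).Countable) : Pres (Rc P Q) κ := by
  intro a ha Rel hm r0 ht hf
  have := (h1 a ha).to_subtype
  obtain ⟨q', hq', H⟩ := easton hccc hQ (fun (b : Set.Iio a) s => ∃ c, Rel s b.1 c)
    (fun b r s h ⟨c, hc⟩ => ⟨c, hm _ _ _ _ h hc⟩) r0 (fun b => ht b.1 b.2)
  have h3 := fun b : O => hccc.exists_predense
    {p | ∃ hp : p ∈ P, r0.p ⊆ p ∧ ∃ c, Rel ⟨p, hp, q'⟩ b c} (fun p hp => hp.1)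
  choose A hA hAc hpre using h3
  have : Nonempty O := ⟨a⟩
  have h4 : ∀ b, ∀ p ∈ A b, ∃ c, ∃ hp : p ∈ P, Rel ⟨p, hp, q'⟩ b c := fun b p hp => by
    obtain ⟨h, _, c, hc⟩ := hA b hp
    exact ⟨c, h, hc⟩
  choose! val hval using h4
  have h5 : (⋃ b : Set.Iio a, val b.1 '' A b.1).Countable :=
    Set.countable_iUnion (fun b => (hAc _).image _)
  have h6 : ¬ Set.Iio κ ⊆ ⋃ b : Set.Iio a, val b.1 '' A b.1 := fun h => h2 (h5.mono h)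
  obtain ⟨c, hc, hc'⟩ := Set.not_subset.1 h6
  refine ⟨⟨r0.p, r0.hp, q'⟩, ⟨subset_rfl, hq'⟩, c, hc, fun u hu b hb h => hc' ?_⟩
  obtain ⟨p1, hp1, h7, h8⟩ := H ⟨b, hb⟩ u.p u.hp hu.1
  obtain ⟨x, hx, p2, hp2, h9, h10⟩ := hpre b p1 ⟨hp1, hu.1.trans h7, h8⟩
  obtain ⟨hx', h11⟩ := hval b x hx
  refine Set.mem_iUnion.2 ⟨⟨b, hb⟩, x, hx, hf ⟨p2, hp2, u.q⟩
    ⟨hu.1.trans (h7.trans h9), hu.2.trans hq'⟩ b _ _ (hm _ _ _ _ ?_ h11) (hm _ _ _ _ ?_ h)⟩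
  · exact ⟨h10, hu.2⟩
  · exact ⟨h7.trans h9, le_rfl⟩

/-- A generic map from `top` to `T` has an unbounded fibre. -/
def Stab (R : Type) [Preorder R] (T : Type) (top : O) : Prop :=
  ∀ Rel : R → O → T → Prop, (∀ a X r s, s ≤ r → Rel r a X → Rel s a X) → ∀ r0 : R,
    ∃ s ≤ r0, (∃ a < top, ∀ u ≤ s, ∀ X, ¬ Rel u a X) ∨
      ∃ X, ∀ a0 < top, ∀ u ≤ s, ∃ u' ≤ u, ∃ a < top, a0 < a ∧ Rel u' a X

theorem stab_of_small {μ : Cardinal.{0}} (hμ : ℵ₀ ≤ μ) (hR : SmallPre R μ) {T : Type}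
    (hT : #T ≤ μ) {top : O} (h1 : ∀ a < top, #(Set.Iio a) ≤ μ) (h2 : μ < #(Set.Iio top)) :
    Stab R T top := by
  intro Rel hm r0
  by_contra hc
  push Not at hc
  have h3 := fun X => hR {r | r ≤ r0 ∧ ∃ a0 < top, ∀ u ≤ r, ∀ a < top, a0 < a → ¬ Rel u a X}
  choose A hA hAc hpre using h3
  have : Nonempty O := ⟨top⟩
  have h4 : ∀ X, ∀ r ∈ A X, ∃ a0 < top, ∀ u ≤ r, ∀ a < top, a0 < a → ¬ Rel u a X :=
    fun X r hr => (hA X hr).2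
  choose! val hval hval' using h4
  have h5 : #(⋃ X : T, ⋃ r : A X, Set.Iic (val X r.1)) < #(Set.Iio top) := by
    refine lt_of_le_of_lt ((mk_iUnion_le _).trans ?_) h2
    have : ⨆ X : T, #(⋃ r : A X, Set.Iic (val X r.1)) ≤ μ := by
      refine ciSup_le' (fun X => (mk_iUnion_le _).trans ?_)
      have : ⨆ r : A X, #(Set.Iic (val X r.1)) ≤ μ := by
        refine ciSup_le' (fun r => ?_)
        rw [← Set.Iio_insert]
        refine mk_insert_le.trans ?_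
        exact (add_le_add (h1 _ (hval X r.1 r.2)) (one_le_aleph0.trans hμ)).trans
          (add_eq_self hμ).le
      exact (mul_le_mul' (hAc X) this).trans (mul_eq_self hμ).le
    exact (mul_le_mul' hT this).trans (mul_eq_self hμ).le
  have h6 : ¬ Set.Iio top ⊆ ⋃ X : T, ⋃ r : A X, Set.Iic (val X r.1) :=
    fun h => absurd (mk_le_mk_of_subset h) (not_le.2 h5)
  obtain ⟨c, hc1, hc'⟩ := Set.not_subset.1 h6
  obtain ⟨u, hu, X, hX⟩ := (hc r0 le_rfl).1 c hc1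
  obtain ⟨a0, ha0, u1, hu1, h7⟩ := (hc u hu).2 X
  obtain ⟨x, hx, s, h8, h9⟩ := hpre X u1 ⟨hu1.trans hu, a0, ha0, h7⟩
  refine hval' X x hx s h9 c hc1 ?_ (hm _ _ _ _ (h8.trans hu1) hX)
  by_contra h10
  exact hc' (Set.mem_iUnion.2 ⟨X, Set.mem_iUnion.2 ⟨⟨x, hx⟩, not_lt.1 h10⟩⟩)

end

end Pool.Agent.P.MP_0e7365_lc
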