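import Pool.Agent.P.MP_0e7365_lc.FZFC
import Pool.Agent.P.MP_0e7365_lc.Prod

/-!
Natural numbers, ordinals, finite sets of ordinals and bijections in the generic extension.
-/

namespace Pool.Agent.P.MP_0e7365_lc

open Filter Classical

/-- The von Neumann natural numbers. -/
def nat (n : ℕ) : ZFSet.{0} := ZFSet.mk (PSet.ofNat n)

theorem nat_succ (n : ℕ) : nat (n + 1) = insert (nat n) (nat n) := rfl

theorem mem_nat {n : ℕ} {x : ZFSet} : x ∈ nat n ↔ ∃ i < n, nat i = x := by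
  induction n with
  | zero => exact ⟨fun h => absurd h (ZFSet.notMem_empty x), fun ⟨_, h, _⟩ => absurd h (by omega)⟩
  | succ n ih =>
    rw [nat_succ, ZFSet.mem_insert_iff, ih]
    constructor
    · rintro (rfl | ⟨i, h, rfl⟩)
      · exact ⟨n, by omega, rfl⟩
      · exact ⟨i, by omega, rfl⟩
    · rintro ⟨i, h, rfl⟩
      rcases Nat.lt_succ_iff_lt_or_eq.1 h with h | rfl
      · exact Or.inr ⟨i, h, rfl⟩
      · exact Or.inl rfl

theorem nat_inj : Function.Injective nat := by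
  intro i j h
  by_contra hne
  rcases lt_or_gt_of_ne hne with h' | h'
  · have : nat i ∈ nat j := mem_nat.2 ⟨i, h', rfl⟩
    rw [h] at this
    exact ZFSet.mem_irrefl _ this
  · have : nat j ∈ nat i := mem_nat.2 ⟨j, h', rfl⟩
    rw [h] at this
    exact ZFSet.mem_irrefl _ this

theorem mem_omega {x : ZFSet.{0}} : x ∈ ZFSet.omega ↔ ∃ n, nat n = x := mem_omega_iff

theorem nat_mem_omega (n : ℕ) : nat n ∈ ZFSet.omega := mem_omega.2 ⟨n, rfl⟩

theorem nat_ordinal (n : ℕ) : (nat n).IsOrdinal := by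
  induction n with
  | zero => exact ZFSet.isOrdinal_empty
  | succ n ih => exact ZFSet.isOrdinal_succ ih

theorem omega_ordinal : ZFSet.omega.{0}.IsOrdinal := by
  rw [ZFSet.isOrdinal_iff_forall_mem_isOrdinal]
  refine ⟨fun x hx y hy => ?_, fun x hx => ?_⟩
  · obtain ⟨n, rfl⟩ := mem_omega.1 hx
    obtain ⟨i, _, rfl⟩ := mem_nat.1 hy
    exact nat_mem_omega i
  · obtain ⟨n, rfl⟩ := mem_omega.1 hx
    exact nat_ordinal n

theorem finite_nat (n : ℕ) : {x | x ∈ nat n}.Finite :=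
  ((Set.finite_lt_nat n).image nat).subset (fun _ hx => mem_nat.1 hx)

theorem finite_of_equinum {M : Set ZFSet} {n s : ZFSet} (hn : n ∈ ZFSet.omega)
    (h : EquinumIn M n s) : {x | x ∈ s}.Finite := by
  obtain ⟨k, rfl⟩ := mem_omega.1 hn
  obtain ⟨f, _, h1, h2⟩ := h
  have h3 : ∀ x ∈ nat k, ∃ y, ZFSet.pair x y ∈ f := fun x hx => (h1.2 x hx).exists
  choose! g hg using h3
  refine ((finite_nat k).image g).subset (fun y hy => ?_)
  obtain ⟨x, hx⟩ := (h2 y hy).exists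
  have hx' := (ZFSet.pair_mem_prod.1 (h1.1 hx)).1
  exact ⟨x, hx', (h1.2 x hx').unique (hg x hx') hx⟩

variable {R : Type} [Preorder R]

theorem ev_nat : ∀ᶠ w in gen R, ∀ n : ℕ, w.val (natName n : Name R) = nat n := ev_val_natName

theorem ev_in_finset (T : Type) : ∀ᶠ w in gen R, ∀ t : Finset T, w.In t ↔ ∀ a ∈ t, w.In a := by
  filter_upwards [ev_all fun t : Finset T => ev_countable_set (P := R) t.countable_toSet,
    ev_all_finset (P := R) (Φ := fun (t : Finset T) w => w.In t) fun t => ev_const t]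
    with w h1 h2 t
  exact ⟨fun h a ha => h1 t h a ha, h2 t⟩

/-- A relation which is forced to be a bijection between `S` and `T`. -/
structure GoodBr {α β : Type} (S : α → Prop) (T : β → Prop) (Br : R → α → β → Prop) : Prop where
  mono : ∀ a b r s, s ≤ r → Br r a b → Br s a b
  dom : ∀ r a b, Br r a b → S a ∧ T b
  func : ∀ r a b b', Br r a b → Br r a b' → b = b'
  inj : ∀ r a a' b, Br r a b → Br r a' b → a = a'
  total : ∀ a, S a → ∀ r, ∃ s ≤ r, ∃ b, Br s a b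
  onto : ∀ b, T b → ∀ r, ∃ s ≤ r, ∃ a, Br s a b

theorem goodBr_of_equiv {α β : Type} {S : α → Prop} {T : β → Prop} (e : {a // S a} ≃ {b // T b}) :
    GoodBr (R := R) S T (fun _ a b => ∃ h : S a, (e ⟨a, h⟩).1 = b) where
  mono := fun _ _ _ _ _ h => h
  dom := fun _ _ _ ⟨h, h'⟩ => ⟨h, h' ▸ (e _).2⟩
  func := fun _ _ _ _ ⟨_, h⟩ ⟨_, h'⟩ => h.symm.trans h'
  inj := fun _ _ _ _ ⟨_, h⟩ ⟨_, h'⟩ =>
    congrArg Subtype.val (e.injective (Subtype.ext (h.trans h'.symm)))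
  total := fun _ h r => ⟨r, le_rfl, _, h, rfl⟩
  onto := fun b h r => ⟨r, le_rfl, (e.symm ⟨b, h⟩).1, (e.symm ⟨b, h⟩).2, by simp⟩

/-- `X` is enumerated without repetition by the values of the names `n i`, `i ∈ S`. -/
def World.Enum (w : World R) {α : Type} (n : α → Name R) (S : α → Prop) (X : ZFSet) : Prop :=
  (∀ x, x ∈ X ↔ ∃ i, w.In i ∧ S i ∧ w.val (n i) = x) ∧
    ∀ i j, w.In i → w.In j → w.val (n i) = w.val (n j) → i = j

theorem ev_dense_val {β : Type} (D : R → β → Prop) (h : ∀ r, ∃ s ≤ r, ∃ b, D s b) :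
    ∀ᶠ w in gen R, ∃ b, w.In b ∧ w.Frc fun r => D r b := by
  filter_upwards [ev_dense0 (fun s => ∃ b, D s b) h, ev_frc_ex D] with w h1 h2
  exact h2.1 h1

theorem ev_bij {α β : Type} (nα : α → Name R) (nβ : β → Name R) {S : α → Prop} {T : β → Prop}
    {Br : R → α → β → Prop} (H : GoodBr S T Br) : ∀ᶠ w in gen R, ∀ X Y : ZFSet,
      w.Enum nα S X → w.Enum nβ T Y → EquinumIn w.M X Y := by
  filter_upwards [ev_generic, ev_val_opair, ev_in_prod α β,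
    ev_val_mem_M (⟨α × β, fun x => opair (nα x.1) (nβ x.2), fun x => {r | Br r x.1 x.2}⟩ : Name R),
    ev_all fun a => ev_dimp fun h : S a => ev_dense_val (fun r b => Br r a b) (H.total a h),
    ev_all fun b => ev_dimp fun h : T b => ev_dense_val (fun r a => Br r a b) (H.onto b h)]
    with w hw h1 h2 h3 h4 h5 X Y hX hY
  have key : ∀ z, z ∈ w.val (⟨α × β, fun x => opair (nα x.1) (nβ x.2),
      fun x => {r | Br r x.1 x.2}⟩ : Name R) ↔ ∃ a b, w.In a ∧ w.In b ∧ (w.Frc fun r => Br r a b) ∧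
        z = ZFSet.pair (w.val (nα a)) (w.val (nβ b)) := by
    intro z
    rw [w.mem_val_mk]
    constructor
    · rintro ⟨⟨a, b⟩, g1, g2, rfl⟩
      rw [w.hit_iff (H.mono a b)] at g2
      exact ⟨a, b, ((h2 _).1 g1).1, ((h2 _).1 g1).2, g2, h1 _ _⟩
    · rintro ⟨a, b, g1, g2, g3, rfl⟩
      exact ⟨(a, b), (h2 _).2 ⟨g1, g2⟩, (w.hit_iff (H.mono a b)).2 g3, h1 _ _⟩
  refine ⟨_, h3, ⟨fun z hz => ?_, fun x hx => ?_⟩, fun y hy => ?_⟩
  · obtain ⟨a, b, g1, g2, ⟨r, _, g3⟩, rfl⟩ := (key z).1 hz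
    exact ZFSet.pair_mem_prod.2 ⟨(hX.1 _).2 ⟨a, g1, (H.dom _ _ _ g3).1, rfl⟩,
      (hY.1 _).2 ⟨b, g2, (H.dom _ _ _ g3).2, rfl⟩⟩
  · obtain ⟨a, g1, g2, rfl⟩ := (hX.1 x).1 hx
    obtain ⟨b, g3, g4⟩ := h4 a g1 g2
    refine ⟨_, (key _).2 ⟨a, b, g1, g3, g4, rfl⟩, fun y hy => ?_⟩
    obtain ⟨a', b', g5, g6, g7, g8⟩ := (key _).1 hy
    rw [ZFSet.pair_inj] at g8
    have := hX.2 _ _ g1 g5 g8.1
    subst this
    obtain ⟨r, _, g9, g10⟩ := hw.frc_and (H.mono a b) (H.mono a b') g4 g7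
    rw [g8.2, H.func _ _ _ _ g9 g10]
  · obtain ⟨b, g1, g2, rfl⟩ := (hY.1 y).1 hy
    obtain ⟨a, g3, g4⟩ := h5 b g1 g2
    refine ⟨_, (key _).2 ⟨a, b, g3, g1, g4, rfl⟩, fun y hy => ?_⟩
    obtain ⟨a', b', g5, g6, g7, g8⟩ := (key _).1 hy
    rw [ZFSet.pair_inj] at g8
    have := hY.2 _ _ g1 g6 g8.2
    subst this
    obtain ⟨r, _, g9, g10⟩ := hw.frc_and (H.mono a b) (H.mono a' b) g4 g7
    rw [g8.1, H.inj _ _ _ _ g9 g10]

theorem ev_enum_nat : ∀ᶠ w in gen R, (∀ n, w.Enum natName (fun i => i < n) (nat n)) ∧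
    w.Enum natName (fun _ => True) ZFSet.omega := by
  filter_upwards [ev_nat, ev_ctype ℕ] with w h1 h2
  have h3 : ∀ i j, w.In i → w.In j → w.val (natName i : Name R) = w.val (natName j) → i = j :=
    fun i j _ _ h => nat_inj (by rwa [h1, h1] at h)
  refine ⟨fun n => ⟨fun x => ?_, h3⟩, fun x => ?_, h3⟩
  · simp only [mem_nat, h1, h2, true_and]
  · simp only [mem_omega, h1, h2, true_and]

variable {O : Type} [LinearOrder O] [WellFoundedLT O]

/-- Names for the elements of a well-order. -/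
noncomputable def ordName : O → Name R :=
  WellFounded.fix (wellFounded_lt (α := O)) fun a rec =>
    ⟨{b // b < a}, fun b => rec b.1 b.2, fun _ => Set.univ⟩

omit [Preorder R] in
theorem ordName_eq (a : O) :
    (ordName a : Name R) = ⟨{b // b < a}, fun b => ordName b.1, fun _ => Set.univ⟩ :=
  WellFounded.fix_eq _ _ _

/-- The ordinal named by `a`. -/
noncomputable def World.ov (w : World R) (a : O) : ZFSet := w.val (ordName a)

theorem ev_mem_ov : ∀ᶠ w in gen R, ∀ a : O, w.In a →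
    ∀ x, x ∈ w.ov a ↔ ∃ b, w.In b ∧ b < a ∧ w.ov b = x := by
  refine ev_all fun a => ?_
  filter_upwards [ev_hit_univ, ev_in_subtype (fun b => b < a)] with w h1 h2 x
  rw [World.ov, ordName_eq, w.mem_val_mk]
  constructor
  · rintro ⟨b, g1, _, rfl⟩
    exact ⟨b.1, (h2 b).1 g1, b.2, rfl⟩
  · rintro ⟨b, g1, g2, rfl⟩
    exact ⟨⟨b, g2⟩, (h2 _).2 g1, h1, rfl⟩

theorem ev_ov : ∀ᶠ w in gen R, (∀ a : O, w.In a → w.Enum ordName (fun b => b < a) (w.ov a)) ∧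
    (∀ a : O, w.In a → (w.ov a).IsOrdinal ∧ w.ov a ∈ w.M) ∧
    (∀ a b : O, w.In a → w.In b → (w.ov a ∈ w.ov b ↔ a < b)) ∧
    ∀ a b : O, w.In a → w.In b → w.ov a = w.ov b → a = b := by
  filter_upwards [ev_mem_ov (O := O), ev_all fun a : O => ev_val_mem_M (ordName a : Name R)]
    with w h1 h2
  have h3 : ∀ a b : O, w.In a → w.In b → a < b → w.ov a ∈ w.ov b :=
    fun a b ha hb h => (h1 b hb _).2 ⟨a, ha, h, rfl⟩
  have h4 : ∀ a b : O, w.In a → w.In b → w.ov a = w.ov b → a = b := by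
    intro a b ha hb h
    rcases lt_trichotomy a b with h' | h' | h'
    · exact absurd (h ▸ h3 a b ha hb h') (ZFSet.mem_irrefl _)
    · exact h'
    · exact absurd (h ▸ h3 b a hb ha h') (ZFSet.mem_irrefl _)
  refine ⟨fun a ha => ⟨h1 a ha, h4⟩, fun a ha => ⟨?_, h2 a ha⟩, fun a b ha hb => ⟨fun h => ?_,
    h3 a b ha hb⟩, h4⟩
  · induction a using WellFoundedLT.induction with
    | ind a ih =>
    rw [ZFSet.isOrdinal_iff_forall_mem_isOrdinal]
    refine ⟨fun x hx y hy => ?_, fun x hx => ?_⟩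
    · obtain ⟨b, g1, g2, rfl⟩ := (h1 a ha x).1 hx
      obtain ⟨c, g3, g4, rfl⟩ := (h1 b g1 y).1 hy
      exact h3 c a g3 ha (g4.trans g2)
    · obtain ⟨b, g1, g2, rfl⟩ := (h1 a ha x).1 hx
      exact ih b g2 g1
  · obtain ⟨c, g1, g2, g3⟩ := (h1 b hb _).1 h
    rwa [← h4 c a g1 ha g3]

/-- Names for finite sets of ordinals. -/
noncomputable def finName (s : Finset O) : Name R :=
  ⟨{a // a ∈ s}, fun a => ordName a.1, fun _ => Set.univ⟩

/-- The finite set of ordinals named by `s`. -/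
noncomputable def World.fv (w : World R) (s : Finset O) : ZFSet := w.val (finName s)

theorem ev_mem_fv : ∀ᶠ w in gen R, ∀ s : Finset O, w.In s →
    ∀ x, x ∈ w.fv s ↔ ∃ a ∈ s, w.ov a = x := by
  refine ev_all fun s => ?_
  filter_upwards [ev_hit_univ, ev_ctype {a // a ∈ s}] with w h1 h2 x
  rw [World.fv, finName, w.mem_val_mk]
  constructor
  · rintro ⟨b, _, _, rfl⟩
    exact ⟨b.1, b.2, rfl⟩
  · rintro ⟨b, g1, rfl⟩
    exact ⟨⟨b, g1⟩, h2 _, h1, rfl⟩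

theorem ev_fv : ∀ᶠ w in gen R, (∀ s : Finset O, w.In s → w.fv s ∈ w.M ∧
    (∃ n ∈ ZFSet.omega, EquinumIn w.M n (w.fv s)) ∧
      ∀ a, w.In a → (w.ov a ∈ w.fv s ↔ a ∈ s)) ∧
    ∀ s t : Finset O, w.In s → w.In t → (w.fv s ⊆ w.fv t ↔ s ⊆ t) := by
  filter_upwards [ev_mem_fv (O := O), ev_ov (O := O), ev_in_finset O, ev_enum_nat,
    ev_all fun s : Finset O => ev_val_mem_M (finName s : Name R),
    ev_all fun s : Finset O => ev_bij (R := R) natName ordName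
      (goodBr_of_equiv (S := fun i => i < s.card) (T := fun a => a ∈ s)
        (Fin.equivSubtype.symm.trans s.equivFin.symm))]
    with w h1 ⟨_, _, _, h2⟩ h3 h4 h5 h6
  have h7 : ∀ s : Finset O, w.In s → ∀ a, w.In a → (w.ov a ∈ w.fv s ↔ a ∈ s) := by
    intro s hs a ha
    rw [h1 s hs]
    constructor
    · rintro ⟨b, hb, h⟩
      rwa [← h2 b a ((h3 s).1 hs b hb) ha h]
    · exact fun h => ⟨a, h, rfl⟩
  refine ⟨fun s hs => ⟨h5 s hs, ⟨nat s.card, nat_mem_omega _, h6 s hs _ _ (h4.1 _) ⟨fun x => ?_,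
    h2⟩⟩, h7 s hs⟩, fun s t hs ht => ⟨fun h a ha => ?_, fun h x hx => ?_⟩⟩
  · rw [h1 s hs]
    exact ⟨fun ⟨a, g1, g2⟩ => ⟨a, (h3 s).1 hs a g1, g1, g2⟩, fun ⟨a, _, g1, g2⟩ => ⟨a, g1, g2⟩⟩
  · have g1 := (h3 s).1 hs a ha
    exact (h7 t ht a g1).1 (h ((h7 s hs a g1).2 ha))
  · obtain ⟨a, g1, rfl⟩ := (h1 s hs x).1 hx
    exact (h1 t ht _).2 ⟨a, h g1, rfl⟩

/-- The name for the set of finite subsets of `κ`. -/
noncomputable def dName (κ : O) : Name R :=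
  ⟨{s : Finset O // ∀ a ∈ s, a < κ}, fun s => finName s.1, fun _ => Set.univ⟩

theorem ev_dName (κ : O) : ∀ᶠ w in gen R, w.val (dName κ) ∈ w.M ∧
    (∀ x, x ∈ w.val (dName κ) ↔ ∃ s : Finset O, w.In s ∧ (∀ a ∈ s, a < κ) ∧ w.fv s = x) ∧
      FinSubsetsIn w.M (w.ov κ) (w.val (dName κ)) := by
  filter_upwards [ev_val_mem_M (dName κ : Name R), ev_hit_univ,
    ev_in_subtype (fun s : Finset O => ∀ a ∈ s, a < κ), ev_fv (O := O), ev_mem_fv (O := O),
    ev_mem_ov (O := O), ev_const κ, ev_in_finset O] with w h1 h2 h3 h4 h5 h6 h7 h8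
  have key : ∀ x, x ∈ w.val (dName κ) ↔
      ∃ s : Finset O, w.In s ∧ (∀ a ∈ s, a < κ) ∧ w.fv s = x := by
    intro x
    rw [dName, w.mem_val_mk]
    constructor
    · rintro ⟨s, g1, _, rfl⟩
      exact ⟨s.1, (h3 s).1 g1, s.2, rfl⟩
    · rintro ⟨s, g1, g2, rfl⟩
      exact ⟨⟨s, g2⟩, (h3 _).2 g1, h2, rfl⟩
  refine ⟨h1, key, fun x => ?_⟩
  rw [key]
  constructor
  · rintro ⟨s, g1, g2, rfl⟩
    refine ⟨(h4.1 s g1).1, fun y hy => ?_, (h4.1 s g1).2.1⟩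
    obtain ⟨a, g3, rfl⟩ := (h5 s g1 y).1 hy
    exact (h6 κ h7 _).2 ⟨a, (h8 s).1 g1 a g3, g2 a g3, rfl⟩
  · rintro ⟨_, g2, n, g3, g4⟩
    have g5 := finite_of_equinum g3 g4
    have g6 : ∀ y ∈ x, ∃ a, w.In a ∧ a < κ ∧ w.ov a = y := fun y hy => (h6 κ h7 y).1 (g2 hy)
    have : Nonempty O := ⟨κ⟩
    choose! φ hφ using g6
    have g7 : w.In (g5.toFinset.image φ) := (h8 _).2 (fun a ha => by
      obtain ⟨y, hy, rfl⟩ := Finset.mem_image.1 ha
      exact (hφ y (g5.mem_toFinset.1 hy)).1)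
    refine ⟨g5.toFinset.image φ, g7, fun a ha => ?_, ?_⟩
    · obtain ⟨y, hy, rfl⟩ := Finset.mem_image.1 ha
      exact (hφ y (g5.mem_toFinset.1 hy)).2.1
    · ext y
      rw [h5 _ g7]
      constructor
      · rintro ⟨a, ha, rfl⟩
        obtain ⟨y, hy, rfl⟩ := Finset.mem_image.1 ha
        rw [(hφ y (g5.mem_toFinset.1 hy)).2.2]
        exact g5.mem_toFinset.1 hy
      · exact fun hy => ⟨φ y, Finset.mem_image_of_mem _ (g5.mem_toFinset.2 hy), (hφ y hy).2.2⟩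

theorem ev_pair_mem (σ τ ρ : Name R) : ∀ᶠ w in gen R,
    ZFSet.pair (w.val σ) (w.val τ) ∈ w.val ρ ↔ w.Frc (FMem (opair σ τ) ρ) := by
  filter_upwards [ev_val_opair, ev_val_mem (opair σ τ) ρ] with w h1 h2
  rw [← h1, h2]

theorem ev_card {κ : O} (hκ : Pres R κ) : ∀ᶠ w in gen R, CardIn w.M (w.ov κ) := by
  have key : ∀ a < κ, ∀ σ : Name R, ∀ᶠ w in gen R, ¬ (ZFSet.IsFunc (w.ov a) (w.ov κ) (w.val σ) ∧
      ∀ y ∈ w.ov κ, ∃! x, ZFSet.pair x y ∈ w.val σ) := by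
    intro a ha σ
    let Rel : R → O → O → Prop := fun r b c => FMem (opair (ordName b) (ordName c)) σ r
    have hm : ∀ b c r s, s ≤ r → Rel r b c → Rel s b c := fun b c r s h h' => h'.mono h
    filter_upwards [ev_generic, ev_ov (O := O), ev_const a, ev_const κ, ev_in_prod O (O × O),
      ev_in_prod O O, ev_all fun b : O => ev_all fun c : O => ev_pair_mem (ordName b) (ordName c) σ,
      ev_dense_val (fun s (x : O × O × O) => (x.1 < a ∧ ∀ u ≤ s, ∀ c, ¬ Rel u x.1 c) ∨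
        (x.2.1 ≠ x.2.2 ∧ Rel s x.1 x.2.1 ∧ Rel s x.1 x.2.2) ∨
        (x.1 < κ ∧ ∀ u ≤ s, ∀ b < a, ¬ Rel u b x.1)) (by
          intro r
          by_contra hc
          push Not at hc
          obtain ⟨s, h1, c, h2, h3⟩ := hκ a ha Rel hm r (fun b hb s hs => by
            obtain ⟨u, g1, g2⟩ := (hc s hs (b, b, b)).1 hb
            exact ⟨u, g1, g2⟩) (fun s hs b c c' g1 g2 => by
              by_contra hne
              exact (hc s hs (b, c, c')).2.1 hne g1 g2)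
          obtain ⟨u, g1, b, g2, g3⟩ := (hc s h1 (c, c, c)).2.2 h2
          exact h3 u g1 b g2 g3)]
      with w hw ⟨h1, _, h2, h3⟩ h4 h5 h6 h7 h8 ⟨⟨b, c, c'⟩, h9, s, hs, h10⟩ ⟨hf, hg⟩
    obtain ⟨g1, g2⟩ := (h6 _).1 h9
    obtain ⟨g2, g3⟩ := (h7 _).1 g2
    simp only at g1 g2 g3 h10
    rcases h10 with ⟨g4, g5⟩ | ⟨g4, g5, g6⟩ | ⟨g4, g5⟩
    · obtain ⟨y, hy⟩ := (hf.2 _ ((h2 b a g1 h4).2 g4)).exists
      obtain ⟨d, g6, _, rfl⟩ := ((h1 κ h5).1 y).1 (ZFSet.pair_mem_prod.1 (hf.1 hy)).2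
      obtain ⟨r, hr, g7⟩ := (h8 b g1 d g6).1 hy
      obtain ⟨u, _, g8, g9⟩ := hw.dir r hr s hs
      exact g5 u g9 d (g7.mono g8)
    · have g7 := (h8 b g1 c g2).2 ⟨s, hs, g5⟩
      have g8 := (h8 b g1 c' g3).2 ⟨s, hs, g6⟩
      exact g4 (h3 c c' g2 g3
        ((hf.2 _ (ZFSet.pair_mem_prod.1 (hf.1 g7)).1).unique g7 g8))
    · obtain ⟨x, hx⟩ := (hg _ ((h2 b κ g1 h5).2 g4)).exists
      obtain ⟨d, g6, g7, rfl⟩ := ((h1 a h4).1 x).1 (ZFSet.pair_mem_prod.1 (hf.1 hx)).1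
      obtain ⟨r, hr, g8⟩ := (h8 d g6 b g1).1 hx
      obtain ⟨u, _, g9, g10⟩ := hw.dir r hr s hs
      exact g5 u g10 d g7 (g8.mono g9)
  filter_upwards [ev_ov (O := O), ev_const κ,
    ev_all fun a => ev_dimp fun h : a < κ => ev_all fun σ => key a h σ] with w h1 h2 h3
  refine ⟨(h1.2.1 κ h2).2, (h1.2.1 κ h2).1, fun x hx ⟨f, ⟨σ, g1, g2⟩, g3⟩ => ?_⟩
  obtain ⟨a, g4, g5, rfl⟩ := ((h1.1 κ h2).1 x).1 hx
  subst g2
  exact h3 a g4 g5 σ g1 g3

theorem ev_omega_mem {κ a : O} (ha : a < κ) (hi : (Set.Iio a).Infinite) :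
    ∀ᶠ w in gen R, ZFSet.omega ∈ w.ov κ := by
  filter_upwards [ev_ov (O := O), ev_const κ, ev_const a,
    ev_call fun n => ev_const (P := R) (hi.natEmbedding _ n).1] with w ⟨_, h1, h2, h3⟩ h4 h5 h6
  refine omega_ordinal.mem_of_subset_of_mem (h1 κ h4).1 ?_ ((h2 a κ h5 h4).2 ha)
  rw [← (h1 a h5).1.notMem_iff_subset omega_ordinal]
  intro h
  obtain ⟨n, hn⟩ := mem_omega.1 h
  have := finite_nat n
  rw [hn] at this
  refine Set.infinite_of_injective_forall_mem (f := fun n => w.ov (hi.natEmbedding _ n).1)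
    (fun i j h => ?_) (fun i => ?_) this
  · exact (hi.natEmbedding _).injective (Subtype.ext (h3 _ _ (h6 i) (h6 j) h))
  · exact (h2 _ _ (h6 i) h5).2 (hi.natEmbedding _ i).2

theorem ev_not_card {a : O} (h : (Set.Iio a).Countable ∨
    ∃ b < a, ∃ Br : R → O → O → Prop, GoodBr (fun x => x < b) (fun x => x < a) Br) :
    ∀ᶠ w in gen R, ¬ (CardIn w.M (w.ov a) ∧ ZFSet.omega ∈ w.ov a) := by
  rcases h with h | ⟨b, hb, Br, h⟩
  · by_cases hf : (Set.Iio a).Finite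
    · filter_upwards [ev_ov (O := O), ev_const a] with w ⟨h1, h2, _⟩ h3 ⟨_, h4⟩
      have h5 : {x | x ∈ w.ov a}.Finite := (hf.image w.ov).subset (fun x hx => by
        obtain ⟨b, _, g1, g2⟩ := ((h1 a h3).1 x).1 hx
        exact ⟨b, g1, g2⟩)
      exact Set.infinite_of_injective_forall_mem nat_inj
        (fun i => (h2 a h3).1.subset_of_mem h4 (nat_mem_omega i)) h5
    · have h1 := h.to_subtype
      have h2 := Set.Infinite.to_subtype hf
      obtain ⟨d⟩ := nonempty_denumerable (Set.Iio a)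
      filter_upwards [ev_ov (O := O), ev_const a, ev_enum_nat, ev_bij (R := R) natName ordName
        (goodBr_of_equiv (S := fun _ : ℕ => True) (T := fun x => x < a)
          ((Equiv.subtypeUnivEquiv (fun _ => trivial)).trans (Denumerable.eqv (Set.Iio a)).symm))]
        with w h1 h2 h3 h4 ⟨h5, h6⟩
      exact h5.2.2 _ h6 (h4 _ _ h3.2 (h1.1 a h2))
  · filter_upwards [ev_ov (O := O), ev_const a, ev_const b, ev_bij (R := R) ordName ordName h]
      with w h1 h2 h3 h4 ⟨h5, _⟩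
    exact h5.2.2 _ ((h1.2.2.1 b a h3 h2).2 hb) (h4 _ _ (h1.1 b h3) (h1.1 a h2))

end Pool.Agent.P.MP_0e7365_lc
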