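import Pool.Agent.P.MP_0e7365_lc.Sem1

/-!
The upper bound for the spectrum, and the reals of the extension by the product.
-/

namespace Pool.Agent.P.MP_0e7365_lc

open Filter Classical

section
variable {R : Type} [Preorder R] {O : Type} [LinearOrder O] [WellFoundedLT O]

theorem ev_upper {T : Type} (nm : T → Name R) {top : O} (hs : Stab R T top) {a1 : O}
    (ha1 : a1 < top)
    (hcap : ∀ᶠ w in gen R, ∀ x ∈ w.M, x ⊆ ZFSet.omega → ∃ X, w.In X ∧ w.val (nm X) = x) :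
    ∀ᶠ w in gen R, ∀ κ, InSpec w.M κ → κ ∈ w.ov top := by
  have key : ∀ σ : Name R, ∀ᶠ w in gen R, ∀ κ U D : ZFSet, U ∈ w.M → (∀ X ∈ U, X ⊆ ZFSet.omega) →
      FinSubsetsIn w.M κ D → w.ov top ⊆ κ → ZFSet.IsFunc D U (w.val σ) →
      (∀ A ∈ w.M, A ⊆ D → (¬ ∃ b ∈ D, ∀ x ∈ A, x ⊆ b) →
        ¬ ∃ c ∈ U, ∀ x ∈ A, ∀ y, ZFSet.pair x y ∈ w.val σ → c ⊆ y) → False := by
    intro σ
    let Rel : R → O → T → Prop := fun r a X => FMem (opair (finName {a}) (nm X)) σ r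
    have hm : ∀ b c r s, s ≤ r → Rel r b c → Rel s b c := fun b c r s h h' => h'.mono h
    have : Nonempty T ∨ IsEmpty T := (isEmpty_or_nonempty T).symm
    filter_upwards [ev_generic, ev_trans, hcap, ev_ov (O := O), ev_fv (O := O), ev_mem_fv (O := O),
      ev_const top, ev_const a1, ev_fun (fun a : O => ({a} : Finset O)), ev_in_sum O T,
      ev_all fun a : O => ev_all fun X : T => ev_pair_mem (finName ({a} : Finset O)) (nm X) σ,
      ev_all fun X : T => ev_val_mem_M (⟨O, fun a => finName {a},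
        fun a => {r | a < top ∧ Rel r a X}⟩ : Name R),
      ev_all fun X : T => ev_all fun a0 : O =>
        ev_dense_ex (fun r a => a < top ∧ a0 < a ∧ Rel r a X),
      ev_dense_val (fun s (x : O ⊕ T) => (∃ a, x = .inl a ∧ a < top ∧ ∀ u ≤ s, ∀ X, ¬ Rel u a X) ∨
        ∃ X, x = .inr X ∧ ∀ a0 < top, ∀ u ≤ s, ∃ u' ≤ u, ∃ a < top, a0 < a ∧ Rel u' a X) (by
          intro r
          obtain ⟨s, h1, ⟨a, h2⟩ | ⟨X, h2⟩⟩ := hs Rel hm r
          · exact ⟨s, h1, .inl a, Or.inl ⟨a, rfl, h2⟩⟩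
          · exact ⟨s, h1, .inr X, Or.inr ⟨X, rfl, h2⟩⟩)]
      with w hw htr hcap ⟨h1, _, h2, h3⟩ h4 h5 h6 h7 h8 h9 h10 h11 h12 ⟨x, hx, s, hs, h13⟩
        κ U D hU hU' hD hκ hf hA
    have hsing : ∀ a, w.In a → a < top → w.fv {a} ∈ D := by
      intro a g1 g2
      refine (hD _).2 ⟨(h4.1 _ (h8 a g1)).1, fun y hy => ?_, (h4.1 _ (h8 a g1)).2.1⟩
      obtain ⟨b, g3, rfl⟩ := (h5 _ (h8 a g1) y).1 hy
      rw [Finset.mem_singleton.1 g3]
      exact hκ ((h2 a top g1 h6).2 g2)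
    rcases h13 with ⟨a, rfl, g1, g2⟩ | ⟨X, rfl, g1⟩
    · have g3 := (h9.1 a).1 hx
      obtain ⟨y, hy⟩ := (hf.2 _ (hsing a g3 g1)).exists
      have g4 := (ZFSet.pair_mem_prod.1 (hf.1 hy)).2
      obtain ⟨X, g5, rfl⟩ := hcap y (htr U hU y g4) (hU' y g4)
      obtain ⟨r, hr, g6⟩ := (h10 a g3 X g5).1 hy
      obtain ⟨u, _, g7, g8⟩ := hw.dir r hr s hs
      exact g2 u g8 X (g6.mono g7)
    · have g2 := (h9.2 X).1 hx
      let S : Set O := {a | w.In a ∧ a < top ∧ w.Frc fun r => Rel r a X}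
      have hS : ∀ a0, w.In a0 → a0 < top → ∃ a ∈ S, a0 < a := by
        intro a0 g3 g4
        obtain ⟨r, hr, _, a, g5, g6, g7, g8⟩ := h12 X g2 a0 g3 s hs (fun u hu => by
          obtain ⟨u', k1, a, k2, k3, k4⟩ := g1 a0 g4 u hu
          exact ⟨u', k1, a, k2, k3, k4⟩)
        exact ⟨a, ⟨g5, g6, r, hr, g8⟩, g7⟩
      have hmem : ∀ z, z ∈ w.val (⟨O, fun a => finName {a},
          fun a => {r | a < top ∧ Rel r a X}⟩ : Name R) ↔ ∃ a ∈ S, w.fv {a} = z := by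
        intro z
        rw [w.mem_val_mk]
        constructor
        · rintro ⟨a, k1, k2, rfl⟩
          rw [w.hit_iff (fun p q h h' => ⟨h'.1, hm _ _ _ _ h h'.2⟩)] at k2
          obtain ⟨r, hr, k3, k4⟩ := k2
          exact ⟨a, ⟨k1, k3, r, hr, k4⟩, rfl⟩
        · rintro ⟨a, ⟨k1, k3, r, hr, k4⟩, rfl⟩
          exact ⟨a, k1, (w.hit_iff (fun p q h h' => ⟨h'.1, hm _ _ _ _ h h'.2⟩)).2
            ⟨r, hr, k3, k4⟩, rfl⟩
      obtain ⟨a2, g3, _⟩ := hS a1 h7 ha1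
      refine hA _ (h11 X g2) (fun z hz => ?_) ?_ ⟨w.val (nm X), ?_, fun z hz y hy => ?_⟩
      · obtain ⟨a, k1, rfl⟩ := (hmem z).1 hz
        exact hsing a k1.1 k1.2.1
      · rintro ⟨b, k1, k2⟩
        obtain ⟨_, _, n, k3, k4⟩ := (hD b).1 k1
        have k5 := finite_of_equinum k3 k4
        have k6 : S.Finite := by
          refine Set.Finite.of_finite_image (f := w.ov) (k5.subset ?_)
            (fun a ha b hb h => h3 a b ha.1 hb.1 h)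
          rintro _ ⟨a, ha, rfl⟩
          exact k2 _ ((hmem _).2 ⟨a, ha, rfl⟩)
            ((h5 _ (h8 a ha.1) _).2 ⟨a, Finset.mem_singleton_self a, rfl⟩)
        obtain ⟨a, k7, k8⟩ := Set.exists_max_image S id k6 ⟨a2, g3⟩
        obtain ⟨c, k9, k10⟩ := hS a k7.1 k7.2.1
        exact absurd (k8 c k9) (not_le.2 k10)
      · exact (ZFSet.pair_mem_prod.1 (hf.1 ((h10 a2 g3.1 X g2).2 g3.2.2))).2
      · obtain ⟨a, k1, rfl⟩ := (hmem z).1 hz
        rw [(hf.2 _ (hsing a k1.1 k1.2.1)).unique hy ((h10 a k1.1 X g2).2 k1.2.2)]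
  filter_upwards [ev_all key, ev_ov (O := O), ev_const top] with w h1 h2 h3 κ
    ⟨h4, _, U, h5, D, _, h6, h7, _, f, ⟨σ, h8, h9⟩, h10, h11⟩
  subst h9
  rcases h4.2.1.mem_or_subset (h2.2.1 top h3).1 with h | h
  · exact h
  · exact (h1 σ h8 κ U D h5 h6.1 h7 h h10 h11).elim

end

variable {K Λ St : Type} {P : Set (Cond K Λ St)} {Q : Type} [Preorder Q]

/-- The term `t` holds in the extension. -/
def World.Has (w : World (Rc P Q)) (t : Tm K Λ St) : Prop := w.Frc fun r => frc P t r.p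

/-- The name of the product given by a name of the first factor. -/
def nmName (X : Nm K Λ St) : Name (Rc P Q) := ⟨ℕ, natName, fun m => {r | frc P (X m) r.p}⟩

/-- The real named by `X`. -/
noncomputable def World.rv (w : World (Rc P Q)) (X : Nm K Λ St) : ZFSet := w.val (nmName X)

theorem frc_monoR (t : Tm K Λ St) (r s : Rc P Q) (h : s ≤ r) (h' : frc P t r.p) : frc P t s.p :=
  frc_mono h' h.1

theorem ev_rv : ∀ᶠ w in gen (Rc P Q), ∀ X : Nm K Λ St, w.rv X ⊆ ZFSet.omega ∧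
    ∀ m, nat m ∈ w.rv X ↔ w.Has (X m) := by
  filter_upwards [ev_nat, ev_ctype ℕ] with w h1 h2 X
  have key : ∀ x, x ∈ w.rv X ↔ ∃ m, w.Has (X m) ∧ nat m = x := by
    intro x
    rw [World.rv, nmName, w.mem_val_mk]
    simp only [h1, h2, true_and, w.hit_iff (frc_monoR _)]
    rfl
  refine ⟨fun x hx => ?_, fun m => ?_⟩
  · obtain ⟨m, _, rfl⟩ := (key x).1 hx
    exact nat_mem_omega m
  · rw [key]
    exact ⟨fun ⟨k, g1, g2⟩ => nat_inj g2 ▸ g1, fun h => ⟨m, h, rfl⟩⟩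

theorem subset_of_nat {x y : ZFSet} (hx : x ⊆ ZFSet.omega) (h : ∀ m, nat m ∈ x → nat m ∈ y) :
    x ⊆ y := by
  intro z hz
  obtain ⟨m, rfl⟩ := mem_omega.1 (hx hz)
  exact h m hz

theorem eq_of_nat {x y : ZFSet} (hx : x ⊆ ZFSet.omega) (hy : y ⊆ ZFSet.omega)
    (h : ∀ m, nat m ∈ x ↔ nat m ∈ y) : x = y :=
  ZFSet.ext (fun _ => ⟨fun hz => subset_of_nat hx (fun m => (h m).1) hz,
    fun hz => subset_of_nat hy (fun m => (h m).2) hz⟩)

theorem ev_has_neg (t : Tm K Λ St) : ∀ᶠ w in gen (Rc P Q), w.Has (.neg t) ↔ ¬ w.Has t := by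
  filter_upwards [ev_frc_not (fun r : Rc P Q => frc P t r.p) (frc_monoR t)] with w h
  rw [World.Has, World.Has, ← h]
  constructor
  · rintro ⟨r, hr, h⟩
    exact ⟨r, hr, fun q hq => h q.p q.hp hq.1⟩
  · rintro ⟨r, hr, h⟩
    exact ⟨r, hr, fun q hq hrq => h ⟨q, hq, r.q⟩ ⟨hrq, le_rfl⟩⟩

theorem World.Generic.has_finset {w : World (Rc P Q)} (hw : w.Generic) {r : Rc P Q} (hr : r ∈ w.G)
    {ι : Type} (t : Finset ι) (f : ι → Tm K Λ St) (h : ∀ i ∈ t, w.Has (f i)) :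
    ∃ s ∈ w.G, s ≤ r ∧ ∀ i ∈ t, frc P (f i) s.p :=
  hw.dir_finset hr t (fun i r => frc P (f i) r.p) (fun i => frc_monoR (f i)) h

/-- The intersection of the members of `t` is contained in `Y`. -/
def World.Cap (w : World (Rc P Q)) (t : Finset (Nm K Λ St)) (Y : ZFSet) : Prop :=
  ∀ m, (∀ E ∈ t, w.Has (E m)) → nat m ∈ Y

theorem ev_subF (t : Finset (Nm K Λ St)) (X : Nm K Λ St) : ∀ᶠ w in gen (Rc P Q),
    (w.Frc fun r => SubF P r.p t X) ↔ w.Cap t (w.rv X) := by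
  filter_upwards [ev_generic, ev_rv, ev_dense0 (fun r : Rc P Q => SubF P r.p t X ∨
    ∃ m, (∀ E ∈ t, frc P (E m) r.p) ∧ frc P (.neg (X m)) r.p) (by
      intro r
      by_cases h : SubF P r.p t X
      · exact ⟨r, le_rfl, Or.inl h⟩
      · unfold SubF at h
        push Not at h
        obtain ⟨q, hq, h1, m, h2, h3⟩ := h
        obtain ⟨q', hq', h4, h5⟩ := exists_frc_neg h3
        exact ⟨⟨q', hq', r.q⟩, ⟨h1.trans h4, le_rfl⟩,
          Or.inr ⟨m, fun E hE => frc_mono (h2 E hE) h4, h5⟩⟩)] with w hw h1 ⟨r, hr, h2⟩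
  constructor
  · rintro ⟨s, hs, h⟩ m hm
    obtain ⟨u, hu, h3, h4⟩ := hw.has_finset hs t (fun E => E m) hm
    exact ((h1 X).2 m).2 ⟨u, hu, h u.p u.hp h3.1 m h4⟩
  · intro h
    rcases h2 with h2 | ⟨m, h2, h3⟩
    · exact ⟨r, hr, h2⟩
    · obtain ⟨s, hs, h4⟩ := ((h1 X).2 m).1 (h m (fun E hE => ⟨r, hr, h2 E hE⟩))
      obtain ⟨u, _, h5, h6⟩ := hw.dir r hr s hs
      exact (not_frc_both u.hp (frc_mono h4 h6.1) (frc_mono h3 h5.1)).elim

theorem ev_capture (hccc : CCC P) (hQ : SigmaClosed Q) : ∀ᶠ w in gen (Rc P Q),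
    ∀ x ∈ w.M, x ⊆ ZFSet.omega → ∃ X : Nm K Λ St, w.In X ∧ w.rv X = x := by
  refine ev_all_M fun σ => ?_
  filter_upwards [ev_generic, ev_rv, ev_nat, ev_call fun m => ev_val_mem (natName m) σ,
    ev_dense_val (fun s (X : Nm K Λ St) => ∀ m, ∀ u ≤ s,
      (frc P (X m) u.p ↔ FMem (natName m) σ u)) (exists_real hccc hQ (fun m u => FMem (natName m) σ u)
        (fun _ _ _ h h' => FMem.mono h' h) (fun _ _ h => FMem.reg h))]
    with w hw h1 h2 h3 ⟨X, h4, s, hs, h5⟩ h6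
  refine ⟨X, h4, eq_of_nat (h1 X).1 h6 (fun m => ?_)⟩
  rw [(h1 X).2, ← h2, h3]
  constructor
  · rintro ⟨r, hr, h⟩
    obtain ⟨u, hu, h7, h8⟩ := hw.dir r hr s hs
    exact ⟨u, hu, (h5 m u h8).1 (frc_mono h h7.1)⟩
  · rintro ⟨r, hr, h⟩
    obtain ⟨u, hu, h7, h8⟩ := hw.dir r hr s hs
    exact ⟨u, hu, (h5 m u h8).2 (h.mono h7)⟩

/-- The intersection of finitely many names. -/
noncomputable def capN (t : Finset (Nm K Λ St)) : Nm K Λ St :=
  fun m => cconj (fun E : {E // E ∈ t} => E.1 m)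

theorem ev_capN : ∀ᶠ w in gen (Rc P Q), ∀ (t : Finset (Nm K Λ St)) m,
    w.Has (capN t m) ↔ ∀ E ∈ t, w.Has (E m) := by
  filter_upwards [ev_generic, ev_nonempty] with w hw ⟨r, hr⟩ t m
  constructor
  · rintro ⟨s, hs, h⟩ E hE
    exact ⟨s, hs, frc_cconj.1 h ⟨E, hE⟩⟩
  · intro h
    obtain ⟨s, hs, _, h'⟩ := hw.has_finset hr t (fun E => E m) h
    exact ⟨s, hs, frc_cconj.2 (fun E => h' E.1 E.2)⟩

/-- The name of the filter generated by `G`. -/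
def uName (G : Set (Nm K Λ St)) : Name (Rc P Q) :=
  ⟨Nm K Λ St, nmName, fun X => {r | ∃ t : Finset (Nm K Λ St), (t : Set _) ⊆ G ∧ SubF P r.p t X}⟩

theorem ev_uName (hccc : CCC P) (hQ : SigmaClosed Q) (G : Set (Nm K Λ St)) :
    ∀ᶠ w in gen (Rc P Q), w.val (uName G) ∈ w.M ∧ ∀ Y, Y ∈ w.val (uName G) ↔
      Y ∈ w.M ∧ Y ⊆ ZFSet.omega ∧
        ∃ t : Finset (Nm K Λ St), w.In t ∧ (t : Set _) ⊆ G ∧ w.Cap t Y := by
  filter_upwards [ev_val_mem_M (uName G : Name (Rc P Q)), ev_capture hccc hQ, ev_rv,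
    ev_all fun X : Nm K Λ St => ev_val_mem_M (nmName X : Name (Rc P Q)),
    ev_all fun X : Nm K Λ St => ev_frc_ex (fun (r : Rc P Q) (t : Finset (Nm K Λ St)) =>
      (t : Set _) ⊆ G ∧ SubF P r.p t X),
    ev_all fun t : Finset (Nm K Λ St) => ev_all fun X : Nm K Λ St => ev_subF (P := P) (Q := Q) t X]
    with w h1 h2 h3 h4 h5 h6
  refine ⟨h1, fun Y => ?_⟩
  have hm : ∀ X : Nm K Λ St, ∀ p q : Rc P Q, q ≤ p →
      (∃ t : Finset (Nm K Λ St), (t : Set _) ⊆ G ∧ SubF P p.p t X) →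
      ∃ t : Finset (Nm K Λ St), (t : Set _) ⊆ G ∧ SubF P q.p t X :=
    fun X p q h ⟨t, g1, g2⟩ => ⟨t, g1, g2.mono h.1⟩
  rw [uName, w.mem_val_mk]
  constructor
  · rintro ⟨X, g1, g2, rfl⟩
    rw [w.hit_iff (hm X), h5 X g1] at g2
    obtain ⟨t, g3, r, hr, g4, g5⟩ := g2
    exact ⟨h4 X g1, (h3 X).1, t, g3, g4, (h6 t g3 X g1).1 ⟨r, hr, g5⟩⟩
  · rintro ⟨g1, g2, t, g3, g4, g5⟩
    obtain ⟨X, g6, rfl⟩ := h2 Y g1 g2
    obtain ⟨r, hr, g7⟩ := (h6 t g3 X g6).2 g5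
    exact ⟨X, g6, (w.hit_iff (hm X)).2 ⟨r, hr, t, g4, g7⟩, rfl⟩

end Pool.Agent.P.MP_0e7365_lc
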