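import Pool.Agent.P.MP_0e7365_lc.Sem2

/-!
The generated filters are ultrafilters which are Tukey equivalent to the finite subsets of `κ`.
-/

namespace Pool.Agent.P.MP_0e7365_lc

open Filter Classical

variable {K Λ St J : Type} {P : Set (Cond K Λ St)} {Q : Type} [Preorder Q]
  {cl : K → J} {A : K → Nm K Λ St} {Gen : J → Set (Nm K Λ St)}

theorem ev_fin (hF : Final cl P A Gen) (k : J) : ∀ᶠ w in gen (Rc P Q),
    ∀ t : Finset (Nm K Λ St), w.In t → (t : Set _) ⊆ Gen k → ∃ s : Finset K, w.In s ∧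
      ∀ β, w.In β → cl β = k → β ∉ s → ∃ m, (∀ E ∈ t, w.Has (E m)) ∧ ¬ w.Has (A β m) := by
  refine ev_all fun t => ev_imp fun ht => ?_
  filter_upwards [ev_generic, ev_all fun β : K => ev_dense fun u : Rc P Q =>
      ∃ m, (∀ E ∈ t, frc P (E m) u.p) ∧ frc P (.neg (A β m)) u.p,
    ev_dense_val (fun (r : Rc P Q) (s : Finset K) => ∀ β, cl β = k → β ∉ s → ∀ u ∈ P, r.p ⊆ u →
      ∃ r' ∈ P, u ⊆ r' ∧ ∃ m, (∀ E ∈ t, frc P (E m) r') ∧ frc P (.neg (A β m)) r') (by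
        intro r
        obtain ⟨q, hq, h1, s, h2⟩ := hF.fin k t ht r.p r.hp
        exact ⟨⟨q, hq, r.q⟩, ⟨h1, le_rfl⟩, s, h2⟩)] with w hw h1 ⟨s, h2, r, hr, h3⟩
  refine ⟨s, h2, fun β g1 g2 g3 => ?_⟩
  obtain ⟨u, hu, _, m, g4, g5⟩ := h1 β g1 r hr (fun u hu => by
    obtain ⟨r', hr', k1, k2⟩ := h3 β g2 g3 u.p u.hp hu.1
    exact ⟨⟨r', hr', u.q⟩, ⟨k1, le_rfl⟩, k2⟩)
  refine ⟨m, fun E hE => ⟨u, hu, g4 E hE⟩, fun ⟨v, hv, g6⟩ => ?_⟩
  obtain ⟨z, _, k1, k2⟩ := hw.dir u hu v hv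
  exact not_frc_both z.hp (frc_mono g6 k2.1) (frc_mono g5 k1.1)

theorem ev_ultra (hF : Final cl P A Gen) (hQ : SigmaClosed Q) {k : J}
    (hK : {x | cl x = k}.Infinite) :
    ∀ᶠ w in gen (Rc P Q), UltraIn w.M (w.val (uName (Gen k))) := by
  filter_upwards [ev_uName hF.ccc hQ (Gen k), ev_fin hF k, ev_rv, ev_capN, ev_infinity,
    ev_capture hF.ccc hQ, ev_in_finset (Nm K Λ St),
    ev_all fun X : Nm K Λ St => ev_val_mem_M (nmName X : Name (Rc P Q)),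
    ev_all fun s : Finset K => ev_skolem (fun β => cl β = k ∧ β ∉ s),
    ev_fun (capN : Finset (Nm K Λ St) → _), ev_fun (negN : Nm K Λ St → _),
    ev_all fun X : Nm K Λ St => ev_call fun m => ev_has_neg (P := P) (Q := Q) (X m),
    ev_call fun m => ev_const (cof m : Nm K Λ St),
    ev_all fun t : Finset (Nm K Λ St) => ev_all fun X : Nm K Λ St => ev_subF (P := P) (Q := Q) t X,
    ev_all fun X : Nm K Λ St => ev_dense_val (fun (r : Rc P Q) (t : Finset (Nm K Λ St)) =>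
      (t : Set _) ⊆ Gen k ∧ (SubF P r.p t X ∨ SubF P r.p t (negN X))) (by
        intro r
        obtain ⟨q, hq, h1, s, h2⟩ := hF.dec k X r.p r.hp
        exact ⟨⟨q, hq, r.q⟩, ⟨h1, le_rfl⟩, s, h2⟩)]
    with w ⟨_, h1⟩ h2 h3 h4 h5 h6 h7 h8 h9 h10 h11 h12 h13 h14 h15
  have hne : ∀ t : Finset (Nm K Λ St), w.In t → (t : Set _) ⊆ Gen k →
      ∃ m, ∀ E ∈ t, w.Has (E m) := by
    intro t g1 g2
    obtain ⟨s, g3, g4⟩ := h2 t g1 g2
    obtain ⟨β, g5, g6, g7⟩ := h9 s g3 ((hK.sdiff s.finite_toSet).nonempty)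
    obtain ⟨m, g8, _⟩ := g4 β g5 g6 g7
    exact ⟨m, g8⟩
  refine ⟨fun X hX => ((h1 X).1 hX).2.1, ?_, fun h => ?_, fun X hX Y hY => ?_,
    fun X hX Y hY g1 g2 => ?_, fun X hX g1 => ?_, fun n hn h => ?_⟩
  · exact (h1 _).2 ⟨h5, subset_rfl, ∅, (h7 _).2 (by simp), by simp, fun m _ => nat_mem_omega m⟩
  · obtain ⟨_, _, t, g1, g2, g3⟩ := (h1 _).1 h
    obtain ⟨m, g4⟩ := hne t g1 g2
    exact ZFSet.notMem_empty _ (g3 m g4)
  · obtain ⟨g1, g2, t, g3, g4, g5⟩ := (h1 _).1 hX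
    obtain ⟨k1, k2, t', k3, k4, k5⟩ := (h1 _).1 hY
    obtain ⟨X0, g6, rfl⟩ := h6 X g1 g2
    obtain ⟨Y0, k6, rfl⟩ := h6 Y k1 k2
    have e1 : w.rv X0 ∩ w.rv Y0 ⊆ ZFSet.omega := fun z hz => g2 (ZFSet.mem_inter.1 hz).1
    have e2 : w.rv X0 ∩ w.rv Y0 = w.rv (capN {X0, Y0}) := eq_of_nat e1 (h3 _).1 (fun m => by
      rw [ZFSet.mem_inter, (h3 _).2, (h3 _).2, (h3 _).2, h4]
      simp)
    refine (h1 _).2 ⟨?_, e1, t ∪ t', (h7 _).2 (fun E hE => ?_), ?_, fun m hm => ?_⟩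
    · rw [e2]
      refine h8 _ (h10 _ ((h7 _).2 (fun E hE => ?_)))
      simp only [Finset.mem_insert, Finset.mem_singleton] at hE
      rcases hE with rfl | rfl
      exacts [g6, k6]
    · rcases Finset.mem_union.1 hE with h | h
      exacts [(h7 _).1 g3 E h, (h7 _).1 k3 E h]
    · rw [Finset.coe_union]
      exact Set.union_subset g4 k4
    · exact ZFSet.mem_inter.2 ⟨g5 m (fun E hE => hm E (Finset.mem_union_left _ hE)),
        k5 m (fun E hE => hm E (Finset.mem_union_right _ hE))⟩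
  · obtain ⟨_, _, t, g3, g4, g5⟩ := (h1 _).1 hX
    exact (h1 _).2 ⟨hY, g2, t, g3, g4, fun m hm => g1 (g5 m hm)⟩
  · obtain ⟨X0, g2, rfl⟩ := h6 X hX g1
    obtain ⟨t, g3, r, hr, g4, g5 | g5⟩ := h15 X0 g2
    · exact Or.inl ((h1 _).2 ⟨hX, g1, t, g3, g4, (h14 t g3 X0 g2).1 ⟨r, hr, g5⟩⟩)
    · have e1 : ZFSet.omega \ w.rv X0 = w.rv (negN X0) :=
        eq_of_nat (fun z hz => (ZFSet.mem_sdiff.1 hz).1) (h3 _).1 (fun m => by
          rw [ZFSet.mem_sdiff, (h3 _).2, (h3 _).2, negN, h12 X0 g2 m]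
          exact and_iff_right (nat_mem_omega m))
      rw [e1]
      exact Or.inr ((h1 _).2 ⟨h8 _ (h11 _ g2), (h3 _).1, t, g3, g4,
        (h14 t g3 _ (h11 _ g2)).1 ⟨r, hr, g5⟩⟩)
  · obtain ⟨i, rfl⟩ := mem_omega.1 hn
    obtain ⟨_, _, t, g3, g4, g5⟩ := (h1 _).1 h
    obtain ⟨m, g6⟩ := hne (insert (cof (i + 1)) t) ((h7 _).2 (fun E hE => by
      rcases Finset.mem_insert.1 hE with rfl | h
      exacts [h13 _, (h7 _).1 g3 E h])) (by
        rw [Finset.coe_insert]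
        exact Set.insert_subset (hF.memcof _ _) g4)
    have g7 := nat_inj (ZFSet.mem_singleton.1
      (g5 m (fun E hE => g6 E (Finset.mem_insert_of_mem hE))))
    obtain ⟨r, _, g8⟩ := g6 _ (Finset.mem_insert_self _ _)
    have := (frc_cof r.hp).1 g8
    omega

variable {O : Type} [LinearOrder O] [WellFoundedLT O]

theorem ev_tukey1 (hF : Final cl P A Gen) (hQ : SigmaClosed Q) {k : J} {κ : O} (j : O → K)
    (hj : ∀ a, cl (j a) = k) (hj' : Set.InjOn j (Set.Iio κ)) :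
    ∀ᶠ w in gen (Rc P Q), TukeyLeIn w.M (w.val (dName κ)) (fun s t => s ⊆ t)
      (w.val (uName (Gen k))) (fun X Y => Y ⊆ X) := by
  let c : Finset O → Finset (Nm K Λ St) := fun s => s.image (fun a => A (j a))
  have hfin : ∀ s : Finset K, {a | a < κ ∧ j a ∈ s}.Finite := fun s =>
    Set.Finite.of_finite_image (f := j) (s.finite_toSet.subset (by
      rintro _ ⟨a, ha, rfl⟩
      exact ha.2)) (hj'.mono (fun a ha => ha.1))
  filter_upwards [ev_uName hF.ccc hQ (Gen k), ev_fin hF k, ev_rv, ev_capN, ev_dName κ,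
    ev_fv (O := O), ev_val_opair, ev_hit_univ, ev_in_finset O, ev_fun j, ev_fun c,
    ev_in_subtype (fun s : Finset O => ∀ a ∈ s, a < κ),
    ev_all fun s : Finset O => ev_val_mem_M (nmName (capN (c s)) : Name (Rc P Q)),
    ev_fun (fun s => (hfin s).toFinset),
    ev_val_mem_M (⟨{s : Finset O // ∀ a ∈ s, a < κ},
      fun s => opair (finName s.1) (nmName (capN (c s.1))), fun _ => Set.univ⟩ : Name (Rc P Q))]
    with w ⟨_, h1⟩ h2 h3 h4 ⟨_, h5, _⟩ h6 h7 h8 h9 h10 h11 h12 h13 h14 h15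
  have key : ∀ z, z ∈ w.val (⟨{s : Finset O // ∀ a ∈ s, a < κ},
      fun s => opair (finName s.1) (nmName (capN (c s.1))), fun _ => Set.univ⟩ : Name (Rc P Q)) ↔
      ∃ s : Finset O, w.In s ∧ (∀ a ∈ s, a < κ) ∧ z = ZFSet.pair (w.fv s) (w.rv (capN (c s))) := by
    intro z
    rw [w.mem_val_mk]
    constructor
    · rintro ⟨s, g1, _, rfl⟩
      exact ⟨s.1, (h12 s).1 g1, s.2, h7 _ _⟩
    · rintro ⟨s, g1, g2, rfl⟩
      exact ⟨⟨s, g2⟩, (h12 _).2 g1, h8, h7 _ _⟩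
  refine ⟨_, h15, ⟨fun z hz => ?_, fun x hx => ?_⟩, fun B _ hB hu ⟨Y, hY, hb⟩ => hu ?_⟩
  · obtain ⟨s, g1, g2, rfl⟩ := (key z).1 hz
    refine ZFSet.pair_mem_prod.2 ⟨(h5 _).2 ⟨s, g1, g2, rfl⟩, (h1 _).2 ⟨h13 s g1, (h3 _).1, c s,
      h11 s g1, fun E hE => ?_, fun m hm => ((h3 _).2 m).2 ((h4 _ _).2 hm)⟩⟩
    obtain ⟨a, _, rfl⟩ := Finset.mem_image.1 hE
    exact hj a ▸ hF.memA (j a)
  · obtain ⟨s, g1, g2, rfl⟩ := (h5 x).1 hx
    refine ⟨_, (key _).2 ⟨s, g1, g2, rfl⟩, fun y hy => ?_⟩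
    obtain ⟨s', g3, _, g4⟩ := (key _).1 hy
    rw [ZFSet.pair_inj] at g4
    have : s = s' := Finset.Subset.antisymm ((h6.2 s s' g1 g3).1 (g4.1 ▸ subset_rfl))
      ((h6.2 s' s g3 g1).1 (g4.1 ▸ subset_rfl))
    rw [g4.2, this]
  · obtain ⟨_, _, t, g1, g2, g3⟩ := (h1 Y).1 hY
    obtain ⟨s0, g4, g5⟩ := h2 t g1 g2
    refine ⟨w.fv (hfin s0).toFinset, (h5 _).2 ⟨_, h14 s0 g4,
      fun a ha => ((hfin s0).mem_toFinset.1 ha).1, rfl⟩, fun x hx => ?_⟩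
    obtain ⟨s, g6, g7, rfl⟩ := (h5 x).1 (hB hx)
    refine (h6.2 _ _ g6 (h14 s0 g4)).2 (fun a ha => (hfin s0).mem_toFinset.2 ⟨g7 a ha, ?_⟩)
    by_contra hc
    obtain ⟨m, g8, g9⟩ := g5 (j a) (h10 a ((h9 s).1 g6 a ha)) (hj a) hc
    have := hb _ hx _ ((key _).2 ⟨s, g6, g7, rfl⟩) (g3 m g8)
    exact g9 ((h4 _ _).1 (((h3 _).2 m).1 this) _ (Finset.mem_image_of_mem _ ha))

/-- A generic enumeration of the finite subsets of `G` by the ordinals below `κ`. -/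
structure GoodCd {R T : Type} [Preorder R] (κ : O) (G : Set T) (Cd : R → O → Finset T → Prop) :
    Prop where
  mono : ∀ a t r s, s ≤ r → Cd r a t → Cd s a t
  dom : ∀ r a t, Cd r a t → a < κ ∧ (t : Set T) ⊆ G
  func : ∀ r a t t', Cd r a t → Cd r a t' → t = t'
  onto : ∀ t : Finset T, (t : Set T) ⊆ G → ∀ r, ∃ s ≤ r, ∃ a, Cd s a t

theorem ev_tukey2 (hF : Final cl P A Gen) (hQ : SigmaClosed Q) {k : J} {κ : O}
    {Cd : Rc P Q → O → Finset (Nm K Λ St) → Prop} (hC : GoodCd κ (Gen k) Cd) :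
    ∀ᶠ w in gen (Rc P Q), TukeyLeIn w.M (w.val (uName (Gen k))) (fun X Y => Y ⊆ X)
      (w.val (dName κ)) (fun s t => s ⊆ t) := by
  let Rel : Nm K Λ St → Rc P Q → O → Prop := fun X r a => ∃ t, Cd r a t ∧ SubF P r.p t X
  have hm : ∀ X a p q, q ≤ p → Rel X p a → Rel X q a :=
    fun X a p q h ⟨t, g1, g2⟩ => ⟨t, hC.mono _ _ _ _ h g1, g2.mono h.1⟩
  filter_upwards [ev_generic, ev_uName hF.ccc hQ (Gen k), ev_rv, ev_capN, ev_dName κ,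
    ev_fv (O := O), ev_val_opair, ev_in_finset (Nm K Λ St), ev_in_finset O,
    ev_in_prod (Nm K Λ St) O, ev_capture hF.ccc hQ, ev_fun (fun a : O => ({a} : Finset O)),
    ev_all fun X : Nm K Λ St => ev_val_mem_M (nmName X : Name (Rc P Q)),
    ev_fun (capN : Finset (Nm K Λ St) → _),
    ev_all fun t : Finset (Nm K Λ St) => ev_all fun X : Nm K Λ St => ev_subF (P := P) (Q := Q) t X,
    ev_all fun X : Nm K Λ St => ev_all fun a : O => ev_least (· < ·) (Rel X) (hm X) a,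
    ev_all fun X : Nm K Λ St => ev_all fun a : O =>
      ev_frc_ex (fun (r : Rc P Q) t => Cd r a t ∧ SubF P r.p t X),
    ev_all fun t : Finset (Nm K Λ St) => ev_dimp fun h : (t : Set _) ⊆ Gen k =>
      ev_dense_val (fun r a => Cd r a t) (hC.onto t h),
    ev_val_mem_M (⟨Nm K Λ St × O, fun x => opair (nmName x.1) (finName {x.2}),
      fun x => {r | Rel x.1 r x.2 ∧ ∀ b, ∀ q ≤ r, ¬ (b < x.2 ∧ Rel x.1 q b)}⟩ : Name (Rc P Q))]
    with w hw ⟨_, h1⟩ h3 h4 ⟨_, h5, _⟩ h6 h7 h8 h9 h10 h11 h12 h13 h14 h15 h16 h17 h18 h19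
  let Lo : O → ZFSet → Prop := fun a Y => ∃ t, w.In t ∧ (w.Frc fun r => Cd r a t) ∧ w.Cap t Y
  have hLo : ∀ X a, w.In X → w.In a → ((w.Frc fun r => Rel X r a) ↔ Lo a (w.rv X)) := by
    intro X a g1 g2
    rw [h17 X g1 a g2]
    constructor
    · rintro ⟨t, g3, g4⟩
      exact ⟨t, g3, g4.imp (fun _ h => h.1), (h15 t g3 X g1).1 (g4.imp (fun _ h => h.2))⟩
    · rintro ⟨t, g3, g4, g5⟩
      exact ⟨t, g3, hw.frc_and (hC.mono a t) (fun p q h h' => h'.mono h.1) g4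
        ((h15 t g3 X g1).2 g5)⟩
  have key : ∀ z, z ∈ w.val (⟨Nm K Λ St × O, fun x => opair (nmName x.1) (finName {x.2}),
      fun x => {r | Rel x.1 r x.2 ∧ ∀ b, ∀ q ≤ r, ¬ (b < x.2 ∧ Rel x.1 q b)}⟩ : Name (Rc P Q)) ↔
      ∃ X a, w.In X ∧ w.In a ∧ Lo a (w.rv X) ∧ (∀ b, w.In b → b < a → ¬ Lo b (w.rv X)) ∧
        z = ZFSet.pair (w.rv X) (w.fv {a}) := by
    intro z
    rw [w.mem_val_mk]
    constructor
    · rintro ⟨⟨X, a⟩, g1, g2, rfl⟩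
      obtain ⟨g3, g4⟩ := (h10 _).1 g1
      obtain ⟨g5, g6⟩ := (h16 X g3 a g4).1 g2
      exact ⟨X, a, g3, g4, (hLo X a g3 g4).1 g5,
        fun b k1 k2 k3 => g6 b k1 k2 ((hLo X b g3 k1).2 k3), h7 _ _⟩
    · rintro ⟨X, a, g3, g4, g5, g6, rfl⟩
      exact ⟨(X, a), (h10 _).2 ⟨g3, g4⟩, (h16 X g3 a g4).2 ⟨(hLo X a g3 g4).2 g5,
        fun b k1 k2 k3 => g6 b k1 k2 ((hLo X b g3 k1).1 k3)⟩, h7 _ _⟩
  have total : ∀ Y ∈ w.val (uName (Gen k)), ∃ X a, w.In X ∧ w.In a ∧ Lo a (w.rv X) ∧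
      (∀ b, w.In b → b < a → ¬ Lo b (w.rv X)) ∧ Y = w.rv X := by
    intro Y hY
    obtain ⟨g1, g2, t, g3, g4, g5⟩ := (h1 Y).1 hY
    obtain ⟨X, g6, rfl⟩ := h11 Y g1 g2
    obtain ⟨a, g7, g8⟩ := h18 t g3 g4
    obtain ⟨b, ⟨g9, g10⟩, g11⟩ := (wellFounded_lt (α := O)).has_min
      {a | w.In a ∧ Lo a (w.rv X)} ⟨a, g7, t, g3, g8, g5⟩
    exact ⟨X, b, g6, g9, g10, fun c k1 k2 k3 => g11 c ⟨k1, k3⟩ k2, rfl⟩
  refine ⟨_, h19, ⟨fun z hz => ?_, fun x hx => ?_⟩, fun B _ hB hu ⟨b, hb, hb'⟩ => hu ?_⟩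
  · obtain ⟨X, a, g1, g2, ⟨t, g3, ⟨r, _, g4⟩, g5⟩, _, rfl⟩ := (key z).1 hz
    refine ZFSet.pair_mem_prod.2 ⟨(h1 _).2 ⟨h13 X g1, (h3 X).1, t, g3, (hC.dom _ _ _ g4).2, g5⟩,
      (h5 _).2 ⟨{a}, h12 a g2, fun c hc => ?_, rfl⟩⟩
    rw [Finset.mem_singleton.1 hc]
    exact (hC.dom _ _ _ g4).1
  · obtain ⟨X, a, g1, g2, g3, g4, rfl⟩ := total x hx
    refine ⟨_, (key _).2 ⟨X, a, g1, g2, g3, g4, rfl⟩, fun y hy => ?_⟩
    obtain ⟨X', a', k1, k2, k3, k4, k5⟩ := (key _).1 hy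
    rw [ZFSet.pair_inj] at k5
    rw [← k5.1] at k3 k4
    have : a' = a := by
      rcases lt_trichotomy a' a with h | h | h
      · exact absurd k3 (g4 a' k2 h)
      · exact h
      · exact absurd g3 (k4 a g2 h)
    rw [k5.2, this]
  · obtain ⟨s, g1, _, rfl⟩ := (h5 b).1 hb
    have g2 : ∀ a : O, ∃ t : Finset (Nm K Λ St), w.In t ∧ (t : Set _) ⊆ Gen k ∧
        ∀ t', w.In t' → (w.Frc fun r => Cd r a t') → t' = t := by
      intro a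
      by_cases h : ∃ t, w.In t ∧ w.Frc fun r => Cd r a t
      · obtain ⟨t, k1, k2⟩ := h
        refine ⟨t, k1, ?_, fun t' _ k3 => ?_⟩
        · obtain ⟨r, _, k3⟩ := k2
          exact (hC.dom _ _ _ k3).2
        · obtain ⟨r, _, k4, k5⟩ := hw.frc_and (hC.mono a t') (hC.mono a t) k3 k2
          exact hC.func _ _ _ _ k4 k5
      · exact ⟨∅, (h8 _).2 (by simp), by simp, fun t' k1 k2 => absurd ⟨t', k1, k2⟩ h⟩
    choose τ hτ1 hτ2 hτ3 using g2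
    have g3 : w.In (s.biUnion τ) := (h8 _).2 (fun E hE => by
      obtain ⟨a, _, k1⟩ := Finset.mem_biUnion.1 hE
      exact (h8 _).1 (hτ1 a) E k1)
    refine ⟨w.rv (capN (s.biUnion τ)), (h1 _).2 ⟨h13 _ (h14 _ g3), (h3 _).1, _, g3, fun E hE => ?_,
      fun m hm => ((h3 _).2 m).2 ((h4 _ _).2 hm)⟩, fun Y hY => ?_⟩
    · obtain ⟨a, _, k1⟩ := Finset.mem_biUnion.1 hE
      exact hτ2 a k1
    · obtain ⟨X, a, k1, k2, k3, k4, rfl⟩ := total Y (hB hY)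
      have k5 := (h6.2 _ _ (h12 a k2) g1).1
        (hb' _ hY _ ((key _).2 ⟨X, a, k1, k2, k3, k4, rfl⟩)) (Finset.mem_singleton_self a)
      obtain ⟨t, k6, k7, k8⟩ := k3
      refine subset_of_nat (h3 _).1 (fun m hm => k8 m (fun E hE => ?_))
      rw [hτ3 a t k6 k7] at hE
      exact (h4 _ _).1 (((h3 _).2 m).1 hm) E (Finset.mem_biUnion.2 ⟨a, k5, hE⟩)

theorem exists_model [Nonempty Q] [Finite J] (hF : Final cl P A Gen) (hQ : SigmaClosed Q)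
    (hK : ∀ k, {x | cl x = k}.Infinite) (κ : J → O) (hκ : Function.Injective κ) (top : O)
    {a1 : O} (ha1 : a1 < top) (hs : Stab (Rc P Q) (Nm K Λ St) top)
    (hj : ∀ k, ∃ j : O → K, (∀ a, cl (j a) = k) ∧ Set.InjOn j (Set.Iio (κ k)))
    (hC : ∀ k, ∃ Cd : Rc P Q → O → Finset (Nm K Λ St) → Prop, GoodCd (κ k) (Gen k) Cd)
    (hP : ∀ k, Pres (Rc P Q) (κ k)) (hi : ∀ k, ∃ a < κ k, (Set.Iio a).Infinite)
    (hcl : ∀ a < top, (∃ k, a = κ k) ∨ (Set.Iio a).Countable ∨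
      ∃ b < a, ∃ Br : Rc P Q → O → O → Prop, GoodBr (fun x => x < b) (fun x => x < a) Br) :
    ∃ M : Set ZFSet.{0}, TransModelZFC M ∧ {x | InSpec M x}.encard = ENat.card J := by
  have : Nonempty (Rc P Q) := ⟨⟨∅, hF.empty, Classical.arbitrary Q⟩⟩
  have h1 : ∀ k, ∀ᶠ w in gen (Rc P Q), InSpec w.M (w.ov (κ k)) := by
    intro k
    obtain ⟨j, g1, g2⟩ := hj k
    obtain ⟨Cd, g3⟩ := hC k
    obtain ⟨a, g4, g5⟩ := hi k
    filter_upwards [ev_card (hP k), ev_omega_mem g4 g5, ev_uName hF.ccc hQ (Gen k),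
      ev_dName (κ k), ev_ultra hF hQ (hK k), ev_tukey1 hF hQ j g1 g2, ev_tukey2 hF hQ g3]
      with w k1 k2 k3 k4 k5 k6 k7
    exact ⟨k1, k2, _, k3.1, _, k4.1, k5, k4.2.2, k7, k6⟩
  have h2 : ∀ a < top, ∀ᶠ w in gen (Rc P Q), InSpec w.M (w.ov a) → ∃ k, a = κ k := by
    intro a ha
    rcases hcl a ha with h | h
    · exact Eventually.of_forall fun _ _ => h
    · exact (ev_not_card h).mono fun w g1 g2 => absurd ⟨g2.1, g2.2.1⟩ g1
  have h3 : ∀ᶠ w in gen (Rc P Q), TransModelZFC w.M ∧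
      {x | InSpec w.M x}.encard = ENat.card J := by
    filter_upwards [ev_zfc, ev_call h1, ev_all fun a => ev_dimp (h2 a), ev_const top,
      ev_upper nmName hs ha1 (ev_capture hF.ccc hQ), ev_ov (O := O),
      ev_call fun k => ev_const (κ k)] with w g1 g2 g3 g4 g5 g6 g7
    refine ⟨g1, ?_⟩
    have : {x | InSpec w.M x} = (fun k => w.ov (κ k)) '' Set.univ := by
      ext x
      constructor
      · intro hx
        obtain ⟨a, k1, k2, rfl⟩ := ((g6.1 top g4).1 x).1 (g5 x hx)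
        obtain ⟨k, rfl⟩ := g3 a k1 k2 hx
        exact ⟨k, trivial, rfl⟩
      · rintro ⟨k, _, rfl⟩
        exact g2 k
    rw [this, Function.Injective.encard_image (fun i j h => hκ (g6.2.2.2 _ _ (g7 i) (g7 j) h)),
      Set.encard_univ]
  obtain ⟨w, hw⟩ := h3.exists
  exact ⟨w.M, hw⟩

end Pool.Agent.P.MP_0e7365_lc
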