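import Mathlib

/-!
Terms, atoms, conditions, the action of finite subsets of `K`, and forcing for terms.
-/

namespace Pool.Agent.P.MP_0e7365_lc

open scoped symmDiff
open Classical

inductive Kind (K Λ : Type) : Type
  | lot (η : Λ)
  | bit (m : ℕ)
  | com (r : Finset K)
  | prom (β : K) (m : ℕ)

structure Lab (K Λ St : Type) : Type where
  st : St
  T : {T : Set K // T.Countable}
  g : Finset K
  kind : Kind K Λ

inductive Tm (K Λ St : Type) : Type
  | top : Tm K Λ St
  | atom (l : Lab K Λ St) (sub : ℕ → Tm K Λ St) : Tm K Λ St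
  | neg (t : Tm K Λ St) : Tm K Λ St
  | conj (f : ℕ → Tm K Λ St) : Tm K Λ St

variable {K Λ St : Type}

abbrev Nm (K Λ St : Type) := ℕ → Tm K Λ St
abbrev Atom (K Λ St : Type) := Lab K Λ St × Nm K Λ St
abbrev Cond (K Λ St : Type) := Finset (Atom K Λ St)

/-- `h ∩ T`. -/
noncomputable def cut (h : Finset K) (T : Set K) : Finset K := h.filter (· ∈ T)

@[simp] theorem mem_cut {h : Finset K} {T : Set K} {x : K} : x ∈ cut h T ↔ x ∈ h ∧ x ∈ T := by
  simp [cut]

noncomputable def Lab.act (h : Finset K) (l : Lab K Λ St) : Lab K Λ St :=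
  ⟨l.st, l.T, l.g ∆ cut h l.T.1, l.kind⟩

noncomputable def Tm.act (h : Finset K) : Tm K Λ St → Tm K Λ St
  | .top => .top
  | .atom l sub => .atom (l.act h) (fun m => Tm.act h (sub m))
  | .neg t => .neg (Tm.act h t)
  | .conj f => .conj (fun i => Tm.act h (f i))

noncomputable def actN (h : Finset K) (X : Nm K Λ St) : Nm K Λ St := fun m => (X m).act h

noncomputable def actA (h : Finset K) (a : Atom K Λ St) : Atom K Λ St := (a.1.act h, actN h a.2)

noncomputable def actC (h : Finset K) (p : Cond K Λ St) : Cond K Λ St := p.image (actA h)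

theorem Lab.act_act (h h' : Finset K) (l : Lab K Λ St) : (l.act h').act h = l.act (h ∆ h') := by
  simp only [Lab.act]
  congr 1
  ext x
  simp only [Finset.mem_symmDiff, mem_cut]
  tauto

theorem Lab.act_of_disjoint {h : Finset K} {l : Lab K Λ St} (H : ∀ x ∈ h, x ∉ l.T.1) :
    l.act h = l := by
  cases l with
  | mk st T g kind =>
    simp only [Lab.act]
    congr 1
    ext x
    simp only [Finset.mem_symmDiff, mem_cut]
    have := H x
    tauto

theorem Tm.act_act (h h' : Finset K) (t : Tm K Λ St) : (t.act h').act h = t.act (h ∆ h') := by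
  induction t with
  | top => rfl
  | atom l sub ih => simp only [Tm.act, Lab.act_act, ih]
  | neg t ih => simp only [Tm.act, ih]
  | conj f ih => simp only [Tm.act, ih]

theorem Tm.act_empty (t : Tm K Λ St) : t.act ∅ = t := by
  induction t with
  | top => rfl
  | atom l sub ih => simp only [Tm.act, ih]; rw [Lab.act_of_disjoint (by simp)]
  | neg t ih => simp only [Tm.act, ih]
  | conj f ih => simp only [Tm.act, ih]

theorem actN_actN (h h' : Finset K) (X : Nm K Λ St) : actN h (actN h' X) = actN (h ∆ h') X := by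
  funext m; exact Tm.act_act _ _ _

theorem actN_empty (X : Nm K Λ St) : actN ∅ X = X := by
  funext m; exact Tm.act_empty _

theorem actN_self (h : Finset K) (X : Nm K Λ St) : actN h (actN h X) = X := by
  rw [actN_actN, symmDiff_self]; exact actN_empty X

theorem Tm.act_self (h : Finset K) (t : Tm K Λ St) : (t.act h).act h = t := by
  rw [Tm.act_act, symmDiff_self]; exact Tm.act_empty t

theorem actA_actA (h h' : Finset K) (a : Atom K Λ St) : actA h (actA h' a) = actA (h ∆ h') a := by
  simp only [actA, Lab.act_act, actN_actN]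

theorem actA_empty (a : Atom K Λ St) : actA ∅ a = a := by
  simp only [actA, actN_empty]; rw [Lab.act_of_disjoint (by simp)]

theorem actA_self (h : Finset K) (a : Atom K Λ St) : actA h (actA h a) = a := by
  rw [actA_actA, symmDiff_self]; exact actA_empty a

theorem mem_actC {h : Finset K} {p : Cond K Λ St} {a : Atom K Λ St} :
    a ∈ actC h p ↔ actA h a ∈ p := by
  simp only [actC, Finset.mem_image]
  constructor
  · rintro ⟨b, hb, rfl⟩
    rwa [actA_self]
  · intro H
    exact ⟨_, H, actA_self _ _⟩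

theorem actC_actC (h h' : Finset K) (p : Cond K Λ St) : actC h (actC h' p) = actC (h ∆ h') p := by
  ext a
  simp only [mem_actC, actA_actA, symmDiff_comm]

theorem actC_self (h : Finset K) (p : Cond K Λ St) : actC h (actC h p) = p := by
  ext a
  simp only [mem_actC, actA_self]

theorem actC_mono {h : Finset K} {p q : Cond K Λ St} (H : p ⊆ q) : actC h p ⊆ actC h q :=
  Finset.image_subset_image H

theorem actC_subset_iff {h : Finset K} {p q : Cond K Λ St} : actC h p ⊆ q ↔ p ⊆ actC h q := by
  constructor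
  · intro H
    have := actC_mono (h := h) H
    rwa [actC_self] at this
  · intro H
    have := actC_mono (h := h) H
    rwa [actC_self] at this

/-! ### Countable supports -/

theorem Tm.exists_supp (t : Tm K Λ St) :
    ∃ S : Set K, S.Countable ∧ ∀ h : Finset K, (∀ x ∈ h, x ∉ S) → t.act h = t := by
  induction t with
  | top => exact ⟨∅, Set.countable_empty, fun _ _ => rfl⟩
  | atom l sub ih =>
    choose S hS hS' using ih
    refine ⟨l.T.1 ∪ ⋃ m, S m, l.T.2.union (Set.countable_iUnion hS), fun h H => ?_⟩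
    simp only [Tm.act]
    rw [Lab.act_of_disjoint (fun x hx hx' => H x hx (Or.inl hx'))]
    congr 1
    funext m
    exact hS' m h (fun x hx hx' => H x hx (Or.inr (Set.mem_iUnion.2 ⟨m, hx'⟩)))
  | neg t ih =>
    obtain ⟨S, hS, hS'⟩ := ih
    exact ⟨S, hS, fun h H => by simp only [Tm.act, hS' h H]⟩
  | conj f ih =>
    choose S hS hS' using ih
    refine ⟨⋃ m, S m, Set.countable_iUnion hS, fun h H => ?_⟩
    simp only [Tm.act]
    congr 1
    funext m
    exact hS' m h (fun x hx hx' => H x hx (Set.mem_iUnion.2 ⟨m, hx'⟩))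

theorem exists_suppN (X : Nm K Λ St) :
    ∃ S : Set K, S.Countable ∧ ∀ h : Finset K, (∀ x ∈ h, x ∉ S) → actN h X = X := by
  obtain ⟨S, hS, H⟩ := (Tm.conj X).exists_supp
  refine ⟨S, hS, fun h hh => ?_⟩
  have := H h hh
  simp only [Tm.act, Tm.conj.injEq] at this
  exact this

/-! ### Forcing -/

/-- Forcing of a term by a condition in the poset `P` (ordered by reverse inclusion). -/
def frc (P : Set (Cond K Λ St)) : Tm K Λ St → Cond K Λ St → Prop
  | .top, _ => True
  | .atom l sub, p => ∀ q ∈ P, p ⊆ q → ∃ r ∈ P, q ⊆ r ∧ (l, sub) ∈ r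
  | .neg t, p => ∀ q ∈ P, p ⊆ q → ¬ frc P t q
  | .conj f, p => ∀ i, frc P (f i) p

variable {P : Set (Cond K Λ St)}

theorem frc_mono {t : Tm K Λ St} {p q : Cond K Λ St} (H : frc P t p) (hpq : p ⊆ q) :
    frc P t q := by
  induction t with
  | top => trivial
  | atom l sub _ => exact fun r hr hqr => H r hr (hpq.trans hqr)
  | neg t _ => exact fun r hr hqr => H r hr (hpq.trans hqr)
  | conj f ih => exact fun i => ih i (H i)

theorem frc_of_dense {t : Tm K Λ St} {p : Cond K Λ St}
    (H : ∀ q ∈ P, p ⊆ q → ∃ r ∈ P, q ⊆ r ∧ frc P t r) : frc P t p := by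
  induction t with
  | top => trivial
  | atom l sub _ =>
    intro q hq hpq
    obtain ⟨r, hr, hqr, h⟩ := H q hq hpq
    obtain ⟨s, hs, hrs, h'⟩ := h r hr subset_rfl
    exact ⟨s, hs, hqr.trans hrs, h'⟩
  | neg t _ =>
    intro q hq hpq ht
    obtain ⟨r, hr, hqr, h⟩ := H q hq hpq
    exact h r hr subset_rfl (frc_mono ht hqr)
  | conj f ih =>
    intro i
    apply ih i
    intro q hq hpq
    obtain ⟨r, hr, hqr, h⟩ := H q hq hpq
    exact ⟨r, hr, hqr, h i⟩

theorem frc_atom_of_mem {a : Atom K Λ St} {p : Cond K Λ St} (H : a ∈ p) :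
    frc P (.atom a.1 a.2) p := fun q hq hpq => ⟨q, hq, subset_rfl, hpq H⟩

theorem exists_frc_neg {t : Tm K Λ St} {p : Cond K Λ St} (H : ¬ frc P t p) :
    ∃ q ∈ P, p ⊆ q ∧ frc P (.neg t) q := by
  by_contra hc
  apply H
  apply frc_of_dense
  intro q hq hpq
  by_contra hc'
  exact hc ⟨q, hq, hpq, fun r hr hqr ht => hc' ⟨r, hr, hqr, ht⟩⟩

theorem exists_decide (t : Tm K Λ St) {p : Cond K Λ St} (hp : p ∈ P) :
    ∃ q ∈ P, p ⊆ q ∧ (frc P t q ∨ frc P (.neg t) q) := by
  by_cases H : frc P t p
  · exact ⟨p, hp, subset_rfl, Or.inl H⟩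
  · obtain ⟨q, hq, hpq, h⟩ := exists_frc_neg H
    exact ⟨q, hq, hpq, Or.inr h⟩

theorem not_frc_both {t : Tm K Λ St} {p : Cond K Λ St} (hp : p ∈ P) (h1 : frc P t p)
    (h2 : frc P (.neg t) p) : False := h2 p hp subset_rfl h1

theorem frc_neg_neg {t : Tm K Λ St} {p : Cond K Λ St} :
    frc P (.neg (.neg t)) p ↔ frc P t p := by
  constructor
  · intro H
    apply frc_of_dense
    intro q hq hpq
    by_contra hc
    exact H q hq hpq (fun r hr hqr ht => hc ⟨r, hr, hqr, ht⟩)
  · intro H q hq hpq hn
    exact hn q hq subset_rfl (frc_mono H hpq)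

/-- Conjunction over a countable index type. -/
noncomputable def cconj {ι : Type} [Countable ι] (f : ι → Tm K Λ St) : Tm K Λ St :=
  .conj (fun n => match @Encodable.decode ι (Encodable.ofCountable ι) n with
    | some i => f i
    | none => .top)

theorem frc_cconj {ι : Type} [Countable ι] {f : ι → Tm K Λ St} {p : Cond K Λ St} :
    frc P (cconj f) p ↔ ∀ i, frc P (f i) p := by
  constructor
  · intro H i
    have := H (@Encodable.encode ι (Encodable.ofCountable ι) i)
    simpa only [Encodable.encodek] using this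
  · intro H n
    dsimp only
    split
    · exact H _
    · trivial

theorem act_cconj {ι : Type} [Countable ι] (f : ι → Tm K Λ St) (h : Finset K) :
    (cconj f).act h = cconj (fun i => (f i).act h) := by
  simp only [cconj, Tm.act]
  congr 1
  funext n
  split <;> rfl

/-- Implication. -/
def imp (a b : Tm K Λ St) : Tm K Λ St := .neg (.conj (fun n => if n = 0 then a else .neg b))

theorem frc_imp {a b : Tm K Λ St} {p : Cond K Λ St} :
    frc P (imp a b) p ↔ ∀ q ∈ P, p ⊆ q → frc P a q → frc P b q := by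
  constructor
  · intro H q hq hpq ha
    by_contra hb
    obtain ⟨r, hr, hqr, h⟩ := exists_frc_neg hb
    apply H r hr (hpq.trans hqr)
    intro n
    dsimp only
    split_ifs
    · exact frc_mono ha hqr
    · exact h
  · intro H q hq hpq hc
    have h0 := hc 0
    have h1 := hc 1
    simp only [if_true, one_ne_zero, if_false] at h0 h1
    exact not_frc_both hq (H q hq hpq h0) h1

theorem act_imp (a b : Tm K Λ St) (h : Finset K) :
    (imp a b).act h = imp (a.act h) (b.act h) := by
  simp only [imp, Tm.act]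
  congr 2
  funext n
  split_ifs <;> rfl

/-- The poset is invariant under the action. -/
def Inv (P : Set (Cond K Λ St)) : Prop := ∀ h : Finset K, ∀ p ∈ P, actC h p ∈ P

theorem frc_act (hP : Inv P) (h : Finset K) {t : Tm K Λ St} {p : Cond K Λ St} :
    frc P (t.act h) (actC h p) ↔ frc P t p := by
  induction t generalizing p with
  | top => rfl
  | atom l sub _ =>
    constructor
    · intro H q hq hpq
      obtain ⟨r, hr, hqr, ha⟩ := H _ (hP h q hq) (actC_mono hpq)
      exact ⟨actC h r, hP h r hr, actC_subset_iff.1 hqr, mem_actC.2 ha⟩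
    · intro H q hq hpq
      obtain ⟨r, hr, hqr, ha⟩ := H _ (hP h q hq) (actC_subset_iff.1 hpq)
      refine ⟨actC h r, hP h r hr, actC_subset_iff.1 hqr, mem_actC.2 ?_⟩
      have : actA h (l.act h, fun m => (sub m).act h) = (l, sub) := actA_self h (l, sub)
      rwa [this]
  | neg t ih =>
    constructor
    · intro H q hq hpq ht
      exact H _ (hP h q hq) (actC_mono hpq) (ih.2 ht)
    · intro H q hq hpq ht
      apply H _ (hP h q hq) (actC_subset_iff.1 hpq)
      rw [← ih, actC_self]
      exact ht
  | conj f ih => exact forall_congr' (fun i => ih i)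

theorem frc_act' (hP : Inv P) (h : Finset K) {t : Tm K Λ St} {p : Cond K Λ St} :
    frc P (t.act h) p ↔ frc P t (actC h p) := by
  rw [← frc_act hP h (t := t), actC_self]

/-! ### Restriction -/

/-- All top-level atoms of the term have their label in `A`. -/
def Over (A : Lab K Λ St → Prop) : Tm K Λ St → Prop
  | .top => True
  | .atom l _ => A l
  | .neg t => Over A t
  | .conj f => ∀ i, Over A (f i)

def OverN (A : Lab K Λ St → Prop) (X : Nm K Λ St) : Prop := ∀ m, Over A (X m)

theorem Over.mono {A B : Lab K Λ St → Prop} (H : ∀ l, A l → B l) {t : Tm K Λ St}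
    (ht : Over A t) : Over B t := by
  induction t with
  | top => trivial
  | atom l sub _ => exact H l ht
  | neg t ih => exact ih ht
  | conj f ih => exact fun i => ih i (ht i)

theorem OverN.mono {A B : Lab K Λ St → Prop} (H : ∀ l, A l → B l) {X : Nm K Λ St}
    (hX : OverN A X) : OverN B X := fun m => (hX m).mono H

theorem Over.act {A : Lab K Λ St → Prop} {h : Finset K} (H : ∀ l, A l → A (l.act h))
    {t : Tm K Λ St} (ht : Over A t) : Over A (t.act h) := by
  induction t with
  | top => trivial
  | atom l sub _ => exact H l ht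
  | neg t ih => exact ih ht
  | conj f ih => exact fun i => ih i (ht i)

theorem OverN.act {A : Lab K Λ St → Prop} {h : Finset K} (H : ∀ l, A l → A (l.act h))
    {X : Nm K Λ St} (hX : OverN A X) : OverN A (actN h X) := fun m => (hX m).act H

theorem over_cconj {A : Lab K Λ St → Prop} {ι : Type} [Countable ι] {f : ι → Tm K Λ St}
    (H : ∀ i, Over A (f i)) : Over A (cconj f) := by
  intro n
  dsimp only
  split
  · exact H _
  · trivial

theorem over_imp {A : Lab K Λ St → Prop} {a b : Tm K Λ St} (ha : Over A a) (hb : Over A b) :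
    Over A (imp a b) := by
  intro n
  dsimp only
  split_ifs
  · exact ha
  · exact hb

noncomputable def res (A : Lab K Λ St → Prop) (p : Cond K Λ St) : Cond K Λ St :=
  p.filter (fun a => A a.1)

@[simp] theorem mem_res {A : Lab K Λ St → Prop} {p : Cond K Λ St} {a : Atom K Λ St} :
    a ∈ res A p ↔ a ∈ p ∧ A a.1 := by simp [res]

theorem res_subset {A : Lab K Λ St → Prop} {p : Cond K Λ St} : res A p ⊆ p :=
  Finset.filter_subset _ _

theorem res_mono {A : Lab K Λ St → Prop} {p q : Cond K Λ St} (H : p ⊆ q) : res A p ⊆ res A q :=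
  Finset.filter_subset_filter _ H

theorem subset_res {A : Lab K Λ St → Prop} {p q : Cond K Λ St} (H : res A p ⊆ q) :
    res A p ⊆ res A q := fun a ha => mem_res.2 ⟨H ha, (mem_res.1 ha).2⟩

theorem res_res {A : Lab K Λ St → Prop} {p : Cond K Λ St} : res A (res A p) = res A p := by
  ext a; simp

theorem res_eq_self {A : Lab K Λ St → Prop} {p : Cond K Λ St} (H : ∀ a ∈ p, A a.1) :
    res A p = p := Finset.filter_true_of_mem H

theorem res_actC {A : Lab K Λ St → Prop} {h : Finset K} (H : ∀ l, A (l.act h) ↔ A l)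
    (p : Cond K Λ St) : res A (actC h p) = actC h (res A p) := by
  ext a
  simp only [mem_res, mem_actC, actA, H]

/-- Restriction to `A` is a projection of `P`. -/
def Reg (P : Set (Cond K Λ St)) (A : Lab K Λ St → Prop) : Prop :=
  ∀ p ∈ P, res A p ∈ P ∧ ∀ q ∈ P, res A p ⊆ q → res A q ∪ p ∈ P

/-- The part of `P` over `A`. -/
def part (P : Set (Cond K Λ St)) (A : Lab K Λ St → Prop) : Set (Cond K Λ St) :=
  {p ∈ P | ∀ a ∈ p, A a.1}

theorem Reg.res_mem {A : Lab K Λ St → Prop} (H : Reg P A) {p : Cond K Λ St} (hp : p ∈ P) :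
    res A p ∈ part P A := ⟨(H p hp).1, fun _ ha => (mem_res.1 ha).2⟩

theorem Reg.union_mem {A : Lab K Λ St → Prop} (H : Reg P A) {p q : Cond K Λ St} (hp : p ∈ P)
    (hq : q ∈ part P A) (hpq : res A p ⊆ q) : q ∪ p ∈ P := by
  have := (H p hp).2 q hq.1 hpq
  rwa [res_eq_self hq.2] at this

theorem res_union_of {A : Lab K Λ St → Prop} {p q : Cond K Λ St}
    (hq : ∀ a ∈ q, A a.1) (hpq : res A p ⊆ q) : res A (q ∪ p) = q := by
  ext a
  simp only [mem_res, Finset.mem_union]
  constructor
  · rintro ⟨h | h, h'⟩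
    · exact h
    · exact hpq (mem_res.2 ⟨h, h'⟩)
  · intro h
    exact ⟨Or.inl h, hq a h⟩

theorem frc_part {A : Lab K Λ St → Prop} (H : Reg P A) {t : Tm K Λ St} (ht : Over A t)
    {p : Cond K Λ St} (hp : p ∈ P) : frc P t p ↔ frc (part P A) t (res A p) := by
  induction t generalizing p with
  | top => rfl
  | atom l sub _ =>
    constructor
    · intro h q hq hpq
      obtain ⟨r, hr, hqr, ha⟩ := h _ (H.union_mem hp hq hpq) Finset.subset_union_right
      refine ⟨res A r, H.res_mem hr, fun a ha' => ?_, mem_res.2 ⟨ha, ht⟩⟩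
      exact mem_res.2 ⟨hqr (Finset.mem_union_left _ ha'), hq.2 a ha'⟩
    · intro h q hq hpq
      obtain ⟨r, hr, hqr, ha⟩ := h _ (H.res_mem hq) (res_mono hpq)
      exact ⟨r ∪ q, H.union_mem hq hr hqr, Finset.subset_union_right, Finset.mem_union_left _ ha⟩
  | neg t ih =>
    constructor
    · intro h q hq hpq hq'
      apply h _ (H.union_mem hp hq hpq) Finset.subset_union_right
      rw [ih ht (H.union_mem hp hq hpq), res_union_of hq.2 hpq]
      exact hq'
    · intro h q hq hpq hq'
      exact h _ (H.res_mem hq) (res_mono hpq) ((ih ht hq).1 hq')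
  | conj f ih => exact forall_congr' (fun i => ih i (ht i) hp)

theorem frc_res {A : Lab K Λ St → Prop} (H : Reg P A) {t : Tm K Λ St} (ht : Over A t)
    {p : Cond K Λ St} (hp : p ∈ P) : frc P t p ↔ frc P t (res A p) := by
  rw [frc_part H ht hp, frc_part H ht (H p hp).1, res_res]

end Pool.Agent.P.MP_0e7365_lc
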